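import Pool.Agent.Helper50.YF.Defs
import Pool.Agent.Helper50.CE.Basic

/-!
# YF-29: the closure of a geodesic ball

PROOF. For `y` in the closure: `e^{u} ≤ M` near `y`, choose `p ∈ GB u x r` so close to `y` that the
segment from `p` to `y` has length `< s - r` (`HB.gball_step` with `G = conf u`, `U = univ`,
`c = s - r`; `conf u p i j = e^{2u} δᵢⱼ`).
-/

namespace Pool.Agent.Helper50.YF

open scoped ContDiff Topology NNReal
open Pool.Agent.Helper49.Ric Pool.Agent.Helper73.HB Pool.Agent.Helper50.CF
  Pool.Agent.Helper50.CE MeasureTheory Filter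

noncomputable section

variable {n : ℕ} {u : (Fin n → ℝ) → ℝ}

private theorem form_eq (u : (Fin n → ℝ) → ℝ) (z v : Fin n → ℝ) :
    ∑ i, ∑ j, conf u z i j * v i * v j = Real.exp (2 * u z) * ∑ i, v i ^ 2 := by
  rw [Finset.mul_sum]
  refine Finset.sum_congr rfl fun i _ => ?_
  rw [Finset.sum_eq_single i]
  · simp only [conf, Matrix.smul_apply, Matrix.one_apply_eq, smul_eq_mul, mul_one]
    ring
  · intro j _ hj
    simp only [conf, Matrix.smul_apply, Matrix.one_apply_ne (Ne.symm hj), smul_eq_mul, mul_zero,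
      zero_mul]
  · intro hi
    exact absurd (Finset.mem_univ i) hi

theorem closure_GB (hu : ContDiff ℝ ∞ u) (x : Fin n → ℝ) {r s : ℝ} (h : r < s) :
    closure (GB u x r) ⊆ GB u x s := by
  intro y hy
  have hc : 0 < s - r := by linarith
  obtain ⟨η, hη, hM⟩ := Metric.eventually_nhds_iff_ball.1
    (hu.continuous.continuousAt.eventually (gt_mem_nhds (lt_add_one (u y))))
  set k : ℝ := Real.sqrt (Real.exp (2 * (u y + 1)) * n) with hkdef
  have hk : 0 ≤ k := Real.sqrt_nonneg _
  set δ : ℝ := min η ((s - r) / (k + 1)) with hδdef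
  have hδ : 0 < δ := lt_min hη (div_pos hc (by linarith))
  obtain ⟨p, hp, hpy⟩ := Metric.mem_closure_iff.1 hy δ hδ
  have key : y ∈ gball Set.univ (conf u) x (r + (s - r)) := by
    refine gball_step isOpen_univ (isMetricOn_conf hu) hp (fun _ _ => Set.mem_univ _) ?_
    intro t ht
    rw [form_eq]
    have hz : u (p + t • (y - p)) < u y + 1 := by
      refine hM _ ?_
      rw [Metric.mem_ball, dist_eq_norm]
      have e : p + t • (y - p) - y = (1 - t) • (p - y) := by
        ext i
        simp only [Pi.add_apply, Pi.sub_apply, Pi.smul_apply, smul_eq_mul]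
        ring
      rw [e, norm_smul, Real.norm_eq_abs, abs_of_nonneg (by linarith [ht.2])]
      have h1 : ‖p - y‖ < η := by
        rw [← dist_eq_norm, dist_comm]
        exact hpy.trans_le (min_le_left _ _)
      have h2 : (1 - t) * ‖p - y‖ ≤ 1 * ‖p - y‖ :=
        mul_le_mul_of_nonneg_right (by linarith [ht.1]) (norm_nonneg _)
      linarith
    have hsum : ∑ i, (y - p) i ^ 2 ≤ n * dist y p ^ 2 := by
      have h3 : ∀ i ∈ (Finset.univ : Finset (Fin n)), (y - p) i ^ 2 ≤ dist y p ^ 2 := by
        intro i _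
        have h4 : |(y - p) i| ≤ dist y p := by
          rw [dist_eq_norm, ← Real.norm_eq_abs]
          exact norm_le_pi_norm (y - p) i
        rw [← sq_abs]
        exact pow_le_pow_left₀ (abs_nonneg _) h4 2
      have h5 := Finset.sum_le_card_nsmul _ _ _ h3
      simpa [nsmul_eq_mul] using h5
    have h6 : Real.exp (2 * u (p + t • (y - p))) * ∑ i, (y - p) i ^ 2 ≤
        (Real.exp (2 * (u y + 1)) * n) * dist y p ^ 2 := by
      rw [mul_assoc]
      refine mul_le_mul (Real.exp_le_exp.2 (by linarith)) hsum ?_ (Real.exp_pos _).le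
      exact Finset.sum_nonneg fun i _ => sq_nonneg _
    calc Real.sqrt (Real.exp (2 * u (p + t • (y - p))) * ∑ i, (y - p) i ^ 2)
        ≤ Real.sqrt ((Real.exp (2 * (u y + 1)) * n) * dist y p ^ 2) := Real.sqrt_le_sqrt h6
      _ = k * dist y p := by
          rw [Real.sqrt_mul' _ (sq_nonneg _), Real.sqrt_sq dist_nonneg]
      _ ≤ k * ((s - r) / (k + 1)) :=
          mul_le_mul_of_nonneg_left (hpy.le.trans (min_le_right _ _)) hk
      _ ≤ s - r := by
          rw [mul_div_assoc', div_le_iff₀ (by linarith)]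
          nlinarith
  rwa [add_sub_cancel] at key

end

end Pool.Agent.Helper50.YF
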