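import Pool.Agent.Helper50.YF.Defs

/-!
# YF-28: finite Vitali covering with dyadic radii

PROOF. Finitely many balls `Metric.ball z (2^{j z})`, `z ∈ t ⊆ K`, cover `K`.  Mathlib
`Vitali.exists_disjoint_subfamily_covering_enlargement_closedBall` (factor `5`): a subset `s` of `t`
with disjoint `closedBall z (2^{j z})` and `K ⊆ ⋃ closedBall z (5·2^{j z})`; and
`closedBall z R ⊆ eball z (n R)` for `R > 0`, `n ≥ 2` (`∑ (pᵢ-zᵢ)² ≤ n R² < (n R)²`).
-/

namespace Pool.Agent.Helper50.YF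

open scoped ContDiff Topology NNReal
open Pool.Agent.Helper49.Ric Pool.Agent.Helper73.HB Pool.Agent.Helper50.CF
  Pool.Agent.Helper50.CE MeasureTheory Filter

noncomputable section

variable {n : ℕ} {u : (Fin n → ℝ) → ℝ}

theorem exists_cover (hn : 2 ≤ n) {K : Set (Fin n → ℝ)} (hK : IsCompact K)
    (j : (Fin n → ℝ) → ℤ) : ∃ s : Finset (Fin n → ℝ), (∀ z ∈ s, z ∈ K) ∧
      (∀ z ∈ s, ∀ z' ∈ s, z ≠ z' → Disjoint (Metric.closedBall z ((2 : ℝ) ^ j z))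
        (Metric.closedBall z' ((2 : ℝ) ^ j z'))) ∧
      K ⊆ ⋃ z ∈ s, eball z (5 * n * 2 ^ j z) := by
  classical
  have hpos : ∀ z, (0 : ℝ) < (2 : ℝ) ^ j z := fun z => zpow_pos (by norm_num) _
  obtain ⟨t, htK, hcov⟩ := hK.elim_nhds_subcover
    (fun z => Metric.ball z ((2 : ℝ) ^ j z)) (fun z _ => Metric.ball_mem_nhds z (hpos z))
  obtain ⟨v, hvt, hdisj, hbig⟩ :=
    Vitali.exists_disjoint_subfamily_covering_enlargement_closedBall
      (t : Set (Fin n → ℝ)) (fun z => z) (fun z => (2 : ℝ) ^ j z) (∑ z ∈ t, (2 : ℝ) ^ j z)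
      (fun a ha => Finset.single_le_sum (f := fun z => (2 : ℝ) ^ j z)
        (fun z _ => (hpos z).le) (Finset.mem_coe.1 ha)) 5 (by norm_num)
  refine ⟨t.filter (fun z => z ∈ v), ?_, ?_, ?_⟩
  · intro z hz
    exact htK z (Finset.mem_filter.1 hz).1
  · intro z hz z' hz' hne
    exact hdisj (Finset.mem_filter.1 hz).2 (Finset.mem_filter.1 hz').2 hne
  · intro p hp
    obtain ⟨a, hat, hpa⟩ := Set.mem_iUnion₂.1 (hcov hp)
    obtain ⟨b, hbv, hsub⟩ := hbig a (Finset.mem_coe.2 hat)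
    have hpb : p ∈ Metric.closedBall b (5 * (2 : ℝ) ^ j b) :=
      hsub (Metric.ball_subset_closedBall hpa)
    refine Set.mem_iUnion₂.2 ⟨b, Finset.mem_filter.2 ⟨Finset.mem_coe.1 (hvt hbv), hbv⟩, ?_⟩
    have hd : dist p b ≤ 5 * (2 : ℝ) ^ j b := Metric.mem_closedBall.1 hpb
    have hR : (0 : ℝ) < 5 * (2 : ℝ) ^ j b := by have := hpos b; positivity
    have hc : ∀ i, (p i - b i) ^ 2 ≤ (5 * (2 : ℝ) ^ j b) ^ 2 := by
      intro i
      have h1 : dist (p i) (b i) ≤ 5 * (2 : ℝ) ^ j b := (dist_le_pi_dist p b i).trans hd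
      rw [Real.dist_eq] at h1
      rw [← sq_abs (p i - b i)]
      exact pow_le_pow_left₀ (abs_nonneg _) h1 2
    show ∑ i, (p i - b i) ^ 2 < (5 * n * (2 : ℝ) ^ j b) ^ 2
    have h2 : ∑ i, (p i - b i) ^ 2 ≤ n * (5 * (2 : ℝ) ^ j b) ^ 2 := by
      refine (Finset.sum_le_sum (fun i _ => hc i)).trans (le_of_eq ?_)
      rw [Finset.sum_const, Finset.card_univ, Fintype.card_fin, nsmul_eq_mul]
    have hn' : (2 : ℝ) ≤ n := by exact_mod_cast hn
    have h3 : (n : ℝ) * (5 * (2 : ℝ) ^ j b) ^ 2 < (5 * n * (2 : ℝ) ^ j b) ^ 2 := by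
      have h4 : (5 * (n : ℝ) * (2 : ℝ) ^ j b) ^ 2 = (n : ℝ) ^ 2 * (5 * (2 : ℝ) ^ j b) ^ 2 := by
        ring
      rw [h4]
      have h5 : (n : ℝ) < (n : ℝ) ^ 2 := by nlinarith
      exact mul_lt_mul_of_pos_right h5 (by positivity)
    exact lt_of_le_of_lt h2 h3

end

end Pool.Agent.Helper50.YF
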