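import Pool.Agent.Helper50.YF.SobE
import Pool.Agent.Helper50.CF.Decay

/-!
# YF-12: one step of the decay of the level sets (Sobolev)

PROOF. `η` the cutoff of `cph_spec n r₁ r₂` (`gr η ≤ cph/(r₂-r₁)`), `τ(t) = Real.smoothTransition
(t - k)` (`0` for `t ≤ k`, `1` for `t ≥ k+1`, `|τ'| ≤ c₁`, `CF.exists_step`), `f = η τ(u)`.
`gs f ≤ 2 c₁² gs u 1_{B n r₂ ∩ {k ≤ u ≤ k+1}} + 2 (cph/(r₂-r₁))² 1_{B n r₂ ∩ {k ≤ u}}`.  `exists_sobE`:
`vol(B n r₁ ∩ {k+1 ≤ u})^α ≤ (∫ |f|^{2n/(n-2)})^α ≤ C ∫ gs f`, `α = (n-2)/n`, and Hoelder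
`∫_{B n r₂ ∩ layer} gs u ≤ (∫_{layer} gr u^n)^{2/n} vol(B n r₂ ∩ {k ≤ u})^α`.  Compare
`CE/StepS.lean`, `CE/HolderE.lean`, `CF/Decay.lean` (`step`).
-/

namespace Pool.Agent.Helper50.YF

open scoped ContDiff Topology NNReal
open Pool.Agent.Helper49.Ric Pool.Agent.Helper73.HB Pool.Agent.Helper50.CF
  Pool.Agent.Helper50.CE MeasureTheory Filter

noncomputable section

variable {n : ℕ} {u : (Fin n → ℝ) → ℝ}

private theorem meas_geM (hu : Continuous u) (k : ℝ) : MeasurableSet {p | k ≤ u p} :=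
  (isClosed_le continuous_const hu).measurableSet

private theorem meas_leM (hu : Continuous u) (k : ℝ) : MeasurableSet {p | u p ≤ k} :=
  (isClosed_le hu continuous_const).measurableSet

private theorem meas_layM (hu : Continuous u) (k l : ℝ) :
    MeasurableSet {p | k ≤ u p ∧ u p ≤ l} :=
  (meas_geM hu k).inter (meas_leM hu l)

private theorem int_M {f : (Fin n → ℝ) → ℝ} (hf : Continuous f) {A : Set (Fin n → ℝ)} {r : ℝ}
    (hA : A ⊆ B n r) : IntegrableOn f A :=
  int_on hf (isCompact_Bc r) (hA.trans (B_subset_Bc r))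

/-- Hoelder's inequality on a bounded measurable set -/
private theorem holderM (hn : 3 ≤ n) (hu : ContDiff ℝ ∞ u) {A : Set (Fin n → ℝ)} {r : ℝ}
    (hA : A ⊆ B n r) (hm : MeasurableSet A) :
    ∫ p in A, gs u p ≤ (∫ p in A, gr u p ^ n) ^ (2 / n : ℝ) *
      volume.real A ^ ((n - 2) / n : ℝ) := by
  have hn3 : (3 : ℝ) ≤ n := by exact_mod_cast hn
  have hn0 : (0 : ℝ) < n := by linarith
  set α : ℝ := 2 / n with hα
  set β : ℝ := ((n : ℝ) - 2) / n with hβ
  have hα0 : 0 < α := div_pos two_pos hn0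
  have hβ0 : 0 < β := div_pos (by linarith) hn0
  have hab : α + β = 1 := by rw [hα, hβ]; field_simp; ring
  have e : Real.HolderConjugate (1 / α) (1 / β) := Real.holderConjugate_one_div hα0 hβ0 hab
  have hAK : A ⊆ Bc n r := hA.trans (B_subset_Bc r)
  have hfin : IsFiniteMeasure (volume.restrict A) := by
    refine ⟨?_⟩
    rw [Measure.restrict_apply_univ]
    exact lt_of_le_of_lt (measure_mono hAK) (isCompact_Bc r).measure_lt_top
  have mem : ∀ {f : (Fin n → ℝ) → ℝ} (c : ENNReal), Continuous f →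
      MemLp f c (volume.restrict A) := by
    intro f c hf
    obtain ⟨M, hM⟩ := (isCompact_Bc (n := n) r).exists_bound_of_continuousOn hf.continuousOn
    refine MemLp.of_bound hf.aestronglyMeasurable M ?_
    exact (ae_restrict_iff' hm).mpr (Eventually.of_forall fun p hp => hM p (hAK hp))
  have cf : Continuous (fun p => gr u p ^ 2) := (cont_gr hu).pow 2
  have H := integral_mul_le_Lp_mul_Lq_of_nonneg (μ := volume.restrict A) e
    (f := fun p => gr u p ^ 2) (g := fun _ => (1 : ℝ))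
    (Eventually.of_forall fun p => pow_nonneg (gr_nonneg u p) _)
    (Eventually.of_forall fun p => zero_le_one) (mem _ cf) (mem _ continuous_const)
  have e1 : ∀ p, (gr u p ^ 2) ^ (1 / α) = gr u p ^ n := by
    intro p
    rw [← Real.rpow_natCast, ← Real.rpow_mul (gr_nonneg u p), ← Real.rpow_natCast]
    congr 1
    rw [hα]
    push_cast
    field_simp
  simp only [e1, Real.one_rpow, one_div_one_div, mul_one, integral_const, smul_eq_mul,
    measureReal_restrict_apply_univ] at H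
  have h1 : ∫ p in A, gs u p = ∫ p in A, gr u p ^ 2 := by
    congr 1; ext p; rw [gr_sq]
  rw [h1]
  exact H

theorem exists_stepM (n : ℕ) (hn : 3 ≤ n) : ∃ C : ℝ, 1 ≤ C ∧ ∀ {u : (Fin n → ℝ) → ℝ},
    ContDiff ℝ ∞ u → ∀ r₁ r₂ k : ℝ, 0 < r₁ → r₁ < r₂ → r₂ ≤ 3 →
      volume.real (B n r₁ ∩ {p | k + 1 ≤ u p}) ^ ((n - 2) / n : ℝ) ≤
        C * ((∫ p in B n 3 ∩ {p | k ≤ u p ∧ u p ≤ k + 1}, gr u p ^ n) ^ (2 / n : ℝ) *
            volume.real (B n r₂ ∩ {p | k ≤ u p}) ^ ((n - 2) / n : ℝ)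
          + (1 / (r₂ - r₁)) ^ 2 * volume.real (B n r₂ ∩ {p | k ≤ u p})) := by
  obtain ⟨c1, hc1', hc1⟩ := exists_step
  obtain ⟨CS, hCS1, hCS⟩ := exists_sobE n hn
  have hcp := cph_one
  have hc1s : 1 ≤ c1 ^ 2 := one_le_pow₀ hc1'
  have hcps : 1 ≤ cph ^ 2 := one_le_pow₀ hcp
  refine ⟨CS * (2 * (c1 ^ 2 * cph ^ 2)), by
    have : 1 ≤ c1 ^ 2 * cph ^ 2 := one_le_mul_of_one_le_of_one_le hc1s hcps
    nlinarith, ?_⟩
  intro u hu r₁ r₂ k h0 h12 h23
  have hn3 : (3 : ℝ) ≤ n := by exact_mod_cast hn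
  have hn0 : (0 : ℝ) < n := by linarith
  have hα0 : (0 : ℝ) ≤ (n - 2) / n := div_nonneg (by linarith) hn0.le
  have hq : (0 : ℝ) < 2 * n / (n - 2) := div_pos (by linarith) (by linarith)
  have hr20 : 0 ≤ r₂ := by linarith
  have hd : 0 < r₂ - r₁ := by linarith
  obtain ⟨φ, hφ, hφc, hφs, hφ0, hφ1, hφe, hφg⟩ := cph_spec n r₁ r₂ h0 h12
  have huc := hu.continuous
  have hB3 : B n r₂ ⊆ B n 3 := B_mono hr20 h23
  -- facts on the step function
  have ta0 : ∀ t, 0 ≤ Decay.ta k 1 t := fun t => Real.smoothTransition.nonneg _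
  have ta1 : ∀ t, Decay.ta k 1 t ≤ 1 := fun t => Real.smoothTransition.le_one _
  have taz : ∀ t, t ≤ k → Decay.ta k 1 t = 0 := fun t ht =>
    Real.smoothTransition.zero_of_nonpos
      (div_nonpos_of_nonpos_of_nonneg (by linarith) zero_le_one)
  have tao : ∀ t, k + 1 ≤ t → Decay.ta k 1 t = 1 := fun t ht =>
    Real.smoothTransition.one_of_one_le (by rw [le_div_iff₀ zero_lt_one]; linarith)
  have hτs : ContDiff ℝ ∞ (fun q => Decay.ta k 1 (u q)) := (Decay.ta_smooth k 1).comp hu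
  set f : (Fin n → ℝ) → ℝ := fun p => φ p * Decay.ta k 1 (u p) with hf
  have hfs : ContDiff ℝ ∞ f := hφ.mul hτs
  have hfc : HasCompactSupport f := hφc.mul_right
  have hf0 : ∀ p, 0 ≤ f p := fun p => mul_nonneg (hφ0 p) (ta0 _)
  have key := hCS f hfs hfc
  set A : Set (Fin n → ℝ) := B n r₂ ∩ {p | k ≤ u p} with hA
  set A' : Set (Fin n → ℝ) := B n r₂ ∩ {p | k ≤ u p ∧ u p ≤ k + 1} with hA'
  have hmA : MeasurableSet A := (measurableSet_B r₂).inter (meas_geM huc k)
  have hmA' : MeasurableSet A' := (measurableSet_B r₂).inter (meas_layM huc k (k + 1))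
  have hA'A : A' ⊆ A := fun p hp => ⟨hp.1, hp.2.1⟩
  have hAB : A ⊆ B n r₂ := Set.inter_subset_left
  have hA'B : A' ⊆ B n r₂ := Set.inter_subset_left
  have hvA : volume A < ⊤ := (measure_mono hAB).trans_lt (volume_B_lt_top r₂)
  have hfz : ∀ p, p ∉ A → f p = 0 := by
    intro p hp
    simp only [hf]
    by_cases h1 : p ∈ B n r₂
    · have h2 : u p ≤ k := by
        by_contra h3
        exact hp ⟨h1, (not_le.mp h3).le⟩
      rw [taz _ h2, mul_zero]
    · have h2 : φ p = 0 := image_eq_zero_of_notMem_tsupport fun h3 => h1 (hφs h3)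
      rw [h2, zero_mul]
  -- left side
  have hL : volume.real (B n r₁ ∩ {p | k + 1 ≤ u p}) ≤
      ∫ p, |f p| ^ (2 * n / (n - 2) : ℝ) := by
    have hcq : Continuous fun p => |f p| ^ (2 * n / (n - 2) : ℝ) :=
      (hfs.continuous.abs).rpow_const fun p => Or.inr hq.le
    have hcc : HasCompactSupport (fun p => |f p| ^ (2 * n / (n - 2) : ℝ)) := by
      refine HasCompactSupport.intro hfc fun p hp => ?_
      have h3 : f p = 0 := image_eq_zero_of_notMem_tsupport hp
      simp only [h3, abs_zero, Real.zero_rpow hq.ne']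
    have hint : Integrable (fun p => |f p| ^ (2 * n / (n - 2) : ℝ)) :=
      hcq.integrable_of_hasCompactSupport hcc
    have hm : MeasurableSet (B n r₁ ∩ {p | k + 1 ≤ u p}) :=
      (measurableSet_B r₁).inter (meas_geM huc (k + 1))
    have e1 : volume.real (B n r₁ ∩ {p | k + 1 ≤ u p}) =
        ∫ p in B n r₁ ∩ {p | k + 1 ≤ u p}, |f p| ^ (2 * n / (n - 2) : ℝ) := by
      have e2 : ∫ p in B n r₁ ∩ {p | k + 1 ≤ u p}, |f p| ^ (2 * n / (n - 2) : ℝ) =
          ∫ p in B n r₁ ∩ {p | k + 1 ≤ u p}, (1 : ℝ) := by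
        refine setIntegral_congr_fun hm fun p hp => ?_
        have h3 : f p = 1 := by
          simp only [hf]
          rw [hφe p (B_subset_Bc _ hp.1), tao _ hp.2, one_mul]
        simp only [h3, abs_one, Real.one_rpow]
      rw [e2]
      simp
    rw [e1]
    exact setIntegral_le_integral hint (Eventually.of_forall fun p =>
      Real.rpow_nonneg (abs_nonneg _) _)
  refine (Real.rpow_le_rpow measureReal_nonneg hL hα0).trans (key.trans ?_)
  -- the bound of the gradient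
  have hpt : ∀ p, gs f p ≤ 2 * c1 ^ 2 * (A'.indicator (gs u) p) +
        2 * (cph / (r₂ - r₁)) ^ 2 * (A.indicator (fun _ => (1 : ℝ)) p) := by
    intro p
    by_cases hpA : p ∈ A
    swap
    · have h1 : gs f p = 0 := by
        unfold gs
        refine Finset.sum_eq_zero fun i _ => ?_
        rw [pd_zero_of_nonneg hf0 (hfz p hpA) i]
        norm_num
      rw [h1, Set.indicator_of_notMem hpA,
        Set.indicator_of_notMem (fun h2 => hpA (hA'A h2)), mul_zero, mul_zero, add_zero]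
    rw [Set.indicator_of_mem hpA]
    set t' : ℝ := deriv Real.smoothTransition ((u p - k) / 1) * (1 / 1) with ht'
    have hdu : DifferentiableAt ℝ u p := diff_of_smooth hu.contDiffAt
    have e3 : ∀ i, pd i f p = pd i φ p * Decay.ta k 1 (u p) + φ p * (t' * pd i u p) := by
      intro i
      have h4 := Decay.pd_comp (Decay.ta_deriv k 1 (u p)) hdu i
      have h5 := pd_mul (f := φ) (h := fun q => Decay.ta k 1 (u q)) (p := p)
        (diff_of_smooth hφ.contDiffAt) (diff_of_smooth hτs.contDiffAt) i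
      rw [h4] at h5
      exact h5
    have e4 : ∀ i, pd i f p ^ 2 ≤ 2 * pd i φ p ^ 2 + 2 * (t' ^ 2 * pd i u p ^ 2) := by
      intro i
      rw [e3 i]
      have a0 := ta0 (u p)
      have a1 := ta1 (u p)
      have b0 := hφ0 p
      have b1 := hφ1 p
      have s1 : (pd i φ p * Decay.ta k 1 (u p)) ^ 2 ≤ pd i φ p ^ 2 := by
        rw [mul_pow]
        have : Decay.ta k 1 (u p) ^ 2 ≤ 1 := by nlinarith
        nlinarith [sq_nonneg (pd i φ p)]
      have s2 : (φ p * (t' * pd i u p)) ^ 2 ≤ t' ^ 2 * pd i u p ^ 2 := by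
        rw [mul_pow, mul_pow]
        have : φ p ^ 2 ≤ 1 := by nlinarith
        nlinarith [mul_nonneg (sq_nonneg t') (sq_nonneg (pd i u p))]
      nlinarith [sq_nonneg (pd i φ p * Decay.ta k 1 (u p) - φ p * (t' * pd i u p))]
    have e5 : gs f p ≤ 2 * gs φ p + 2 * (t' ^ 2 * gs u p) := by
      unfold gs
      rw [Finset.mul_sum, Finset.mul_sum, Finset.mul_sum, ← Finset.sum_add_distrib]
      exact Finset.sum_le_sum fun i _ => e4 i
    have e6 : gs φ p ≤ (cph / (r₂ - r₁)) ^ 2 := by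
      rw [← gr_sq]
      exact pow_le_pow_left₀ (gr_nonneg _ _) (hφg p) 2
    have e7 : t' ^ 2 * gs u p ≤ c1 ^ 2 * (A'.indicator (gs u) p) := by
      by_cases hp' : p ∈ A'
      · rw [Set.indicator_of_mem hp']
        have s3 : t' ^ 2 ≤ c1 ^ 2 := by
          rw [ht', div_one, div_one, mul_one]
          calc _ = |deriv Real.smoothTransition (u p - k)| ^ 2 := (sq_abs _).symm
            _ ≤ c1 ^ 2 := pow_le_pow_left₀ (abs_nonneg _) (hc1 _) 2
        exact mul_le_mul_of_nonneg_right s3 (gs_nonneg u p)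
      · rw [Set.indicator_of_notMem hp', mul_zero]
        have s6 : k + 1 < u p := by
          by_contra s7
          exact hp' ⟨hpA.1, hpA.2, not_lt.mp s7⟩
        have s8 : t' = 0 := by
          rw [ht', Decay.deriv_step_zero, zero_mul]
          rw [div_one]
          linarith
        rw [s8]
        simp
    linarith
  have i2 : IntegrableOn (gs u) A' := int_M (cont_gs hu) hA'B
  have i2' : Integrable (A'.indicator (gs u)) := i2.integrable_indicator hmA'
  have i3 : IntegrableOn (fun _ : Fin n → ℝ => (1 : ℝ)) A := int_M continuous_const hAB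
  have i3' : Integrable (A.indicator (fun _ => (1 : ℝ))) := i3.integrable_indicator hmA
  have e9 : ∫ p, gs f p ≤ 2 * c1 ^ 2 * (∫ p in A', gs u p) +
        2 * (cph / (r₂ - r₁)) ^ 2 * volume.real A := by
    calc ∫ p, gs f p ≤ ∫ p, (2 * c1 ^ 2 * (A'.indicator (gs u) p) +
        2 * (cph / (r₂ - r₁)) ^ 2 * (A.indicator (fun _ => (1 : ℝ)) p)) := by
          refine integral_mono_of_nonneg (Eventually.of_forall fun p => gs_nonneg f p) ?_
            (Eventually.of_forall hpt)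
          exact (i2'.const_mul _).add (i3'.const_mul _)
      _ = 2 * c1 ^ 2 * (∫ p, A'.indicator (gs u) p) +
          2 * (cph / (r₂ - r₁)) ^ 2 * ∫ p, A.indicator (fun _ => (1 : ℝ)) p := by
          rw [integral_add (i2'.const_mul _) (i3'.const_mul _), integral_const_mul,
            integral_const_mul]
      _ = _ := by
          rw [integral_indicator hmA', integral_indicator hmA]
          simp
  have e10 := holderM hn hu hA'B hmA'
  have e11 : volume.real A' ≤ volume.real A := measureReal_mono hA'A hvA.ne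
  have e12 : volume.real A' ^ ((n - 2) / n : ℝ) ≤ volume.real A ^ ((n - 2) / n : ℝ) :=
    Real.rpow_le_rpow measureReal_nonneg e11 hα0
  have cgn : Continuous (fun p => gr u p ^ n) := (cont_gr hu).pow n
  have e13 : ∫ p in A', gr u p ^ n ≤
      ∫ p in B n 3 ∩ {p | k ≤ u p ∧ u p ≤ k + 1}, gr u p ^ n := by
    refine setIntegral_mono_set (int_M cgn Set.inter_subset_left)
      (Eventually.of_forall fun p => pow_nonneg (gr_nonneg u p) n) (Eventually.of_forall ?_)
    intro p hp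
    exact ⟨hB3 hp.1, hp.2⟩
  have e14 : 0 ≤ ∫ p in A', gr u p ^ n := integral_nonneg fun p => pow_nonneg (gr_nonneg u p) n
  have e15 : (∫ p in A', gr u p ^ n) ^ (2 / n : ℝ) ≤
      (∫ p in B n 3 ∩ {p | k ≤ u p ∧ u p ≤ k + 1}, gr u p ^ n) ^ (2 / n : ℝ) :=
    Real.rpow_le_rpow e14 e13 (by positivity)
  set W : ℝ := (∫ p in B n 3 ∩ {p | k ≤ u p ∧ u p ≤ k + 1}, gr u p ^ n) ^ (2 / n : ℝ) *
    volume.real A ^ ((n - 2) / n : ℝ) with hW
  have e16 : ∫ p in A', gs u p ≤ W := e10.trans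
    (mul_le_mul e15 e12 (Real.rpow_nonneg measureReal_nonneg _)
      (Real.rpow_nonneg (e14.trans e13) _))
  have hW0 : 0 ≤ W := mul_nonneg (Real.rpow_nonneg (e14.trans e13) _)
    (Real.rpow_nonneg measureReal_nonneg _)
  set Z : ℝ := (1 / (r₂ - r₁)) ^ 2 * volume.real A with hZ
  have hZ0 : 0 ≤ Z := mul_nonneg (sq_nonneg _) measureReal_nonneg
  have e17 : 2 * (cph / (r₂ - r₁)) ^ 2 * volume.real A = 2 * cph ^ 2 * Z := by
    rw [hZ, div_pow, div_pow]
    ring
  have e18 : ∫ p, gs f p ≤ 2 * (c1 ^ 2 * cph ^ 2) * (W + Z) := by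
    refine e9.trans ?_
    rw [e17]
    have a1 : 2 * c1 ^ 2 * (∫ p in A', gs u p) ≤ 2 * (c1 ^ 2 * cph ^ 2) * W := by
      calc 2 * c1 ^ 2 * (∫ p in A', gs u p) ≤ 2 * c1 ^ 2 * W :=
            mul_le_mul_of_nonneg_left e16 (by positivity)
        _ ≤ 2 * (c1 ^ 2 * cph ^ 2) * W := by
            refine mul_le_mul_of_nonneg_right ?_ hW0
            nlinarith
    have a2 : 2 * cph ^ 2 * Z ≤ 2 * (c1 ^ 2 * cph ^ 2) * Z := by
      refine mul_le_mul_of_nonneg_right ?_ hZ0
      nlinarith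
    linarith
  calc CS * ∫ p, gs f p ≤ CS * (2 * (c1 ^ 2 * cph ^ 2) * (W + Z)) :=
        mul_le_mul_of_nonneg_left e18 (by linarith)
    _ = _ := by ring

end

end Pool.Agent.Helper50.YF
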