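import Pool.Agent.Helper50.YF.LayerM
import Pool.Agent.Helper50.YF.StepM

/-!
# YF-13: small mass: the level sets decay exponentially

PROOF. `C₁` of `exists_layerM`, `C₂` of `exists_stepM`, `α = (n-2)/n`, `q = e^{-2n}`.  Choose
`0 < e ≤ 1` with `C₂ e^{2/n} ≤ q^α/2` and `0 < v₀ ≤ 1` with `4 C₂ v₀^{2/n} ≤ q^α/2`; `ε = e/(2 C₁)`;
`k₀ ≥ 0` with `C₁ e^{-k₀/4} ≤ e/2` and `18^n e^{-k₀/2} ≤ v₀`.  Then every layer energy
`∫_{B n 3 ∩ {k ≤ u ≤ k+1}} gr u^n ≤ e` for `k ≥ k₀`.  With `r_j = 2 + 2^{-j}`,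
`V_j = vol(B n r_j ∩ {k₀ + j ≤ u})`: `V_0 ≤ e^{-(n-2)k₀/2} ∫_{B n 5} e^{(n-2)u/2} ≤ 18^n e^{-k₀/2} ≤ v₀`
(`mv_B`), and `V_j ≤ v₀ q^j` by induction: `V_{j+1}^α ≤ C₂ (e^{2/n} V_j^α + 4^{j+1} V_j)
= C₂ V_j^α (e^{2/n} + 4^{j+1} V_j^{2/n}) ≤ (v₀ q^j)^α C₂ (e^{2/n} + 4 v₀^{2/n}) ≤ (v₀ q^{j+1})^α`
(`4^j q^{2j/n} = (4 e^{-4})^j ≤ 1`).
-/

namespace Pool.Agent.Helper50.YF

open scoped ContDiff Topology NNReal
open Pool.Agent.Helper49.Ric Pool.Agent.Helper73.HB Pool.Agent.Helper50.CF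
  Pool.Agent.Helper50.CE MeasureTheory Filter

noncomputable section

variable {n : ℕ} {u : (Fin n → ℝ) → ℝ}

private theorem pow_two_div (hn : 3 ≤ n) {t : ℝ} (ht : 0 < t) : (t ^ n) ^ (2 / n : ℝ) = t ^ 2 := by
  have hn0 : (0 : ℝ) < n := by
    have : (3 : ℝ) ≤ n := by exact_mod_cast hn
    linarith
  rw [← Real.rpow_natCast, ← Real.rpow_mul ht.le]
  have : (n : ℝ) * (2 / n) = (2 : ℕ) := by
    push_cast
    field_simp
  rw [this, Real.rpow_natCast]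

/-- the iteration -/
private theorem iter (hn : 3 ≤ n) {C e v₀ : ℝ} (hC : 1 ≤ C) (he : 0 < e) (hv : 0 < v₀)
    (h1 : C * e ^ (2 / n : ℝ) ≤ Real.exp (-(2 * ((n : ℝ) - 2))) / 2)
    (h2 : 4 * C * v₀ ^ (2 / n : ℝ) ≤ Real.exp (-(2 * ((n : ℝ) - 2))) / 2)
    (V E : ℕ → ℝ) (hV : ∀ j, 0 ≤ V j) (hE0 : ∀ j, 0 ≤ E j) (hE : ∀ j, E j ≤ e)
    (hV0 : V 0 ≤ v₀)
    (hst : ∀ j, V (j + 1) ^ ((n - 2) / n : ℝ) ≤
      C * (E j ^ (2 / n : ℝ) * V j ^ ((n - 2) / n : ℝ) + (1 / (1 / 2) ^ (j + 1)) ^ 2 * V j)) :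
    ∀ j, V j ≤ v₀ * Real.exp (-(2 * n)) ^ j := by
  have hn3 : (3 : ℝ) ≤ n := by exact_mod_cast hn
  have hn0 : (0 : ℝ) < n := by linarith
  set α : ℝ := ((n : ℝ) - 2) / n with hα
  have hα0 : 0 < α := div_pos (by linarith) hn0
  have hβ0 : (0 : ℝ) < 2 / n := by positivity
  have hαs : (2 / n : ℝ) + α = 1 := by
    rw [hα]
    field_simp
    ring
  have hq : (0 : ℝ) < Real.exp (-(2 * n)) := Real.exp_pos _
  have hqα : Real.exp (-(2 * (n : ℝ))) ^ α = Real.exp (-(2 * ((n : ℝ) - 2))) := by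
    rw [← Real.exp_mul]
    congr 1
    rw [hα]
    field_simp
  have hqβ : Real.exp (-(2 * (n : ℝ))) ^ (2 / n : ℝ) = Real.exp (-4) := by
    rw [← Real.exp_mul]
    congr 1
    field_simp
    ring
  have h4 : (4 : ℝ) * Real.exp (-4) ≤ 1 := by
    have a1 : (4 : ℝ) + 1 ≤ Real.exp 4 := Real.add_one_le_exp 4
    rw [Real.exp_neg]
    rw [mul_inv_le_iff₀ (Real.exp_pos 4)]
    linarith
  intro j
  induction j with
  | zero =>
    rw [pow_zero, mul_one]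
    exact hV0
  | succ j ih =>
    have hvα : 0 ≤ V j ^ α := Real.rpow_nonneg (hV j) _
    have e2 : V j = V j ^ (2 / n : ℝ) * V j ^ α := by
      rcases (hV j).eq_or_lt with h3 | h3
      · rw [← h3, Real.zero_rpow hα0.ne', mul_zero]
      · rw [← Real.rpow_add h3, hαs, Real.rpow_one]
    have e3 : V j ^ (2 / n : ℝ) ≤ v₀ ^ (2 / n : ℝ) * Real.exp (-4) ^ j := by
      have a1 : V j ^ (2 / n : ℝ) ≤ (v₀ * Real.exp (-(2 * n)) ^ j) ^ (2 / n : ℝ) :=
        Real.rpow_le_rpow (hV j) ih hβ0.le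
      refine a1.trans (le_of_eq ?_)
      rw [Real.mul_rpow hv.le (by positivity)]
      congr 1
      rw [← Real.rpow_natCast, ← Real.rpow_mul hq.le, mul_comm (j : ℝ) (2 / n : ℝ),
        Real.rpow_mul hq.le, hqβ, Real.rpow_natCast]
    have e4 : (1 / (1 / 2) ^ (j + 1)) ^ 2 * V j ≤ 4 * v₀ ^ (2 / n : ℝ) * V j ^ α := by
      have a1 : ((1 : ℝ) / (1 / 2) ^ (j + 1)) ^ 2 = 4 * (4 : ℝ) ^ j := by
        have b1 : ((1 : ℝ) / (1 / 2) ^ (j + 1)) = 2 ^ (j + 1) := by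
          rw [one_div_pow, one_div_one_div]
        rw [b1, ← pow_mul, mul_comm (j + 1) 2, pow_mul]
        norm_num [pow_succ]
        ring
      have a2 : (4 : ℝ) ^ j * Real.exp (-4) ^ j ≤ 1 := by
        rw [← mul_pow]
        exact pow_le_one₀ (by positivity) h4
      calc (1 / (1 / 2) ^ (j + 1)) ^ 2 * V j
          = 4 * (4 : ℝ) ^ j * (V j ^ (2 / n : ℝ) * V j ^ α) := by rw [a1, ← e2]
        _ ≤ 4 * (4 : ℝ) ^ j * ((v₀ ^ (2 / n : ℝ) * Real.exp (-4) ^ j) * V j ^ α) :=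
            mul_le_mul_of_nonneg_left (mul_le_mul_of_nonneg_right e3 hvα) (by positivity)
        _ = 4 * v₀ ^ (2 / n : ℝ) * V j ^ α * ((4 : ℝ) ^ j * Real.exp (-4) ^ j) := by ring
        _ ≤ 4 * v₀ ^ (2 / n : ℝ) * V j ^ α * 1 :=
            mul_le_mul_of_nonneg_left a2 (by positivity)
        _ = _ := mul_one _
    have e5 : E j ^ (2 / n : ℝ) ≤ e ^ (2 / n : ℝ) := Real.rpow_le_rpow (hE0 j) (hE j) hβ0.le
    have e6 : V (j + 1) ^ α ≤ (Real.exp (-(2 * n)) * V j) ^ α := by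
      calc V (j + 1) ^ α ≤ C * (E j ^ (2 / n : ℝ) * V j ^ α +
            (1 / (1 / 2) ^ (j + 1)) ^ 2 * V j) := hst j
        _ ≤ C * (e ^ (2 / n : ℝ) * V j ^ α + 4 * v₀ ^ (2 / n : ℝ) * V j ^ α) :=
            mul_le_mul_of_nonneg_left
              (add_le_add (mul_le_mul_of_nonneg_right e5 hvα) e4) (by linarith)
        _ = (C * e ^ (2 / n : ℝ) + 4 * C * v₀ ^ (2 / n : ℝ)) * V j ^ α := by ring
        _ ≤ (Real.exp (-(2 * ((n : ℝ) - 2))) / 2 + Real.exp (-(2 * ((n : ℝ) - 2))) / 2) *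
            V j ^ α := mul_le_mul_of_nonneg_right (add_le_add h1 h2) hvα
        _ = Real.exp (-(2 * (n : ℝ))) ^ α * V j ^ α := by
            rw [hqα]
            ring
        _ = _ := (Real.mul_rpow hq.le (hV j)).symm
    have e7 : V (j + 1) ≤ Real.exp (-(2 * n)) * V j :=
      (Real.rpow_le_rpow_iff (hV _) (mul_nonneg hq.le (hV j)) hα0).mp e6
    calc V (j + 1) ≤ Real.exp (-(2 * n)) * V j := e7
      _ ≤ Real.exp (-(2 * n)) * (v₀ * Real.exp (-(2 * n)) ^ j) :=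
          mul_le_mul_of_nonneg_left ih hq.le
      _ = _ := by
          rw [pow_succ]
          ring

private theorem meas_lv (hu : ContDiff ℝ ∞ u) (k : ℝ) : MeasurableSet {p | k ≤ u p} :=
  (isClosed_Ici.preimage hu.continuous).measurableSet

/-- Chebyshev -/
private theorem cheb (h : Flat n u) {p : Fin n → ℝ} (hp : p ∈ Bc n 4) (h0 : u p ≤ 0) {k : ℝ}
    (hk : 0 ≤ k) : volume.real (B n 3 ∩ {p | k ≤ u p}) ≤ 18 ^ n * Real.exp (-(k / 2)) := by
  have hn : (3 : ℝ) ≤ n := by exact_mod_cast h.hn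
  set c : ℝ := ((n : ℝ) - 2) / 2 with hc
  have hc2 : 1 / 2 ≤ c := by
    rw [hc]
    linarith
  have hcont : Continuous fun q => Real.exp (c * u q) := cont_exp h.smooth c
  have hmv : ∫ q in B n 5, Real.exp (c * u q) ≤ 18 ^ n := by
    have := mv_B h (r := 4) (R := 5) (by norm_num) (by norm_num) hp h0
    rw [← hc] at this
    refine this.trans (le_of_eq ?_)
    norm_num
  have hint5 : IntegrableOn (fun q => Real.exp (c * u q)) (B n 5) :=
    (hcont.continuousOn.integrableOn_compact (isCompact_Bc 5)).mono_set (B_subset_Bc 5)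
  have hsub : B n 3 ∩ {p | k ≤ u p} ⊆ B n 5 :=
    Set.inter_subset_left.trans (B_mono (by norm_num) (by norm_num))
  have hm : MeasurableSet (B n 3 ∩ {p | k ≤ u p}) :=
    (measurableSet_B 3).inter (meas_lv h.smooth k)
  have hfin : volume (B n 3 ∩ {p | k ≤ u p}) ≠ ⊤ :=
    ne_top_of_le_ne_top (volume_B_lt_top 3).ne (measure_mono Set.inter_subset_left)
  have h1 : Real.exp (c * k) * volume.real (B n 3 ∩ {p | k ≤ u p}) ≤
      ∫ q in B n 3 ∩ {p | k ≤ u p}, Real.exp (c * u q) := by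
    refine setIntegral_ge_of_const_le_real hm hfin ?_ (hint5.mono_set hsub)
    intro q hq
    have hq2 : k ≤ u q := hq.2
    exact Real.exp_le_exp.2 (mul_le_mul_of_nonneg_left hq2 (by linarith))
  have h2 : ∫ q in B n 3 ∩ {p | k ≤ u p}, Real.exp (c * u q) ≤
      ∫ q in B n 5, Real.exp (c * u q) := by
    refine setIntegral_mono_set hint5 ?_ (Eventually.of_forall hsub)
    exact Eventually.of_forall fun q => (Real.exp_pos _).le
  have h3 : Real.exp (k / 2) ≤ Real.exp (c * k) := by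
    refine Real.exp_le_exp.2 ?_
    calc k / 2 = 1 / 2 * k := by ring
      _ ≤ c * k := mul_le_mul_of_nonneg_right hc2 hk
  have h4 : Real.exp (k / 2) * volume.real (B n 3 ∩ {p | k ≤ u p}) ≤ 18 ^ n :=
    (mul_le_mul_of_nonneg_right h3 measureReal_nonneg).trans (h1.trans (h2.trans hmv))
  have h5 : Real.exp (-(k / 2)) * Real.exp (k / 2) = 1 := by
    rw [← Real.exp_add]
    simp
  calc volume.real (B n 3 ∩ {p | k ≤ u p})
      = Real.exp (-(k / 2)) * Real.exp (k / 2) * volume.real (B n 3 ∩ {p | k ≤ u p}) := by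
        rw [h5, one_mul]
    _ = Real.exp (-(k / 2)) * (Real.exp (k / 2) * volume.real (B n 3 ∩ {p | k ≤ u p})) := by
        ring
    _ ≤ Real.exp (-(k / 2)) * 18 ^ n := mul_le_mul_of_nonneg_left h4 (Real.exp_pos _).le
    _ = _ := mul_comm _ _

theorem exists_decayM (n : ℕ) (hn : 3 ≤ n) : ∃ ε k₀ : ℝ, 0 < ε ∧ 0 ≤ k₀ ∧
    ∀ {u : (Fin n → ℝ) → ℝ}, Flat n u → (∃ p ∈ Bc n 4, u p ≤ 0) → mu u (ph n) ≤ ε →
      ∀ j : ℕ, volume.real (B n 2 ∩ {p | k₀ + j ≤ u p}) ≤ Real.exp (-(2 * n * j)) ∧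
        ∫ p in B n 3 ∩ {p | k₀ + j ≤ u p ∧ u p ≤ k₀ + j + 1}, gr u p ^ n ≤ 1 := by
  obtain ⟨C₁, hC₁, hlay⟩ := exists_layerM n
  obtain ⟨C₂, hC₂, hstp⟩ := exists_stepM n hn
  have hn3 : (3 : ℝ) ≤ n := by exact_mod_cast hn
  have hC₁0 : 0 < C₁ := by linarith
  have hC₂0 : 0 < C₂ := by linarith
  set κ : ℝ := Real.exp (-(2 * ((n : ℝ) - 2))) with hκ
  have hκ0 : 0 < κ := Real.exp_pos _
  have hκ1 : κ ≤ 1 := Real.exp_le_one_iff.mpr (by linarith)
  -- the constants `e` and `v₀`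
  set s : ℝ := κ / (2 * C₂) with hs
  have hs0 : 0 < s := by positivity
  have hs1 : s ≤ 1 := by
    rw [hs, div_le_one (by positivity)]
    linarith
  set t : ℝ := κ / (8 * C₂) with ht
  have ht0 : 0 < t := by positivity
  have ht1 : t ≤ 1 := by
    rw [ht, div_le_one (by positivity)]
    linarith
  set e : ℝ := s ^ n with he
  set v₀ : ℝ := t ^ n with hv
  have he0 : 0 < e := pow_pos hs0 n
  have he1 : e ≤ 1 := pow_le_one₀ hs0.le hs1
  have hv0 : 0 < v₀ := pow_pos ht0 n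
  have hv1 : v₀ ≤ 1 := pow_le_one₀ ht0.le ht1
  have c1 : C₂ * e ^ (2 / n : ℝ) ≤ κ / 2 := by
    rw [he, pow_two_div hn hs0]
    calc C₂ * s ^ 2 ≤ C₂ * s := mul_le_mul_of_nonneg_left (by nlinarith) hC₂0.le
      _ = κ / 2 := by
        rw [hs]
        field_simp
  have c2 : 4 * C₂ * v₀ ^ (2 / n : ℝ) ≤ κ / 2 := by
    rw [hv, pow_two_div hn ht0]
    calc 4 * C₂ * t ^ 2 ≤ 4 * C₂ * t := mul_le_mul_of_nonneg_left (by nlinarith) (by positivity)
      _ = κ / 2 := by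
        rw [ht]
        field_simp
        ring
  -- the level `k₀`
  set a : ℝ := Real.log (2 * C₁ / e) with ha
  set b : ℝ := Real.log (18 ^ n / v₀) with hb
  have ha0 : 0 ≤ a := by
    refine Real.log_nonneg ?_
    rw [le_div_iff₀ he0]
    linarith
  have h18 : (1 : ℝ) ≤ 18 ^ n := one_le_pow₀ (by norm_num)
  have hb0 : 0 ≤ b := by
    refine Real.log_nonneg ?_
    rw [le_div_iff₀ hv0]
    linarith
  set k₀ : ℝ := 4 * a + 2 * b with hk₀
  have hk0 : 0 ≤ k₀ := by positivity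
  have d1 : C₁ * Real.exp (-(k₀ / 4)) ≤ e / 2 := by
    have a1 : Real.exp (-(k₀ / 4)) ≤ Real.exp (-a) := by
      refine Real.exp_le_exp.2 ?_
      rw [hk₀]
      linarith
    have a2 : Real.exp (-a) = e / (2 * C₁) := by
      rw [Real.exp_neg, ha, Real.exp_log (by positivity), inv_div]
    rw [a2] at a1
    calc C₁ * Real.exp (-(k₀ / 4)) ≤ C₁ * (e / (2 * C₁)) :=
          mul_le_mul_of_nonneg_left a1 hC₁0.le
      _ = e / 2 := by field_simp
  have d2 : 18 ^ n * Real.exp (-(k₀ / 2)) ≤ v₀ := by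
    have a1 : Real.exp (-(k₀ / 2)) ≤ Real.exp (-b) := by
      refine Real.exp_le_exp.2 ?_
      rw [hk₀]
      linarith
    have a2 : Real.exp (-b) = v₀ / 18 ^ n := by
      rw [Real.exp_neg, hb, Real.exp_log (by positivity), inv_div]
    rw [a2] at a1
    calc 18 ^ n * Real.exp (-(k₀ / 2)) ≤ 18 ^ n * (v₀ / 18 ^ n) :=
          mul_le_mul_of_nonneg_left a1 (by positivity)
      _ = v₀ := by field_simp
  refine ⟨e / (2 * C₁), k₀, by positivity, hk0, ?_⟩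
  intro u hu hex hmu
  -- the layer energies
  have hE : ∀ j : ℕ, ∫ p in B n 3 ∩ {p | k₀ + j ≤ u p ∧ u p ≤ k₀ + j + 1}, gr u p ^ n ≤ e := by
    intro j
    have a1 := hlay hu hex (k₀ + j)
    have a2 : Real.exp (-((k₀ + j) / 4)) ≤ Real.exp (-(k₀ / 4)) := by
      refine Real.exp_le_exp.2 ?_
      have : (0 : ℝ) ≤ j := Nat.cast_nonneg j
      linarith
    calc _ ≤ C₁ * (mu u (ph n) + Real.exp (-((k₀ + j) / 4))) := a1
      _ ≤ C₁ * (e / (2 * C₁) + Real.exp (-(k₀ / 4))) :=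
          mul_le_mul_of_nonneg_left (add_le_add hmu a2) hC₁0.le
      _ = e / 2 + C₁ * Real.exp (-(k₀ / 4)) := by field_simp
      _ ≤ e / 2 + e / 2 := by linarith
      _ = e := by ring
  have hpow0 : ∀ j : ℕ, (0 : ℝ) < (1 / 2) ^ j := fun j => by positivity
  have hpow1 : ∀ j : ℕ, ((1 : ℝ) / 2) ^ j ≤ 1 := fun j => pow_le_one₀ (by norm_num) (by norm_num)
  set r : ℕ → ℝ := fun j => 2 + (1 / 2) ^ j with hr
  have hr0 : r 0 = 3 := by
    simp only [hr, pow_zero]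
    norm_num
  have hrs : ∀ j, r j - r (j + 1) = (1 / 2) ^ (j + 1) := fun j => by
    simp only [hr, pow_succ]
    ring
  have hr1 : ∀ j, 2 ≤ r j := fun j => by
    simp only [hr]
    linarith [hpow0 j]
  have hr2 : ∀ j, r j ≤ 3 := fun j => by
    simp only [hr]
    linarith [hpow1 j]
  obtain ⟨p, hp, hp0⟩ := hex
  have claim := iter hn hC₂ he0 hv0 c1 c2
    (fun j => volume.real (B n (r j) ∩ {p | k₀ + j ≤ u p}))
    (fun j => ∫ p in B n 3 ∩ {p | k₀ + j ≤ u p ∧ u p ≤ k₀ + j + 1}, gr u p ^ n)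
    (fun j => measureReal_nonneg)
    (fun j => integral_nonneg fun q => pow_nonneg (gr_nonneg u q) n) hE
    (by
      show volume.real (B n (r 0) ∩ {p | k₀ + ((0 : ℕ) : ℝ) ≤ u p}) ≤ v₀
      rw [hr0, Nat.cast_zero, add_zero]
      exact (cheb hu hp hp0 hk0).trans d2)
    (by
      intro j
      have st := hstp hu.smooth (r (j + 1)) (r j) (k₀ + j) (by linarith [hr1 (j + 1)])
        (by have := hrs j; have := hpow0 (j + 1); linarith) (hr2 j)
      rw [hrs j] at st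
      have e1 : k₀ + (j : ℝ) + 1 = k₀ + ((j + 1 : ℕ) : ℝ) := by
        push_cast
        ring
      show volume.real (B n (r (j + 1)) ∩ {p | k₀ + ((j + 1 : ℕ) : ℝ) ≤ u p}) ^
        ((n - 2) / n : ℝ) ≤ _
      rw [← e1]
      exact st)
  intro j
  refine ⟨?_, (hE j).trans he1⟩
  have f1 : volume.real (B n 2 ∩ {p | k₀ + j ≤ u p}) ≤
      volume.real (B n (r j) ∩ {p | k₀ + j ≤ u p}) :=
    measureReal_mono (Set.inter_subset_inter_left _ (B_mono (by norm_num) (hr1 j)))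
      (ne_top_of_le_ne_top (volume_B_lt_top (r j)).ne (measure_mono Set.inter_subset_left))
  have f2 : Real.exp (-(2 * (n : ℝ))) ^ j = Real.exp (-(2 * n * j)) := by
    rw [← Real.exp_nat_mul]
    congr 1
    ring
  calc volume.real (B n 2 ∩ {p | k₀ + j ≤ u p})
      ≤ volume.real (B n (r j) ∩ {p | k₀ + j ≤ u p}) := f1
    _ ≤ v₀ * Real.exp (-(2 * n)) ^ j := claim j
    _ ≤ 1 * Real.exp (-(2 * n)) ^ j := mul_le_mul_of_nonneg_right hv1 (by positivity)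
    _ = Real.exp (-(2 * n * j)) := by rw [one_mul, f2]

end

end Pool.Agent.Helper50.YF
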