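import Pool.Agent.Helper50.CE.LayerE
import Pool.Agent.Helper50.CP.Dist
import Pool.Agent.Helper50.CF.ScaleA

/-!
# Complete conformally flat metrics on `ℝⁿ` with `Ric ≥ 0`: definitions

`g = e^{2u}|dx|²` on `ℝⁿ`, complete, `Ric_g ≥ 0`.  Goal (`YF/Main.lean`): `∫_{B_r(x)} Scal dv ≤
C(n) r^{n-2}` for all geodesic balls, no other hypothesis.  `mu u ψ` is the mass of the measure
`-Δ_n u` tested with `ψ`, `ms u z r` the mass of the ball `eball z (4r)` (cutoff `phs z r`, which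
is `1` on `ecball z (3r)`), `mn u a r` the minimum of `u` on `ecball a r`,
`dd u a r = r e^{mn u a r}`, `Psi u b s = ∫₀ˢ e^{mn u b t} dt`.
-/

namespace Pool.Agent.Helper50.YF

open scoped ContDiff Topology NNReal
open Pool.Agent.Helper49.Ric Pool.Agent.Helper73.HB Pool.Agent.Helper50.CF
  Pool.Agent.Helper50.CE MeasureTheory Filter

noncomputable section

variable {n : ℕ}

/-- the mass of `-Δ_n u` tested with `ψ`: `∫ |∇u|^{n-2} ∇u·∇ψ` -/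
def mu (u ψ : (Fin n → ℝ) → ℝ) : ℝ := ∫ p, gr u p ^ (n - 2) * ∑ i, pd i ψ p * pd i u p

/-- the minimum of `u` on the closed Euclidean ball -/
def mn (u : (Fin n → ℝ) → ℝ) (a : Fin n → ℝ) (r : ℝ) : ℝ := sInf (u '' ecball a r)

/-- the scalar curvature density: `sc u dx = Scal dv` for `e^{2u}|dx|²` -/
def sc (u : (Fin n → ℝ) → ℝ) (p : Fin n → ℝ) : ℝ :=
  (-(2 * ((n : ℝ) - 1)) * lp u p - ((n : ℝ) - 1) * ((n : ℝ) - 2) * gs u p)
    * Real.exp ((n - 2) * u p)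

/-- `D_a(r) = r e^{m_a(r)}` -/
def dd (u : (Fin n → ℝ) → ℝ) (a : Fin n → ℝ) (r : ℝ) : ℝ := r * Real.exp (mn u a r)

/-- `Ψ_b(s) = ∫₀ˢ e^{m_b(t)} dt` -/
def Psi (u : (Fin n → ℝ) → ℝ) (b : Fin n → ℝ) (s : ℝ) : ℝ :=
  ∫ t in (0 : ℝ)..s, Real.exp (mn u b t)

/-- completeness: all geodesic balls are relatively compact -/
def Cpl (u : (Fin n → ℝ) → ℝ) : Prop :=
  ∀ (x : Fin n → ℝ) (r : ℝ), ∃ K : Set (Fin n → ℝ), IsCompact K ∧ GB u x r ⊆ K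

/-- `D_a` is nondecreasing for every `a` -/
def Mon (u : (Fin n → ℝ) → ℝ) : Prop :=
  ∀ (a : Fin n → ℝ) (r s : ℝ), 0 < r → r ≤ s → dd u a r ≤ dd u a s

/-- the gradient constant of the standard cutoff -/
def cph : ℝ := Classical.choose CF.exists_cutoff

theorem cph_one : 1 ≤ cph := (Classical.choose_spec CF.exists_cutoff).1

theorem cph_spec (n : ℕ) (r R : ℝ) (h : 0 < r) (h' : r < R) :
    ∃ φ : (Fin n → ℝ) → ℝ, ContDiff ℝ ∞ φ ∧ HasCompactSupport φ ∧ tsupport φ ⊆ B n R ∧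
      (∀ p, 0 ≤ φ p) ∧ (∀ p, φ p ≤ 1) ∧ (∀ p ∈ Bc n r, φ p = 1) ∧
      ∀ p, gr φ p ≤ cph / (R - r) :=
  (Classical.choose_spec CF.exists_cutoff).2 n r R h h'

/-- the standard cutoff: `1` on `Bc n 3`, support in `B n 4` -/
def ph (n : ℕ) : (Fin n → ℝ) → ℝ :=
  Classical.choose (cph_spec n 3 4 (by norm_num) (by norm_num))

theorem ph_all (n : ℕ) : ContDiff ℝ ∞ (ph n) ∧ HasCompactSupport (ph n) ∧
    tsupport (ph n) ⊆ B n 4 ∧ (∀ p, 0 ≤ ph n p) ∧ (∀ p, ph n p ≤ 1) ∧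
    (∀ p ∈ Bc n 3, ph n p = 1) ∧ ∀ p, gr (ph n) p ≤ cph / (4 - 3) :=
  Classical.choose_spec (cph_spec n 3 4 (by norm_num) (by norm_num))

theorem ph_smooth (n : ℕ) : ContDiff ℝ ∞ (ph n) := (ph_all n).1
theorem ph_cpt (n : ℕ) : HasCompactSupport (ph n) := (ph_all n).2.1
theorem ph_supp (n : ℕ) : tsupport (ph n) ⊆ B n 4 := (ph_all n).2.2.1
theorem ph_nonneg (n : ℕ) (p : Fin n → ℝ) : 0 ≤ ph n p := (ph_all n).2.2.2.1 p
theorem ph_le_one (n : ℕ) (p : Fin n → ℝ) : ph n p ≤ 1 := (ph_all n).2.2.2.2.1 p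
theorem ph_one {p : Fin n → ℝ} (hp : p ∈ Bc n 3) : ph n p = 1 := (ph_all n).2.2.2.2.2.1 p hp
theorem ph_grad (n : ℕ) (p : Fin n → ℝ) : gr (ph n) p ≤ cph := by
  have := (ph_all n).2.2.2.2.2.2 p
  norm_num at this
  exact this

/-- the cutoff at the point `z` and the scale `r` -/
def phs (z : Fin n → ℝ) (r : ℝ) (p : Fin n → ℝ) : ℝ := ph n (r⁻¹ • (p - z))

/-- the mass of the ball `eball z (4r)` -/
def ms (u : (Fin n → ℝ) → ℝ) (z : Fin n → ℝ) (r : ℝ) : ℝ := mu u (phs z r)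

/-- the rescaled function `x ↦ u(z + r x) + c` -/
def re (u : (Fin n → ℝ) → ℝ) (z : Fin n → ℝ) (r c : ℝ) (x : Fin n → ℝ) : ℝ :=
  u (z + r • x) + c

/-- the mass at `z` at the scale `2^j` is small and `D_z` is at most `ρ` there -/
def good (u : (Fin n → ℝ) → ℝ) (ε ρ : ℝ) (z : Fin n → ℝ) (j : ℤ) : Prop :=
  ms u z (5 * n * 2 ^ j) ≤ ε ∧ dd u z (20 * n * 2 ^ j) ≤ ρ

theorem phs_smooth (z : Fin n → ℝ) (r : ℝ) : ContDiff ℝ ∞ (phs z r) := by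
  have h1 : ContDiff ℝ ∞ (fun p : Fin n → ℝ => r⁻¹ • (p - z)) := by fun_prop
  exact (ph_smooth n).comp h1

theorem phs_nonneg (z : Fin n → ℝ) (r : ℝ) (p : Fin n → ℝ) : 0 ≤ phs z r p := ph_nonneg n _

theorem phs_le_one (z : Fin n → ℝ) (r : ℝ) (p : Fin n → ℝ) : phs z r p ≤ 1 := ph_le_one n _

theorem sum_sq_smul (z p : Fin n → ℝ) (r : ℝ) :
    ∑ i, ((r⁻¹ • (p - z)) i) ^ 2 = (r⁻¹) ^ 2 * ∑ i, (p i - z i) ^ 2 := by
  rw [Finset.mul_sum]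
  refine Finset.sum_congr rfl fun i _ => ?_
  simp only [Pi.smul_apply, Pi.sub_apply, smul_eq_mul]
  ring

theorem phs_one {z p : Fin n → ℝ} {r : ℝ} (hr : 0 < r) (hp : p ∈ ecball z (3 * r)) :
    phs z r p = 1 := by
  refine ph_one ?_
  have h1 : ∑ i, (p i - z i) ^ 2 ≤ (3 * r) ^ 2 := hp
  show ∑ i, ((r⁻¹ • (p - z)) i) ^ 2 ≤ 3 ^ 2
  rw [sum_sq_smul]
  calc (r⁻¹) ^ 2 * ∑ i, (p i - z i) ^ 2 ≤ (r⁻¹) ^ 2 * (3 * r) ^ 2 :=
        mul_le_mul_of_nonneg_left h1 (by positivity)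
    _ = 3 ^ 2 := by field_simp

theorem phs_supp {z : Fin n → ℝ} {r : ℝ} (hr : 0 < r) : tsupport (phs z r) ⊆ eball z (4 * r) := by
  have h1 : tsupport (phs z r) ⊆ (fun p => r⁻¹ • (p - z)) ⁻¹' tsupport (ph n) :=
    tsupport_comp_subset_preimage (ph n) (by fun_prop)
  intro p hp
  have h2 : r⁻¹ • (p - z) ∈ B n 4 := ph_supp n (h1 hp)
  have h3 : ∑ i, ((r⁻¹ • (p - z)) i) ^ 2 < 4 ^ 2 := h2
  rw [sum_sq_smul] at h3
  show ∑ i, (p i - z i) ^ 2 < (4 * r) ^ 2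
  have h4 : r ^ 2 * ((r⁻¹) ^ 2 * ∑ i, (p i - z i) ^ 2) < r ^ 2 * 4 ^ 2 :=
    mul_lt_mul_of_pos_left h3 (by positivity)
  have h5 : r ^ 2 * ((r⁻¹) ^ 2 * ∑ i, (p i - z i) ^ 2) = ∑ i, (p i - z i) ^ 2 := by
    field_simp
  rw [h5] at h4
  linarith [h4, show r ^ 2 * 4 ^ 2 = (4 * r) ^ 2 by ring]

theorem phs_cpt (z : Fin n → ℝ) {r : ℝ} (hr : 0 < r) : HasCompactSupport (phs z r) :=
  (CP.isCompact_ecball' z (4 * r)).of_isClosed_subset (isClosed_tsupport _)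
    ((phs_supp hr).trans (CP.eball_subset_ecball' z (4 * r)))

/-- derivative of an affine rescaling -/
theorem pd_affine (F : (Fin n → ℝ) → ℝ) (z : Fin n → ℝ) (r : ℝ) (i : Fin n) (p : Fin n → ℝ) :
    pd i (fun q => F (r⁻¹ • (q - z))) p = r⁻¹ * pd i F (r⁻¹ • (p - z)) := by
  have h := CF.pd_dil F (-(r⁻¹ • z)) r⁻¹ 1 0 i p
  have h2 : ∀ q : Fin n → ℝ, -(r⁻¹ • z) + r⁻¹ • q = r⁻¹ • (q - z) := fun q => by
    rw [smul_sub]; abel
  simp only [h2, one_mul, add_zero] at h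
  exact h

theorem phs_grad (z : Fin n → ℝ) {r : ℝ} (hr : 0 < r) (p : Fin n → ℝ) :
    gr (phs z r) p ≤ cph / r := by
  have h1 : gs (phs z r) p = (r⁻¹) ^ 2 * gs (ph n) (r⁻¹ • (p - z)) := by
    unfold gs
    rw [Finset.mul_sum]
    refine Finset.sum_congr rfl fun i _ => ?_
    have := pd_affine (ph n) z r i p
    show pd i (fun q => ph n (r⁻¹ • (q - z))) p ^ 2 = _
    rw [this]; ring
  have h2 : gr (phs z r) p = r⁻¹ * gr (ph n) (r⁻¹ • (p - z)) := by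
    unfold gr
    rw [h1, Real.sqrt_mul (by positivity), Real.sqrt_sq (by positivity)]
  rw [h2, div_eq_inv_mul]
  exact mul_le_mul_of_nonneg_left (ph_grad n _) (by positivity)

/-- `Flat` gives `sc ≥ 0` -/
theorem sc_nonneg {u : (Fin n → ℝ) → ℝ} (h : Flat n u) (p : Fin n → ℝ) : 0 ≤ sc u p := by
  have h1 := h.P1 p
  have hn : (3 : ℝ) ≤ n := by exact_mod_cast h.hn
  refine mul_nonneg ?_ (Real.exp_pos _).le
  have h2 := mul_le_mul_of_nonneg_left h1 (show (0 : ℝ) ≤ 2 * ((n : ℝ) - 1) by linarith)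
  nlinarith [h2]

/-- second derivatives are continuous -/
theorem cont_pd {u : (Fin n → ℝ) → ℝ} (hu : ContDiff ℝ ∞ u) (i : Fin n) : Continuous (pd i u) :=
  continuous_iff_continuousAt.2 fun _ => (smooth_pd hu.contDiffAt i).continuousAt

theorem cont_pd_pd {u : (Fin n → ℝ) → ℝ} (hu : ContDiff ℝ ∞ u) (i j : Fin n) :
    Continuous (pd i (pd j u)) :=
  continuous_iff_continuousAt.2 fun _ =>
    (smooth_pd (smooth_pd hu.contDiffAt j) i).continuousAt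

theorem cont_sc {u : (Fin n → ℝ) → ℝ} (hu : ContDiff ℝ ∞ u) : Continuous (sc u) := by
  have h1 : Continuous (CF.lp u) := by
    unfold CF.lp
    exact continuous_finset_sum _ fun i _ => cont_pd_pd hu i i
  have h2 := cont_gs hu
  have h3 := hu.continuous
  unfold sc
  fun_prop

end

end Pool.Agent.Helper50.YF
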