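import Pool.Agent.Helper50.YF.Defs

/-!
# YF-14: the energy `∫ |∇u|² e^{(n-2)u}` by summation over layers

PROOF. Put `F = (|∇u|² + 1) e^{(n-2)u}`. On `{u < k₀}`: `gs ≤ 1 + gr^(n-1)` and `CE.exists_stepE`
(`ρ = 2`). On the layer `L_j = B n 2 ∩ {k₀+j ≤ u ≤ k₀+j+1}`: `gs ≤ e^{4j} + e^{-2(n-2)j} gr^n`
(cases `gr ≤ e^{2j}` or not), so `∫_{L_j} F ≤ 3 e^{(n-2)(k₀+1)} e^{-j}`. Induction on `J` for the sets
`B n 2 ∩ {u < k₀ + J}`; `u < k₀ + J` on `B n 2` for large `J`.
-/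

namespace Pool.Agent.Helper50.YF

open scoped ContDiff Topology NNReal
open Pool.Agent.Helper49.Ric Pool.Agent.Helper73.HB Pool.Agent.Helper50.CF
  Pool.Agent.Helper50.CE MeasureTheory Filter

noncomputable section

variable {n : ℕ} {u : (Fin n → ℝ) → ℝ}

private theorem intM {f : (Fin n → ℝ) → ℝ} (hf : Continuous f) {A : Set (Fin n → ℝ)} {r : ℝ}
    (hA : A ⊆ B n r) : IntegrableOn f A :=
  int_on hf (isCompact_Bc r) (hA.trans (B_subset_Bc r))

private theorem union_leM {F : (Fin n → ℝ) → ℝ} (hF : Continuous F)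
    (h0 : ∀ p, 0 ≤ F p) {X Y : Set (Fin n → ℝ)} (hX : X ⊆ B n 2) (hY : Y ⊆ B n 2)
    (mX : MeasurableSet X) (mY : MeasurableSet Y) :
    ∫ p in X ∪ Y, F p ≤ (∫ p in X, F p) + ∫ p in Y, F p := by
  have e : X ∪ Y = X ∪ (Y \ X) := Set.union_sdiff_self.symm
  rw [e, setIntegral_union Set.disjoint_sdiff_right (mY.diff mX) (intM hF hX)
    (intM hF (Set.sdiff_subset.trans hY))]
  have h1 : ∫ p in Y \ X, F p ≤ ∫ p in Y, F p :=
    setIntegral_mono_set (intM hF hY) (Eventually.of_forall h0)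
      (Eventually.of_forall Set.sdiff_subset)
  linarith

/-- Young for the layers -/
private theorem youngM {x s : ℝ} (hx : 0 ≤ x) (hs : 0 < s) (k : ℕ) :
    x ^ 2 ≤ s ^ 2 + (s⁻¹) ^ k * x ^ (k + 2) := by
  rcases le_total x s with h | h
  · have h1 : x ^ 2 ≤ s ^ 2 := pow_le_pow_left₀ hx h 2
    have h2 : 0 ≤ (s⁻¹) ^ k * x ^ (k + 2) := by positivity
    linarith
  · have h1 : (s⁻¹) ^ k * x ^ (k + 2) = (s⁻¹ * x) ^ k * x ^ 2 := by
      rw [mul_pow, pow_add]; ring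
    have h2 : 1 ≤ s⁻¹ * x := by
      rw [← div_eq_inv_mul, le_div_iff₀ hs]; linarith
    have h3 : 1 ≤ (s⁻¹ * x) ^ k := one_le_pow₀ h2
    have h4 : 0 ≤ x ^ 2 := by positivity
    have h5 : 0 ≤ s ^ 2 := by positivity
    rw [h1]
    nlinarith

private theorem sq_le_M {x : ℝ} (hx : 0 ≤ x) (k : ℕ) : x ^ 2 ≤ 1 + x ^ (k + 2) := by
  have := youngM hx one_pos k
  simpa using this

private theorem layerM {k : ℕ} {u : (Fin (k + 3) → ℝ) → ℝ} (h : Flat (k + 3) u) (k₀ : ℝ) (j : ℕ)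
    (hv : volume.real (B (k + 3) 2 ∩ {p | k₀ + j ≤ u p}) ≤ Real.exp (-(2 * ((k + 3 : ℕ) : ℝ) * j)))
    (hi : ∫ p in B (k + 3) 3 ∩ {p | k₀ + j ≤ u p ∧ u p ≤ k₀ + j + 1}, gr u p ^ (k + 3) ≤ 1) :
    ∫ p in B (k + 3) 2 ∩ {p | k₀ + j ≤ u p ∧ u p ≤ k₀ + j + 1},
      (gs u p + 1) * Real.exp (((k : ℝ) + 1) * u p) ≤
        3 * Real.exp (((k : ℝ) + 1) * (k₀ + 1)) * Real.exp (-1) ^ j := by
  have hu := h.smooth
  have hcu := hu.continuous
  have hgr := cont_gr hu
  have hgs := cont_gs hu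
  set L : Set (Fin (k + 3) → ℝ) := B (k + 3) 2 ∩ {p | k₀ + j ≤ u p ∧ u p ≤ k₀ + j + 1} with hL
  have h23 : B (k + 3) 2 ⊆ B (k + 3) 3 := fun p hp => by
    have h1 : ∑ i, p i ^ 2 < 2 ^ 2 := hp
    show ∑ i, p i ^ 2 < 3 ^ 2
    linarith
  have hL2 : L ⊆ B (k + 3) 2 := Set.inter_subset_left
  have mL : MeasurableSet L := (measurableSet_B 2).inter
    (((isClosed_le continuous_const hcu).inter (isClosed_le hcu continuous_const)).measurableSet)
  set E : ℝ := Real.exp (((k : ℝ) + 1) * (k₀ + j + 1)) with hE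
  set s : ℝ := Real.exp (2 * (j : ℝ)) with hs
  have hs0 : 0 < s := Real.exp_pos _
  have hs1 : 1 ≤ s := Real.one_le_exp (by positivity)
  -- pointwise bound
  have hpt : ∀ p ∈ L, (gs u p + 1) * Real.exp (((k : ℝ) + 1) * u p) ≤
      E * (2 * s ^ 2 + (s⁻¹) ^ (k + 1) * gr u p ^ (k + 3)) := by
    intro p hp
    have h1 : Real.exp (((k : ℝ) + 1) * u p) ≤ E := by
      rw [hE]
      apply Real.exp_le_exp.mpr
      exact mul_le_mul_of_nonneg_left hp.2.2 (by positivity)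
    have h2 : gs u p ≤ s ^ 2 + (s⁻¹) ^ (k + 1) * gr u p ^ (k + 3) := by
      rw [← gr_sq]
      exact youngM (gr_nonneg u p) hs0 (k + 1)
    have h3 : (1 : ℝ) ≤ s ^ 2 := one_le_pow₀ hs1
    have h4 : 0 ≤ gs u p + 1 := by linarith [gs_nonneg u p]
    calc (gs u p + 1) * Real.exp (((k : ℝ) + 1) * u p) ≤ (gs u p + 1) * E :=
          mul_le_mul_of_nonneg_left h1 h4
      _ = E * (gs u p + 1) := mul_comm _ _
      _ ≤ _ := mul_le_mul_of_nonneg_left (by linarith) (Real.exp_pos _).le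
  have hI1 : IntegrableOn (fun p => gr u p ^ (k + 3)) L := intM (hgr.pow _) hL2
  have hc1 : Continuous (fun p => (gs u p + 1) * Real.exp (((k : ℝ) + 1) * u p)) := by fun_prop
  have hc2 : Continuous (fun p => E * (2 * s ^ 2 + (s⁻¹) ^ (k + 1) * gr u p ^ (k + 3))) := by
    fun_prop
  have a1 : ∫ p in L, (gs u p + 1) * Real.exp (((k : ℝ) + 1) * u p) ≤
      ∫ p in L, E * (2 * s ^ 2 + (s⁻¹) ^ (k + 1) * gr u p ^ (k + 3)) :=
    setIntegral_mono_on (intM hc1 hL2) (intM hc2 hL2) mL hpt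
  have a2 : ∫ p in L, E * (2 * s ^ 2 + (s⁻¹) ^ (k + 1) * gr u p ^ (k + 3)) =
      E * (volume.real L * (2 * s ^ 2) + (s⁻¹) ^ (k + 1) * ∫ p in L, gr u p ^ (k + 3)) := by
    have hIc : IntegrableOn (fun _ : Fin (k + 3) → ℝ => 2 * s ^ 2) L := intM continuous_const hL2
    rw [integral_const_mul, integral_add hIc (hI1.const_mul _), setIntegral_const, smul_eq_mul,
      integral_const_mul]
  have a3 : ∫ p in L, gr u p ^ (k + 3) ≤ 1 := by
    refine le_trans (setIntegral_mono_set (intM (hgr.pow _) (r := 3) Set.inter_subset_left)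
      (Eventually.of_forall fun p => pow_nonneg (gr_nonneg u p) _)
      (Eventually.of_forall (Set.inter_subset_inter_left _ h23))) hi
  have a4 : volume.real L ≤ Real.exp (-(2 * ((k + 3 : ℕ) : ℝ) * j)) := by
    refine le_trans (measureReal_mono ?_ ?_) hv
    · exact Set.inter_subset_inter_right _ fun p hp => hp.1
    · exact ((measure_mono (Set.inter_subset_left.trans (B_subset_Bc 2))).trans_lt
        (isCompact_Bc 2).measure_lt_top).ne
  have a5 : volume.real L * (2 * s ^ 2) ≤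
      Real.exp (-(2 * ((k + 3 : ℕ) : ℝ) * j)) * (2 * s ^ 2) :=
    mul_le_mul_of_nonneg_right a4 (by positivity)
  have a6 : (s⁻¹) ^ (k + 1) * ∫ p in L, gr u p ^ (k + 3) ≤ (s⁻¹) ^ (k + 1) * 1 :=
    mul_le_mul_of_nonneg_left a3 (by positivity)
  have e1 : s ^ 2 = Real.exp (4 * j) := by
    rw [hs, ← Real.exp_nat_mul]; congr 1; push_cast; ring
  have e2 : (s⁻¹) ^ (k + 1) = Real.exp (-(2 * ((k : ℝ) + 1) * j)) := by
    rw [hs, ← Real.exp_neg, ← Real.exp_nat_mul]; congr 1; push_cast; ring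
  have e3 : Real.exp (-(2 * ((k + 3 : ℕ) : ℝ) * j)) * (2 * s ^ 2) =
      2 * Real.exp (-(2 * ((k : ℝ) + 1) * j)) := by
    rw [e1, mul_left_comm, ← Real.exp_add]; congr 2; push_cast; ring
  have e4 : E * (3 * Real.exp (-(2 * ((k : ℝ) + 1) * j))) =
      3 * Real.exp (((k : ℝ) + 1) * (k₀ + 1)) * Real.exp (-(((k : ℝ) + 1) * j)) := by
    rw [hE, mul_left_comm, ← Real.exp_add, mul_assoc (3 : ℝ), ← Real.exp_add]; congr 2; ring
  have e5 : Real.exp (-(((k : ℝ) + 1) * j)) ≤ Real.exp (-1) ^ j := by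
    rw [← Real.exp_nat_mul]
    apply Real.exp_le_exp.mpr
    have : (0 : ℝ) ≤ k * j := by positivity
    nlinarith
  calc ∫ p in L, (gs u p + 1) * Real.exp (((k : ℝ) + 1) * u p)
      ≤ E * (volume.real L * (2 * s ^ 2) + (s⁻¹) ^ (k + 1) * ∫ p in L, gr u p ^ (k + 3)) :=
        a1.trans a2.le
    _ ≤ E * (3 * Real.exp (-(2 * ((k : ℝ) + 1) * j))) := by
        refine mul_le_mul_of_nonneg_left ?_ (Real.exp_pos _).le
        rw [e3] at a5
        rw [e2] at a6 ⊢
        linarith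
    _ = _ := e4
    _ ≤ _ := mul_le_mul_of_nonneg_left e5 (by positivity)

theorem exists_energyM (n : ℕ) (k₀ : ℝ) : ∃ C : ℝ, 1 ≤ C ∧
    ∀ {u : (Fin n → ℝ) → ℝ}, Flat n u →
      (∀ j : ℕ, volume.real (B n 2 ∩ {p | k₀ + j ≤ u p}) ≤ Real.exp (-(2 * n * j)) ∧
        ∫ p in B n 3 ∩ {p | k₀ + j ≤ u p ∧ u p ≤ k₀ + j + 1}, gr u p ^ n ≤ 1) →
      ∫ p in B n 2, gs u p * Real.exp ((n - 2) * u p) ≤ C ∧
        ∫ p in B n 2, Real.exp ((n - 2) * u p) ≤ C := by
  rcases Nat.lt_or_ge n 3 with hn | hn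
  · exact ⟨1, le_refl _, fun h => absurd h.hn (by omega)⟩
  obtain ⟨k, rfl⟩ : ∃ k, n = k + 3 := ⟨n - 3, by omega⟩
  obtain ⟨C1, hC1, hstep⟩ := exists_stepE (k + 3)
  have ek : (((k + 3 : ℕ) : ℝ) - 2) = (k : ℝ) + 1 := by push_cast; ring
  set q : ℝ := Real.exp (-1) with hq
  have hq0 : 0 < q := Real.exp_pos _
  have hq1 : q < 1 := by
    rw [hq, ← Real.exp_zero]
    exact Real.exp_lt_exp.mpr (by norm_num)
  set A : ℝ := Real.exp (((k : ℝ) + 1) * k₀) * (2 * volume.real (B (k + 3) 2) + C1 * 2) with hA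
  set D : ℝ := 3 * Real.exp (((k : ℝ) + 1) * (k₀ + 1)) with hD
  have hA0 : 0 ≤ A := by positivity
  have hD0 : 0 ≤ D := by positivity
  refine ⟨1 + A + D * (1 / (1 - q)), ?_, ?_⟩
  · have : 0 ≤ D * (1 / (1 - q)) := mul_nonneg hD0 (by
      apply div_nonneg <;> linarith)
    linarith
  intro u h hj
  rw [ek]
  have hu := h.smooth
  have hcu := hu.continuous
  have hgr := cont_gr hu
  have hgs := cont_gs hu
  have hcF : Continuous (fun p => (gs u p + 1) * Real.exp (((k : ℝ) + 1) * u p)) := by fun_prop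
  have hF0 : ∀ p, 0 ≤ (gs u p + 1) * Real.exp (((k : ℝ) + 1) * u p) := fun p =>
    mul_nonneg (by linarith [gs_nonneg u p]) (Real.exp_pos _).le
  have mB : MeasurableSet (B (k + 3) 2) := measurableSet_B 2
  have mlt : ∀ t : ℝ, MeasurableSet {p : Fin (k + 3) → ℝ | u p < t} := fun t =>
    (isOpen_lt hcu continuous_const).measurableSet
  have key : ∀ J : ℕ, ∫ p in B (k + 3) 2 ∩ {p | u p < k₀ + J},
      (gs u p + 1) * Real.exp (((k : ℝ) + 1) * u p) ≤ A + D * ∑ j ∈ Finset.range J, q ^ j := by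
    intro J
    induction J with
    | zero =>
      have hs0 : B (k + 3) 2 ∩ {p | u p < k₀ + ((0 : ℕ) : ℝ)} ⊆ B (k + 3) 2 :=
        Set.inter_subset_left
      have hpt : ∀ p ∈ B (k + 3) 2 ∩ {p | u p < k₀ + ((0 : ℕ) : ℝ)},
          (gs u p + 1) * Real.exp (((k : ℝ) + 1) * u p) ≤
            Real.exp (((k : ℝ) + 1) * k₀) * (2 + gr u p ^ (k + 2)) := by
        intro p hp
        have h1 : u p ≤ k₀ := by
          have h2 : u p < k₀ + ((0 : ℕ) : ℝ) := hp.2
          simp only [Nat.cast_zero, add_zero] at h2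
          exact h2.le
        have h2 : Real.exp (((k : ℝ) + 1) * u p) ≤ Real.exp (((k : ℝ) + 1) * k₀) :=
          Real.exp_le_exp.mpr (mul_le_mul_of_nonneg_left h1 (by positivity))
        have h3 : gs u p ≤ 1 + gr u p ^ (k + 2) := by
          rw [← gr_sq]
          exact sq_le_M (gr_nonneg u p) k
        have h4 : 0 ≤ gs u p + 1 := by linarith [gs_nonneg u p]
        calc (gs u p + 1) * Real.exp (((k : ℝ) + 1) * u p)
            ≤ (gs u p + 1) * Real.exp (((k : ℝ) + 1) * k₀) := mul_le_mul_of_nonneg_left h2 h4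
          _ = Real.exp (((k : ℝ) + 1) * k₀) * (gs u p + 1) := mul_comm _ _
          _ ≤ _ := mul_le_mul_of_nonneg_left (by linarith) (Real.exp_pos _).le
      have hc2 : Continuous (fun p => Real.exp (((k : ℝ) + 1) * k₀) * (2 + gr u p ^ (k + 2))) := by
        fun_prop
      have b1 := setIntegral_mono_on (intM hcF hs0) (intM hc2 hs0) (mB.inter (mlt _)) hpt
      have b2 : ∫ p in B (k + 3) 2 ∩ {p | u p < k₀ + ((0 : ℕ) : ℝ)},
          Real.exp (((k : ℝ) + 1) * k₀) * (2 + gr u p ^ (k + 2)) ≤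
          ∫ p in B (k + 3) 2, Real.exp (((k : ℝ) + 1) * k₀) * (2 + gr u p ^ (k + 2)) :=
        setIntegral_mono_set (intM hc2 (le_refl _))
          (Eventually.of_forall fun p => mul_nonneg (Real.exp_pos _).le
            (by have := pow_nonneg (gr_nonneg u p) (k + 2); show (0:ℝ) ≤ 2 + gr u p ^ (k + 2); linarith))
          (Eventually.of_forall hs0)
      have b3 : ∫ p in B (k + 3) 2, Real.exp (((k : ℝ) + 1) * k₀) * (2 + gr u p ^ (k + 2)) =
          Real.exp (((k : ℝ) + 1) * k₀) *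
            (volume.real (B (k + 3) 2) * 2 + ∫ p in B (k + 3) 2, gr u p ^ (k + 2)) := by
        have hIc : IntegrableOn (fun _ : Fin (k + 3) → ℝ => (2 : ℝ)) (B (k + 3) 2) :=
          intM continuous_const (le_refl _)
        have hIg : IntegrableOn (fun p => gr u p ^ (k + 2)) (B (k + 3) 2) :=
          intM (hgr.pow _) (le_refl _)
        rw [integral_const_mul, integral_add hIc hIg, setIntegral_const, smul_eq_mul]
      have b4 : ∫ p in B (k + 3) 2, gr u p ^ (k + 2) ≤ C1 * 2 := hstep h 2 (by norm_num)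
      have b5 : Real.exp (((k : ℝ) + 1) * k₀) *
            (volume.real (B (k + 3) 2) * 2 + ∫ p in B (k + 3) 2, gr u p ^ (k + 2)) ≤ A := by
        rw [hA]
        exact mul_le_mul_of_nonneg_left (by linarith) (Real.exp_pos _).le
      simp only [Finset.range_zero, Finset.sum_empty, mul_zero, add_zero]
      exact (b1.trans b2).trans (b3.le.trans b5)
    | succ J ih =>
      have hsub : B (k + 3) 2 ∩ {p | u p < k₀ + ((J + 1 : ℕ) : ℝ)} ⊆
          (B (k + 3) 2 ∩ {p | u p < k₀ + J}) ∪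
            (B (k + 3) 2 ∩ {p | k₀ + J ≤ u p ∧ u p ≤ k₀ + J + 1}) := by
        rintro p ⟨h1, h3⟩
        have h3' : u p < k₀ + ((J + 1 : ℕ) : ℝ) := h3
        push_cast at h3'
        by_cases h4 : u p < k₀ + J
        · exact Or.inl ⟨h1, h4⟩
        · refine Or.inr ⟨h1, not_lt.mp h4, ?_⟩
          linarith
      have m1 : MeasurableSet (B (k + 3) 2 ∩ {p | u p < k₀ + J}) := mB.inter (mlt _)
      have m2 : MeasurableSet (B (k + 3) 2 ∩ {p | k₀ + J ≤ u p ∧ u p ≤ k₀ + J + 1}) :=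
        mB.inter (((isClosed_le continuous_const hcu).inter
          (isClosed_le hcu continuous_const)).measurableSet)
      have s1 : B (k + 3) 2 ∩ {p | u p < k₀ + J} ⊆ B (k + 3) 2 := Set.inter_subset_left
      have s2 : B (k + 3) 2 ∩ {p | k₀ + J ≤ u p ∧ u p ≤ k₀ + J + 1} ⊆ B (k + 3) 2 :=
        Set.inter_subset_left
      have a1 := setIntegral_mono_set (intM hcF (Set.union_subset s1 s2))
        (Eventually.of_forall hF0) (Eventually.of_forall hsub)
      have a2 := union_leM hcF hF0 s1 s2 m1 m2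
      have a3 := layerM h k₀ J (hj J).1 (hj J).2
      rw [Finset.sum_range_succ, mul_add, ← add_assoc]
      exact a1.trans (a2.trans (add_le_add ih a3))
  obtain ⟨M, hM⟩ := (isCompact_Bc (n := k + 3) 2).exists_bound_of_continuousOn hcu.continuousOn
  obtain ⟨J, hJ⟩ := exists_nat_gt (M - k₀)
  have hall : B (k + 3) 2 = B (k + 3) 2 ∩ {p | u p < k₀ + J} := by
    ext p
    constructor
    · intro hp
      refine ⟨hp, ?_⟩
      have h1 := hM p (B_subset_Bc 2 hp)
      have h2 : u p ≤ M := (le_abs_self _).trans h1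
      show u p < k₀ + J
      linarith
    · exact fun hp => hp.1
  have h1 := key J
  rw [← hall] at h1
  have h3 : ∑ j ∈ Finset.range J, q ^ j ≤ 1 / (1 - q) := by
    rw [geom_sum_eq hq1.ne]
    have h4 : (q ^ J - 1) / (q - 1) = (1 - q ^ J) / (1 - q) := by
      rw [← neg_sub 1 (q ^ J), ← neg_sub 1 q, neg_div_neg_eq]
    rw [h4]
    have h5 : 0 ≤ q ^ J := pow_nonneg hq0.le J
    have h6 : 0 < 1 - q := by linarith
    gcongr
    linarith
  have h7 : ∫ p in B (k + 3) 2, (gs u p + 1) * Real.exp (((k : ℝ) + 1) * u p) ≤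
      1 + A + D * (1 / (1 - q)) := by
    have := mul_le_mul_of_nonneg_left h3 hD0
    linarith
  constructor
  · refine le_trans (integral_mono (intM (by fun_prop) (le_refl _)) (intM hcF (le_refl _)) ?_) h7
    intro p
    show gs u p * Real.exp (((k : ℝ) + 1) * u p) ≤
      (gs u p + 1) * Real.exp (((k : ℝ) + 1) * u p)
    have := Real.exp_pos (((k : ℝ) + 1) * u p)
    nlinarith
  · refine le_trans (integral_mono (intM (by fun_prop) (le_refl _)) (intM hcF (le_refl _)) ?_) h7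
    intro p
    show Real.exp (((k : ℝ) + 1) * u p) ≤ (gs u p + 1) * Real.exp (((k : ℝ) + 1) * u p)
    have := Real.exp_pos (((k : ℝ) + 1) * u p)
    have := gs_nonneg u p
    nlinarith

end

end Pool.Agent.Helper50.YF
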