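import Pool.Agent.Helper50.YF.MeanV

/-!
# YF-8: mean value inequality for `exp ((n-2)/2 u)`

PROOF. `f = exp(c u)`, `c = (n-2)/2`: `∂ᵢf = c f ∂ᵢu`, `Δf = c f (Δu + c |∇u|²) ≤ 0` by `Flat.P1`.
`mean_value`, and `vol (eball a R) ≤ (2R)^n` (`CP.vol_eball_le` or the cube).  `mv_B`:
`B n R ⊆ eball p (r + R)` and `f > 0`, `f p ≤ 1`.
-/

namespace Pool.Agent.Helper50.YF

open scoped ContDiff Topology NNReal
open Pool.Agent.Helper49.Ric Pool.Agent.Helper73.HB Pool.Agent.Helper50.CF
  Pool.Agent.Helper50.CE MeasureTheory Filter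

noncomputable section

variable {n : ℕ} {u : (Fin n → ℝ) → ℝ}

private theorem pd_ex (hu : ContDiff ℝ ∞ u) (c : ℝ) (i : Fin n) (p : Fin n → ℝ) :
    pd i (fun q => Real.exp (c * u q)) p = c * Real.exp (c * u p) * pd i u p := by
  have hd : DifferentiableAt ℝ u p := diff_of_smooth hu.contDiffAt
  have hg : HasDerivAt (fun t : ℝ => Real.exp (c * t)) (c * Real.exp (c * u p)) (u p) := by
    have h1 : HasDerivAt (fun t : ℝ => c * t) c (u p) := by
      simpa using (hasDerivAt_id (u p)).const_mul c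
    have h2 := h1.exp
    rwa [mul_comm (Real.exp (c * u p)) c] at h2
  have h1 : HasFDerivAt (fun q => Real.exp (c * u q))
      ((c * Real.exp (c * u p)) • fderiv ℝ u p) p := hg.comp_hasFDerivAt p hd.hasFDerivAt
  rw [pd_eq h1.differentiableAt, pd_eq hd, h1.fderiv]
  simp only [smul_apply, smul_eq_mul]

private theorem lp_ex (hu : ContDiff ℝ ∞ u) (c : ℝ) (p : Fin n → ℝ) :
    CF.lp (fun q => Real.exp (c * u q)) p =
      c * Real.exp (c * u p) * (CF.lp u p + c * gs u p) := by
  have hex : ContDiff ℝ ∞ (fun q => Real.exp (c * u q)) := (contDiff_const.mul hu).exp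
  unfold CF.lp gs
  rw [Finset.mul_sum, ← Finset.sum_add_distrib, Finset.mul_sum]
  refine Finset.sum_congr rfl fun i _ => ?_
  have e1 : pd i (fun q => Real.exp (c * u q)) =
      fun q => c * Real.exp (c * u q) * pd i u q := by
    funext q
    exact pd_ex hu c i q
  have d1 : DifferentiableAt ℝ (fun q => Real.exp (c * u q)) p := diff_of_smooth hex.contDiffAt
  have d2 : DifferentiableAt ℝ (pd i u) p := diff_of_smooth (smooth_pd hu.contDiffAt i)
  rw [e1, pd_mul (d1.const_mul c) d2, pd_const_mul c d1, pd_ex hu c i p]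
  ring

private theorem vol_le (y : Fin n → ℝ) {s : ℝ} (hs : 0 < s) :
    volume.real (eball y s) ≤ (2 * s) ^ n := by
  have hsub : eball y s ⊆ Set.Icc (fun i => y i - s) (fun i => y i + s) := by
    intro p hp
    have h1 : ∑ j, (p j - y j) ^ 2 < s ^ 2 := hp
    have h2 : ∀ i, |p i - y i| ≤ s := by
      intro i
      have h3 : (p i - y i) ^ 2 ≤ ∑ j, (p j - y j) ^ 2 :=
        Finset.single_le_sum (f := fun j => (p j - y j) ^ 2) (fun j _ => sq_nonneg _)
          (Finset.mem_univ i)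
      exact abs_le_of_sq_le_sq (h3.trans h1.le) hs.le
    refine ⟨fun i => ?_, fun i => ?_⟩
    · have := (abs_le.mp (h2 i)).1
      show y i - s ≤ p i
      linarith
    · have := (abs_le.mp (h2 i)).2
      show p i ≤ y i + s
      linarith
  have hfin : volume (Set.Icc (fun i => y i - s) (fun i => y i + s)) ≠ ⊤ :=
    isCompact_Icc.measure_lt_top.ne
  refine (measureReal_mono hsub hfin).trans (le_of_eq ?_)
  rw [Measure.real, Real.volume_Icc_pi_toReal]
  · have e1 : ∀ i : Fin n, y i + s - (y i - s) = 2 * s := fun i => by ring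
    simp only [e1, Finset.prod_const, Finset.card_univ, Fintype.card_fin]
  · intro i
    show y i - s ≤ y i + s
    linarith

theorem mv_exp (h : Flat n u) (a : Fin n → ℝ) {R : ℝ} (hR : 0 < R) :
    ∫ p in eball a R, Real.exp (((n : ℝ) - 2) / 2 * u p) ≤
      (2 * R) ^ n * Real.exp (((n : ℝ) - 2) / 2 * u a) := by
  have hn : (3 : ℝ) ≤ n := by exact_mod_cast h.hn
  have hc : 0 ≤ ((n : ℝ) - 2) / 2 := by linarith
  set c : ℝ := ((n : ℝ) - 2) / 2 with hcdef
  have hex : ContDiff ℝ ∞ (fun q => Real.exp (c * u q)) := (contDiff_const.mul h.smooth).exp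
  have hl : ∀ p, CF.lp (fun q => Real.exp (c * u q)) p ≤ 0 := by
    intro p
    rw [lp_ex h.smooth c p]
    have h1 := h.P1 p
    rw [← hcdef] at h1
    exact mul_nonpos_of_nonneg_of_nonpos (mul_nonneg hc (Real.exp_pos _).le) (by linarith)
  have h2 := mean_value hex hl a hR
  exact h2.trans (mul_le_mul_of_nonneg_right (vol_le a hR) (Real.exp_pos _).le)

theorem mv_B (h : Flat n u) {r R : ℝ} (hr : 0 ≤ r) (hR : 0 < R) {p : Fin n → ℝ}
    (hp : p ∈ Bc n r) (h0 : u p ≤ 0) :
    ∫ q in B n R, Real.exp (((n : ℝ) - 2) / 2 * u q) ≤ (2 * (r + R)) ^ n := by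
  have hn : (3 : ℝ) ≤ n := by exact_mod_cast h.hn
  have hc : 0 ≤ ((n : ℝ) - 2) / 2 := by linarith
  have hrR : 0 < r + R := by linarith
  set c : ℝ := ((n : ℝ) - 2) / 2 with hcdef
  have hex : ContDiff ℝ ∞ (fun q => Real.exp (c * u q)) := (contDiff_const.mul h.smooth).exp
  have hsub : B n R ⊆ eball p (r + R) := by
    intro q hq
    have h1 : q ∈ eball (0 : Fin n → ℝ) R := by
      have hq' : ∑ i, q i ^ 2 < R ^ 2 := hq
      show ∑ i, (q i - (0 : Fin n → ℝ) i) ^ 2 < R ^ 2
      simpa using hq'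
    have h2 : p ∈ ecball (0 : Fin n → ℝ) r := by
      have hp' : ∑ i, p i ^ 2 ≤ r ^ 2 := hp
      show ∑ i, (p i - (0 : Fin n → ℝ) i) ^ 2 ≤ r ^ 2
      simpa using hp'
    rw [CP.mem_eball hR] at h1
    rw [CP.mem_ecball hr] at h2
    rw [CP.mem_eball hrR]
    have h3 := CP.ed_triangle q 0 p
    rw [CP.ed_comm 0 p] at h3
    linarith
  have hint : IntegrableOn (fun q => Real.exp (c * u q)) (eball p (r + R)) :=
    (hex.continuous.continuousOn.integrableOn_compact
      (CP.isCompact_ecball' p (r + R))).mono_set (CP.eball_subset_ecball' p (r + R))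
  have h1 : ∫ q in B n R, Real.exp (c * u q) ≤ ∫ q in eball p (r + R), Real.exp (c * u q) := by
    refine setIntegral_mono_set hint ?_ (Eventually.of_forall hsub)
    exact Eventually.of_forall fun q => (Real.exp_pos _).le
  have h2 := mv_exp h p hrR
  rw [← hcdef] at h2
  have h3 : Real.exp (c * u p) ≤ 1 := by
    rw [← Real.exp_zero]
    exact Real.exp_le_exp.2 (mul_nonpos_of_nonneg_of_nonpos hc h0)
  calc ∫ q in B n R, Real.exp (c * u q) ≤ ∫ q in eball p (r + R), Real.exp (c * u q) := h1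
    _ ≤ (2 * (r + R)) ^ n * Real.exp (c * u p) := h2
    _ ≤ (2 * (r + R)) ^ n * 1 := mul_le_mul_of_nonneg_left h3 (by positivity)
    _ = (2 * (r + R)) ^ n := mul_one _

end

end Pool.Agent.Helper50.YF
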