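import Pool.Agent.Helper50.YF.Main

/-!
# YF-33: Yau's bound for complete conformally flat metrics on `ℝⁿ` with `Ric ≥ 0`
-/

namespace Pool.Agent.Helper50.YF

open scoped ContDiff Topology NNReal
open Pool.Agent.Helper49.Ric Pool.Agent.Helper73.HB Pool.Agent.Helper50.CF
  Pool.Agent.Helper50.CE MeasureTheory Filter

noncomputable section

variable {n : ℕ} {u : (Fin n → ℝ) → ℝ}

theorem flat_of (hn : 3 ≤ n) (hu : ContDiff ℝ ∞ u) (hR : NonnegRicci (conf u)) : Flat n u := by
  have hRic : ∀ p, ∀ w : Fin n → ℝ, -(0 : ℝ) * ∑ i, ∑ j, conf u p i j * w i * w j ≤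
      ∑ i, ∑ j, ricci (conf u) i j p * w i * w j := by
    intro p w
    rw [neg_zero, zero_mul]
    exact hR p w
  refine ⟨hn, hu, fun p => ?_, fun p => ?_⟩
  · have := ric_P1 hn hu.contDiffAt le_rfl (hRic p)
    simpa using this
  · have := ric_P2 hn hu.contDiffAt le_rfl (hRic p)
    simpa using this

theorem exists_yau (hn : 3 ≤ n) : ∃ C : ℝ, ∀ u : (Fin n → ℝ) → ℝ, ContDiff ℝ ∞ u →
    IsCompleteMetric (conf u) → NonnegRicci (conf u) →
    ∀ (x : Fin n → ℝ) (r : ℝ), 0 < r →
      IntegrableOn (fun p => scal (conf u) p * Real.sqrt (conf u p).det)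
        (gball Set.univ (conf u) x r) ∧
      ∫ p in gball Set.univ (conf u) x r, scal (conf u) p * Real.sqrt (conf u p).det ≤
        C * r ^ (n - 2) := by
  obtain ⟨C, -, H⟩ := exists_main n hn
  refine ⟨C, fun u hu hc hR x r hr => ?_⟩
  have hflat := flat_of hn hu hR
  have hmon := mon_of_complete hflat hc
  have e1 : (fun p => scal (conf u) p * Real.sqrt (conf u p).det) = sc u := by
    funext p
    exact scal_conf hu.contDiffAt
  rw [e1]
  obtain ⟨K, hK, hs⟩ := cpl_of_mon hu hmon x r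
  exact ⟨sc_int hu hK hs, H hflat hmon x hr⟩

end

end Pool.Agent.Helper50.YF
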