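import Pool.Agent.Helper50.YF.Defs

/-!
# YF-15: the last integration by parts

PROOF. `ψ` the cutoff of `cph_spec n 1 2` (`gr ψ ≤ cph`).  `sc u ≥ 0` (`sc_nonneg`), so
`∫_{B n 1} sc u ≤ ∫ ψ sc u`, and by parts (`HB.ibp`, the test function `ψ e^{(n-2)u}` is smooth with
compact support, `F = pd i u`): `∫ ψ e^{(n-2)u} lp u = -∫ (∇ψ·∇u + (n-2) ψ gs u) e^{(n-2)u}`, so
`∫ ψ sc u = (n-1)(n-2) ∫ ψ gs u e^{(n-2)u} + 2(n-1) ∫ e^{(n-2)u} ∇ψ·∇u`
`≤ (n-1)(n-2) E + 2(n-1) cph ∫_{B n 2} e^{(n-2)u} gr u`, `gr ≤ 1 + gs`.  Compare `CK/Last.lean`,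
`CF/Last.lean`.
-/

namespace Pool.Agent.Helper50.YF

open scoped ContDiff Topology NNReal
open Pool.Agent.Helper49.Ric Pool.Agent.Helper73.HB Pool.Agent.Helper50.CF
  Pool.Agent.Helper50.CE MeasureTheory Filter

noncomputable section

variable {n : ℕ} {u : (Fin n → ℝ) → ℝ}

private theorem cont_lpM (hu : ContDiff ℝ ∞ u) : Continuous (lp u) := by
  unfold CF.lp
  exact continuous_finsetSum _ fun i _ => cont_pd_pd hu i i

private theorem smooth_exM {p : Fin n → ℝ} (hu : ContDiffAt ℝ ∞ u p) (a : ℝ) :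
    ContDiffAt ℝ ∞ (fun q => Real.exp (a * u q)) p :=
  (contDiffAt_const.mul hu).exp

private theorem pd_exM {p : Fin n → ℝ} (hu : ContDiffAt ℝ ∞ u p) (a : ℝ) (i : Fin n) :
    pd i (fun q => Real.exp (a * u q)) p = a * Real.exp (a * u p) * pd i u p := by
  have h1 : DifferentiableAt ℝ u p := diff_of_smooth hu
  have h2 : HasFDerivAt (fun q => Real.exp (a * u q))
      (Real.exp (a * u p) • (a • fderiv ℝ u p)) p := (h1.hasFDerivAt.const_mul a).exp
  rw [pd_eq h2.differentiableAt, h2.fderiv, pd_eq h1]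
  simp only [smul_apply, smul_eq_mul]
  ring

private theorem div_FM {p : Fin n → ℝ} (hu : ContDiffAt ℝ ∞ u p) (a : ℝ) :
    ∑ i, pd i (fun q => Real.exp (a * u q) * pd i u q) p
      = Real.exp (a * u p) * (lp u p + a * gs u p) := by
  have h1 : ∀ i, pd i (fun q => Real.exp (a * u q) * pd i u q) p
      = Real.exp (a * u p) * pd i (pd i u) p + Real.exp (a * u p) * (a * pd i u p ^ 2) := by
    intro i
    rw [pd_mul (diff_of_smooth (smooth_exM hu a)) (diff_of_smooth (smooth_pd hu i)), pd_exM hu a i]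
    ring
  simp only [h1, Finset.sum_add_distrib, CF.lp, gs, Finset.mul_sum, mul_add]

/-- integration by parts with a Lipschitz cutoff -/
private theorem partsM (hu : ContDiff ℝ ∞ u) {ζ : (Fin n → ℝ) → ℝ} {L : ℝ≥0}
    (hL : LipschitzWith L ζ) (hc : HasCompactSupport ζ) (a : ℝ) :
    ∫ p, ζ p * (Real.exp (a * u p) * (lp u p + a * gs u p))
      = - ∫ p, Real.exp (a * u p) * ∑ i, pd i ζ p * pd i u p := by
  have hs : tsupport ζ ⊆ Set.univ := Set.subset_univ _
  have hF : ∀ i, ∀ p ∈ Set.univ, ContDiffAt ℝ ∞ (fun q => Real.exp (a * u q) * pd i u q) p :=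
    fun i p _ => (smooth_exM hu.contDiffAt a).mul (smooth_pd hu.contDiffAt i)
  have h1 : ∀ i, ∫ p, ζ p * pd i (fun q => Real.exp (a * u q) * pd i u q) p
      = - ∫ p, pd i ζ p * (Real.exp (a * u p) * pd i u p) := fun i =>
    ibp isOpen_univ hL hc hs (fun p hp => (hF i p hp).of_le (by exact_mod_cast le_top)) i
  have e1 : (fun p => ζ p * (Real.exp (a * u p) * (lp u p + a * gs u p)))
      = fun p => ∑ i, ζ p * pd i (fun q => Real.exp (a * u q) * pd i u q) p := by
    funext p
    rw [← Finset.mul_sum, div_FM hu.contDiffAt a]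
  have e2 : (fun p => Real.exp (a * u p) * ∑ i, pd i ζ p * pd i u p)
      = fun p => ∑ i, pd i ζ p * (Real.exp (a * u p) * pd i u p) := by
    funext p
    rw [Finset.mul_sum]
    refine Finset.sum_congr rfl fun i _ => ?_
    ring
  rw [e1, e2, integral_finsetSum, integral_finsetSum]
  · simp only [h1, Finset.sum_neg_distrib]
  · intro i _
    exact integrable_pd_mul hL hc hs (fun p hp => (hF i p hp).continuousAt) i
  · intro i _
    exact integrable_mul_of hL.continuous hc fun p _ =>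
      (smooth_pd (hF i p (Set.mem_univ p)) i).continuousAt

private theorem lastM_aux (h : Flat n u) {E : ℝ}
    (hE : ∫ p in B n 2, gs u p * Real.exp ((n - 2) * u p) ≤ E)
    (hV : ∫ p in B n 2, Real.exp ((n - 2) * u p) ≤ E) :
    ∫ p in B n 1, sc u p ≤
      (((n : ℝ) - 1) * ((n : ℝ) - 2) + 4 * ((n : ℝ) - 1) * cph) * E := by
  have hN : (3 : ℝ) ≤ n := by exact_mod_cast h.hn
  have hn1 : 0 ≤ (n : ℝ) - 1 := by linarith
  have hn2 : 0 ≤ (n : ℝ) - 2 := by linarith
  have hu : ContDiff ℝ ∞ u := h.smooth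
  have hcph : (0 : ℝ) ≤ cph := zero_le_one.trans cph_one
  obtain ⟨ζ, hζs, hζc, hζsupp, hζ0, hζ1, hζe, hζg⟩ :=
    cph_spec n 1 2 (by norm_num) (by norm_num)
  obtain ⟨L, hL⟩ : ∃ D : ℝ≥0, LipschitzWith D ζ :=
    ContDiff.lipschitzWith_of_hasCompactSupport hζc hζs (by simp)
  have hz : ∀ p, p ∉ B n 2 → ζ p = 0 := fun p hp =>
    image_eq_zero_of_notMem_tsupport fun hh => hp (hζsupp hh)
  have cw : Continuous (fun p => Real.exp (((n : ℝ) - 2) * u p)) := cont_exp hu _
  have cgs : Continuous (gs u) := cont_gs hu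
  have clp : Continuous (lp u) := cont_lpM hu
  have cQ : Continuous (sc u) := cont_sc hu
  have cwg : Continuous (fun p => gs u p * Real.exp (((n : ℝ) - 2) * u p)) := cgs.mul cw
  have cwl : Continuous (fun p => Real.exp (((n : ℝ) - 2) * u p) *
      (lp u p + ((n : ℝ) - 2) * gs u p)) := cw.mul (clp.add (continuous_const.mul cgs))
  have hpos : ∀ p, 0 ≤ sc u p := sc_nonneg h
  have hint1 : Integrable (fun p => ζ p * sc u p) :=
    integrable_mul_of hL.continuous hζc fun p _ => cQ.continuousAt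
  have hint3 : Integrable (fun p => ζ p * (gs u p * Real.exp (((n : ℝ) - 2) * u p))) :=
    integrable_mul_of hL.continuous hζc fun p _ => cwg.continuousAt
  have hint4 : Integrable (fun p => ζ p * (Real.exp (((n : ℝ) - 2) * u p)
      * (lp u p + ((n : ℝ) - 2) * gs u p))) :=
    integrable_mul_of hL.continuous hζc fun p _ => cwl.continuousAt
  have hB12 : B n 1 ⊆ B n 2 := fun p hp => by
    have h1 : ∑ i, p i ^ 2 < (1 : ℝ) ^ 2 := hp
    show ∑ i, p i ^ 2 < (2 : ℝ) ^ 2
    linarith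
  have step1 : ∫ p in B n 1, sc u p ≤ ∫ p, ζ p * sc u p := by
    refine le_trans ?_ (setIntegral_le_integral (s := B n 1) hint1 (Eventually.of_forall ?_))
    · refine setIntegral_mono_on (integrableOn_of cQ.continuousOn hB12) hint1.integrableOn
        (measurableSet_B 1) ?_
      intro p hp
      rw [hζe p (B_subset_Bc 1 hp), one_mul]
    · intro p
      exact mul_nonneg (hζ0 p) (hpos p)
  refine step1.trans ?_
  have hmain : ∫ p, ζ p * sc u p
      = 2 * ((n : ℝ) - 1) *
          (∫ p, Real.exp (((n : ℝ) - 2) * u p) * ∑ i, pd i ζ p * pd i u p)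
        + ((n : ℝ) - 1) * ((n : ℝ) - 2) *
          ∫ p, ζ p * (gs u p * Real.exp (((n : ℝ) - 2) * u p)) := by
    have h1 := partsM hu hL hζc ((n : ℝ) - 2)
    have h2 : (∫ p, Real.exp (((n : ℝ) - 2) * u p) * ∑ i, pd i ζ p * pd i u p)
        = -∫ p, ζ p * (Real.exp (((n : ℝ) - 2) * u p) * (lp u p + ((n : ℝ) - 2) * gs u p)) := by
      rw [h1, neg_neg]
    rw [h2, ← integral_neg, ← integral_const_mul, ← integral_const_mul, ← integral_add]
    · congr 1
      funext p
      unfold sc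
      ring
    · exact hint4.neg.const_mul _
    · exact hint3.const_mul _
  rw [hmain]
  have hT2 : ∫ p, ζ p * (gs u p * Real.exp (((n : ℝ) - 2) * u p)) ≤ E := by
    refine le_trans ?_ hE
    have e1 : ∫ p, ζ p * (gs u p * Real.exp (((n : ℝ) - 2) * u p))
        = ∫ p in B n 2, ζ p * (gs u p * Real.exp (((n : ℝ) - 2) * u p)) := by
      symm
      refine setIntegral_eq_integral_of_forall_compl_eq_zero fun p hp => ?_
      rw [hz p hp, zero_mul]
    rw [e1]
    refine setIntegral_mono_on hint3.integrableOn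
      (integrableOn_of cwg.continuousOn subset_rfl) (measurableSet_B 2) fun p _ => ?_
    exact mul_le_of_le_one_left (mul_nonneg (gs_nonneg u p) (Real.exp_pos _).le) (hζ1 p)
  have hT1 : (∫ p, Real.exp (((n : ℝ) - 2) * u p) * ∑ i, pd i ζ p * pd i u p)
      ≤ cph * (E + E) := by
    have hpd : ∀ p, p ∉ B n 2 → ∀ i, pd i ζ p = 0 := fun p hp i =>
      pd_zero_of_nonneg hζ0 (hz p hp) i
    have e1 : (∫ p, Real.exp (((n : ℝ) - 2) * u p) * ∑ i, pd i ζ p * pd i u p)
        = ∫ p in B n 2, Real.exp (((n : ℝ) - 2) * u p) * ∑ i, pd i ζ p * pd i u p := by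
      symm
      refine setIntegral_eq_integral_of_forall_compl_eq_zero fun p hp => ?_
      have h1 : ∀ i, pd i ζ p = 0 := hpd p hp
      simp [h1]
    have hI : Integrable (fun p => Real.exp (((n : ℝ) - 2) * u p) * ∑ i, pd i ζ p * pd i u p) := by
      have e2 : (fun p => Real.exp (((n : ℝ) - 2) * u p) * ∑ i, pd i ζ p * pd i u p)
          = fun p => ∑ i, pd i ζ p * (Real.exp (((n : ℝ) - 2) * u p) * pd i u p) := by
        funext p
        rw [Finset.mul_sum]
        refine Finset.sum_congr rfl fun i _ => ?_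
        ring
      rw [e2]
      refine integrable_finsetSum _ fun i _ => ?_
      exact integrable_pd_mul hL hζc (Set.subset_univ _) (fun p _ =>
        ((smooth_exM hu.contDiffAt _).mul (smooth_pd hu.contDiffAt i)).continuousAt) i
    have hIe : IntegrableOn (fun p => Real.exp (((n : ℝ) - 2) * u p)) (B n 2) :=
      integrableOn_of cw.continuousOn subset_rfl
    have hIg : IntegrableOn (fun p => gs u p * Real.exp (((n : ℝ) - 2) * u p)) (B n 2) :=
      integrableOn_of cwg.continuousOn subset_rfl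
    rw [e1]
    calc ∫ p in B n 2, Real.exp (((n : ℝ) - 2) * u p) * ∑ i, pd i ζ p * pd i u p
        ≤ ∫ p in B n 2, cph * (Real.exp (((n : ℝ) - 2) * u p)
          + gs u p * Real.exp (((n : ℝ) - 2) * u p)) := by
          refine setIntegral_mono_on hI.integrableOn ((hIe.add hIg).const_mul cph)
            (measurableSet_B 2) fun p _ => ?_
          have h1 : ∑ i, pd i ζ p * pd i u p ≤ gr ζ p * gr u p :=
            (le_abs_self _).trans (abs_inner_le ζ u p)
          have h2 : gr ζ p ≤ cph := by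
            have := hζg p
            norm_num at this
            exact this
          have h3 : gr u p ≤ 1 + gs u p := by
            have h5 := gr_sq u p
            nlinarith [sq_nonneg (gr u p - 1), gr_nonneg u p]
          have h4 : gr ζ p * gr u p ≤ cph * (1 + gs u p) :=
            mul_le_mul h2 h3 (gr_nonneg u p) hcph
          calc Real.exp (((n : ℝ) - 2) * u p) * ∑ i, pd i ζ p * pd i u p
              ≤ Real.exp (((n : ℝ) - 2) * u p) * (cph * (1 + gs u p)) :=
                mul_le_mul_of_nonneg_left (h1.trans h4) (Real.exp_pos _).le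
            _ = _ := by ring
      _ = cph * ((∫ p in B n 2, Real.exp (((n : ℝ) - 2) * u p))
          + ∫ p in B n 2, gs u p * Real.exp (((n : ℝ) - 2) * u p)) := by
          rw [integral_const_mul, integral_add hIe hIg]
      _ ≤ cph * (E + E) := mul_le_mul_of_nonneg_left (add_le_add hV hE) hcph
  have k1 := mul_le_mul_of_nonneg_left hT1 (show (0 : ℝ) ≤ 2 * ((n : ℝ) - 1) by linarith)
  have k2 := mul_le_mul_of_nonneg_left hT2 (mul_nonneg hn1 hn2)
  calc 2 * ((n : ℝ) - 1) *
          (∫ p, Real.exp (((n : ℝ) - 2) * u p) * ∑ i, pd i ζ p * pd i u p)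
        + ((n : ℝ) - 1) * ((n : ℝ) - 2) *
          ∫ p, ζ p * (gs u p * Real.exp (((n : ℝ) - 2) * u p))
      ≤ 2 * ((n : ℝ) - 1) * (cph * (E + E)) + ((n : ℝ) - 1) * ((n : ℝ) - 2) * E :=
        add_le_add k1 k2
    _ = _ := by ring

theorem exists_lastM (n : ℕ) : ∃ C : ℝ, 1 ≤ C ∧ ∀ {u : (Fin n → ℝ) → ℝ}, Flat n u →
    ∀ E : ℝ, ∫ p in B n 2, gs u p * Real.exp ((n - 2) * u p) ≤ E →
      ∫ p in B n 2, Real.exp ((n - 2) * u p) ≤ E → ∫ p in B n 1, sc u p ≤ C * E := by
  refine ⟨max 1 (((n : ℝ) - 1) * ((n : ℝ) - 2) + 4 * ((n : ℝ) - 1) * cph), le_max_left _ _, ?_⟩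
  intro u h E hE hV
  have h0 : 0 ≤ E := by
    refine le_trans ?_ hV
    exact setIntegral_nonneg (measurableSet_B 2) fun p _ => (Real.exp_pos _).le
  exact (lastM_aux h hE hV).trans (mul_le_mul_of_nonneg_right (le_max_right _ _) h0)

end

end Pool.Agent.Helper50.YF
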