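import Pool.Agent.Helper50.YF.Defs

/-!
# YF-2: the mass `mu u ψ = ∫ |∇u|^{n-2} ∇u·∇ψ` of `-Δ_n u`

PROOF. `mu_nonneg`: `CE.testE` with `s = n - 2` (left side zero).  `exists_M0`: all `eball (z i) (4 r i)`
lie in `Bc n (3R)` for large `R`; `Ψ = phs 0 R - ∑ phs (z i) (r i)` is smooth with compact support
and nonnegative (the supports of the `phs (z i) (r i)` are disjoint, each is `≤ 1`, and
`phs 0 R = 1` on `Bc n (3R)`), so `0 ≤ mu u Ψ = mu u (phs 0 R) - ∑ ms u (z i) (r i)` (linearity;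
all integrands are continuous with compact support).  And
`mu u (phs 0 R) ≤ ∫ gr u^(n-2) gr (phs 0 R) gr u ≤ (cph / R) ∫_{B n (4R)} gr u^(n-1) ≤ 4 C cph`
by `CE.exists_stepE`, `CF.abs_inner_le`, `phs_grad`.
-/

namespace Pool.Agent.Helper50.YF

open scoped ContDiff Topology NNReal
open Pool.Agent.Helper49.Ric Pool.Agent.Helper73.HB Pool.Agent.Helper50.CF
  Pool.Agent.Helper50.CE MeasureTheory Filter

noncomputable section

variable {n : ℕ} {u : (Fin n → ℝ) → ℝ}

private theorem mu_integ (hu : ContDiff ℝ ∞ u) {ψ : (Fin n → ℝ) → ℝ} (hψ : ContDiff ℝ ∞ ψ)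
    (hc : HasCompactSupport ψ) :
    Integrable (fun p => gr u p ^ (n - 2) * ∑ i, pd i ψ p * pd i u p) := by
  have h1 : Continuous (fun p => gr u p ^ (n - 2) * ∑ i, pd i ψ p * pd i u p) :=
    ((cont_gr hu).pow _).mul
      (continuous_finsetSum _ fun i _ => (cont_pd hψ i).mul (cont_pd hu i))
  refine h1.integrable_of_hasCompactSupport ?_
  refine HasCompactSupport.of_support_subset_isCompact hc ?_
  intro p hp
  by_contra h2
  refine hp ?_
  have h3 : ∑ i, pd i ψ p * pd i u p = 0 :=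
    Finset.sum_eq_zero fun i _ => by rw [pd_zero_off h2 i, zero_mul]
  show gr u p ^ (n - 2) * ∑ i, pd i ψ p * pd i u p = 0
  rw [h3, mul_zero]

theorem mu_nonneg (h : Flat n u) {ψ : (Fin n → ℝ) → ℝ} (hψ : ContDiff ℝ ∞ ψ)
    (hc : HasCompactSupport ψ) (h0 : ∀ p, 0 ≤ ψ p) : 0 ≤ mu u ψ := by
  have hn := h.hn
  have h1 := testE h (s := n - 2) (by omega) hψ hc h0
  have h2 : ((n : ℝ) - 2 - ((n - 2 : ℕ) : ℝ)) / 2 = 0 := by
    rw [Nat.cast_sub (by omega)]
    push_cast
    ring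
  rw [h2, zero_mul] at h1
  exact h1

theorem ms_nonneg (h : Flat n u) (z : Fin n → ℝ) {r : ℝ} (hr : 0 < r) : 0 ≤ ms u z r :=
  mu_nonneg h (phs_smooth z r) (phs_cpt z hr) (phs_nonneg z r)

private theorem phs_off {z p : Fin n → ℝ} {r : ℝ} (hr : 0 < r) (hp : p ∉ eball z (4 * r)) :
    phs z r p = 0 :=
  image_eq_zero_of_notMem_tsupport fun h => hp (phs_supp hr h)

/-- the total mass is bounded -/
theorem exists_M0 (n : ℕ) : ∃ M : ℝ, 1 ≤ M ∧ ∀ {u : (Fin n → ℝ) → ℝ}, Flat n u →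
    ∀ {ι : Type} (s : Finset ι) (z : ι → Fin n → ℝ) (r : ι → ℝ), (∀ i ∈ s, 0 < r i) →
      (∀ i ∈ s, ∀ j ∈ s, i ≠ j → Disjoint (eball (z i) (4 * r i)) (eball (z j) (4 * r j))) →
      ∑ i ∈ s, ms u (z i) (r i) ≤ M := by
  classical
  obtain ⟨C, hC, hstep⟩ := exists_stepE n
  have hcph := cph_one
  refine ⟨4 * (C * cph), by nlinarith, ?_⟩
  intro u h ι s z r hr hd
  have hn := h.hn
  -- a large radius
  obtain ⟨R, hR, hsub⟩ : ∃ R : ℝ, 0 < R ∧ ∀ i ∈ s, eball (z i) (4 * r i) ⊆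
      ecball (0 : Fin n → ℝ) (3 * R) := by
    have hK : IsCompact (⋃ i ∈ s, ecball (z i) (4 * r i)) :=
      s.isCompact_biUnion fun i _ => CP.isCompact_ecball' (z i) (4 * r i)
    have hcont : Continuous (fun p : Fin n → ℝ => ∑ i, (p i - (0 : Fin n → ℝ) i) ^ 2) := by
      fun_prop
    obtain ⟨M, hM⟩ := hK.exists_bound_of_continuousOn hcont.continuousOn
    refine ⟨|M| + 1, by positivity, fun i hi p hp => ?_⟩
    have h1 := hM p (Set.mem_biUnion hi (CP.eball_subset_ecball' (z i) (4 * r i) hp))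
    rw [Real.norm_eq_abs] at h1
    have h2 : ∑ i, (p i - (0 : Fin n → ℝ) i) ^ 2 ≤ |M| :=
      (le_abs_self _).trans (h1.trans (le_abs_self M))
    show ∑ i, (p i - (0 : Fin n → ℝ) i) ^ 2 ≤ (3 * (|M| + 1)) ^ 2
    nlinarith [abs_nonneg M]
  set Ψ : (Fin n → ℝ) → ℝ := fun p => phs 0 R p - ∑ i ∈ s, phs (z i) (r i) p with hΨ
  have hS : ContDiff ℝ ∞ (fun p : Fin n → ℝ => ∑ i ∈ s, phs (z i) (r i) p) :=
    ContDiff.sum fun i _ => phs_smooth (z i) (r i)
  have hΨs : ContDiff ℝ ∞ Ψ := (phs_smooth 0 R).sub hS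
  have hsum_off : ∀ p, p ∉ ecball (0 : Fin n → ℝ) (3 * R) → ∑ i ∈ s, phs (z i) (r i) p = 0 := by
    intro p hp
    exact Finset.sum_eq_zero fun i hi => phs_off (hr i hi) fun h' => hp (hsub i hi h')
  have hΨc : HasCompactSupport Ψ := by
    refine HasCompactSupport.of_support_subset_isCompact
      ((phs_cpt (0 : Fin n → ℝ) hR).isCompact.union
        (CP.isCompact_ecball' (0 : Fin n → ℝ) (3 * R))) ?_
    intro p hp
    by_contra h1
    rw [Set.mem_union, not_or] at h1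
    refine hp ?_
    show phs 0 R p - ∑ i ∈ s, phs (z i) (r i) p = 0
    rw [hsum_off p h1.2, image_eq_zero_of_notMem_tsupport h1.1, sub_zero]
  have hΨ0 : ∀ p, 0 ≤ Ψ p := by
    intro p
    show 0 ≤ phs 0 R p - ∑ i ∈ s, phs (z i) (r i) p
    by_cases hp : ∃ i ∈ s, p ∈ eball (z i) (4 * r i)
    · obtain ⟨i, hi, hpi⟩ := hp
      have h1 : ∑ j ∈ s, phs (z j) (r j) p = phs (z i) (r i) p := by
        refine Finset.sum_eq_single_of_mem i hi fun j hj hji => ?_
        refine phs_off (hr j hj) fun h' => ?_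
        exact Set.disjoint_left.1 (hd j hj i hi hji) h' hpi
      rw [h1, phs_one hR (hsub i hi hpi)]
      linarith [phs_le_one (z i) (r i) p]
    · have h1 : ∑ j ∈ s, phs (z j) (r j) p = 0 :=
        Finset.sum_eq_zero fun j hj => phs_off (hr j hj) fun h' => hp ⟨j, hj, h'⟩
      rw [h1, sub_zero]
      exact phs_nonneg 0 R p
  have hpos := mu_nonneg h hΨs hΨc hΨ0
  have hi0 := mu_integ h.smooth (phs_smooth (0 : Fin n → ℝ) R) (phs_cpt _ hR)
  have hii : ∀ i ∈ s, Integrable (fun p => gr u p ^ (n - 2) *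
      ∑ k, pd k (phs (z i) (r i)) p * pd k u p) := fun i hi =>
    mu_integ h.smooth (phs_smooth (z i) (r i)) (phs_cpt _ (hr i hi))
  have hlin : mu u Ψ = mu u (phs 0 R) - ∑ i ∈ s, ms u (z i) (r i) := by
    unfold ms mu
    rw [← integral_finsetSum _ hii, ← integral_sub hi0 (integrable_finsetSum _ hii)]
    refine integral_congr_ae (Eventually.of_forall fun p => ?_)
    show gr u p ^ (n - 2) * ∑ k, pd k Ψ p * pd k u p =
      gr u p ^ (n - 2) * (∑ k, pd k (phs 0 R) p * pd k u p) -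
        ∑ i ∈ s, gr u p ^ (n - 2) * ∑ k, pd k (phs (z i) (r i)) p * pd k u p
    have h1 : ∀ k, pd k Ψ p = pd k (phs 0 R) p - ∑ i ∈ s, pd k (phs (z i) (r i)) p := by
      intro k
      rw [hΨ, pd_sub (diff_of_smooth (phs_smooth 0 R).contDiffAt)
        (diff_of_smooth hS.contDiffAt) k,
        pd_sum (fun i _ => diff_of_smooth (phs_smooth (z i) (r i)).contDiffAt) k]
    rw [← Finset.mul_sum, ← mul_sub]
    congr 1
    rw [Finset.sum_comm, ← Finset.sum_sub_distrib]
    refine Finset.sum_congr rfl fun k _ => ?_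
    rw [h1 k, sub_mul, Finset.sum_mul]
  have hup : mu u (phs 0 R) ≤ 4 * (C * cph) := by
    have hB : ∀ p, p ∉ B n (4 * R) → gr u p ^ (n - 2) * ∑ k, pd k (phs 0 R) p * pd k u p = 0 := by
      intro p hp
      have h1 : p ∉ tsupport (phs (0 : Fin n → ℝ) R) := by
        intro h'
        refine hp ?_
        have h2 : ∑ i, (p i - (0 : Fin n → ℝ) i) ^ 2 < (4 * R) ^ 2 := phs_supp hR h'
        show ∑ i, p i ^ 2 < (4 * R) ^ 2
        simpa using h2
      have h3 : ∑ i, pd i (phs 0 R) p * pd i u p = 0 :=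
        Finset.sum_eq_zero fun i _ => by rw [pd_zero_off h1 i, zero_mul]
      rw [h3, mul_zero]
    unfold mu
    rw [← setIntegral_eq_integral_of_forall_compl_eq_zero hB]
    have h1 : ∫ p in B n (4 * R), gr u p ^ (n - 2) * ∑ k, pd k (phs 0 R) p * pd k u p ≤
        ∫ p in B n (4 * R), (cph / R) * gr u p ^ (n - 1) := by
      refine setIntegral_mono_on hi0.integrableOn ?_ (measurableSet_B _) ?_
      · exact int_on (continuous_const.mul ((cont_gr h.smooth).pow _)) (isCompact_Bc (4 * R))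
          (B_subset_Bc _)
      · intro p _
        have e1 : gr u p ^ (n - 1) = gr u p ^ (n - 2) * gr u p := by
          rw [← pow_succ]
          congr 1
          omega
        have e2 : ∑ k, pd k (phs 0 R) p * pd k u p ≤ (cph / R) * gr u p :=
          (le_abs_self _).trans ((abs_inner_le _ _ _).trans
            (mul_le_mul_of_nonneg_right (phs_grad 0 hR p) (gr_nonneg u p)))
        rw [e1]
        calc gr u p ^ (n - 2) * ∑ k, pd k (phs 0 R) p * pd k u p
            ≤ gr u p ^ (n - 2) * ((cph / R) * gr u p) :=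
              mul_le_mul_of_nonneg_left e2 (pow_nonneg (gr_nonneg u p) _)
          _ = _ := by ring
    refine h1.trans ?_
    rw [integral_const_mul]
    have h2 := hstep h (4 * R) (by linarith)
    have h3 : 0 ≤ cph / R := by positivity
    calc cph / R * ∫ p in B n (4 * R), gr u p ^ (n - 1) ≤ cph / R * (C * (4 * R)) :=
          mul_le_mul_of_nonneg_left h2 h3
      _ = 4 * (C * cph) := by field_simp
  rw [hlin] at hpos
  linarith

end

end Pool.Agent.Helper50.YF
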