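import Pool.Agent.Helper50.YF.TailE
import Pool.Agent.Helper50.YF.Mu

/-!
# YF-11: the energy of a layer is bounded by the mass, up to `e^{-k/4}`
-/

namespace Pool.Agent.Helper50.YF

open scoped ContDiff Topology NNReal
open Pool.Agent.Helper49.Ric Pool.Agent.Helper73.HB Pool.Agent.Helper50.CF
  Pool.Agent.Helper50.CE MeasureTheory Filter

noncomputable section

variable {n : ℕ} {u : (Fin n → ℝ) → ℝ}

private def sgM (t : ℝ) : ℝ := (1 + Real.exp (-t))⁻¹

private def wgM (t : ℝ) : ℝ := Real.exp (-t) / (1 + Real.exp (-t)) ^ 2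

private def chM (k t : ℝ) : ℝ := 1 - sgM (t - k)

private theorem sgM_smooth : ContDiff ℝ ∞ sgM := by
  unfold sgM
  refine ContDiff.inv (contDiff_const.add (Real.contDiff_exp.comp contDiff_neg)) fun t => ?_
  have := Real.exp_pos (-t)
  positivity

private theorem sgM_deriv (t : ℝ) : HasDerivAt sgM (wgM t) t := by
  have h1 : HasDerivAt (fun t : ℝ => Real.exp (-t)) (-Real.exp (-t)) t := by
    have := (hasDerivAt_neg t).exp
    simpa using this
  have h2 := h1.const_add (1 : ℝ)
  have h3 := h2.fun_inv (by have := Real.exp_pos (-t); positivity)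
  refine h3.congr_deriv ?_
  unfold wgM
  rw [neg_neg]

private theorem chM_smooth (k : ℝ) : ContDiff ℝ ∞ (chM k) := by
  unfold chM
  exact contDiff_const.sub (sgM_smooth.comp (contDiff_id.sub contDiff_const))

private theorem chM_deriv (k t : ℝ) : HasDerivAt (chM k) (-wgM (t - k)) t := by
  have h1 : HasDerivAt (fun t : ℝ => t - k) 1 t := (hasDerivAt_id t).sub_const k
  have h2 := (sgM_deriv (t - k)).comp t h1
  rw [mul_one] at h2
  exact h2.const_sub 1

private theorem sgM_pos (t : ℝ) : 0 < sgM t := by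
  unfold sgM
  have := Real.exp_pos (-t)
  positivity

private theorem sgM_le_one (t : ℝ) : sgM t ≤ 1 := by
  unfold sgM
  have := Real.exp_pos (-t)
  exact inv_le_one_of_one_le₀ (by linarith)

private theorem sgM_le (t : ℝ) : sgM t ≤ Real.exp (t / 4) := by
  rcases le_total 0 t with h | h
  · exact (sgM_le_one t).trans (Real.one_le_exp (by linarith))
  · have h1 : sgM t ≤ Real.exp t := by
      unfold sgM
      rw [inv_le_comm₀ (by have := Real.exp_pos (-t); positivity) (Real.exp_pos t),
        ← Real.exp_neg]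
      linarith
    exact h1.trans (Real.exp_le_exp.2 (by linarith))

private theorem chM_nonneg (k t : ℝ) : 0 ≤ chM k t := by
  unfold chM
  linarith [sgM_le_one (t - k)]

private theorem wgM_nonneg (t : ℝ) : 0 ≤ wgM t := by
  unfold wgM
  have := Real.exp_pos (-t)
  positivity

private theorem wgM_low {t : ℝ} (h0 : 0 ≤ t) (h1 : t ≤ 1) : 1 / 12 ≤ wgM t := by
  unfold wgM
  have e1 : Real.exp (-t) ≤ 1 := Real.exp_le_one_iff.2 (by linarith)
  have e2 : Real.exp (-1) ≤ Real.exp (-t) := Real.exp_le_exp.2 (by linarith)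
  have e3 : (1 : ℝ) / 3 ≤ Real.exp (-1) := by
    rw [Real.exp_neg, one_div]
    refine inv_anti₀ (Real.exp_pos 1) ?_
    have := Real.exp_one_lt_d9
    linarith
  have e4 := Real.exp_pos (-t)
  rw [le_div_iff₀ (by positivity)]
  nlinarith

private theorem wgM_cont : Continuous wgM := by
  unfold wgM
  refine Continuous.div (by fun_prop) (by fun_prop) fun t => ?_
  have := Real.exp_pos (-t)
  positivity

private theorem pd_psiM {φ : (Fin n → ℝ) → ℝ} {p : Fin n → ℝ} (hφ : ContDiff ℝ ∞ φ)
    (hu : ContDiffAt ℝ ∞ u p) (k : ℝ) (i : Fin n) :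
    pd i (fun q => φ q * chM k (u q)) p =
      pd i φ p * chM k (u p) - φ p * (wgM (u p - k) * pd i u p) := by
  have hud : DifferentiableAt ℝ u p := diff_of_smooth hu
  have h1 : HasFDerivAt (fun q => chM k (u q)) ((-wgM (u p - k)) • fderiv ℝ u p) p :=
    (chM_deriv k (u p)).comp_hasFDerivAt p hud.hasFDerivAt
  have h2 : DifferentiableAt ℝ (fun q => chM k (u q)) p := h1.differentiableAt
  have h3 : pd i (fun q => chM k (u q)) p = -(wgM (u p - k)) * pd i u p := by
    rw [pd_eq h2, pd_eq hud, h1.fderiv]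
    rfl
  rw [pd_mul (hφ.contDiffAt.differentiableAt (by simp)) h2, h3]
  ring

private theorem meas_layerM (hu : Continuous u) (r k e : ℝ) :
    MeasurableSet (B n r ∩ {p | k ≤ u p ∧ u p ≤ k + e}) :=
  (measurableSet_B r).inter
    (((isClosed_le continuous_const hu).inter (isClosed_le hu continuous_const)).measurableSet)

private theorem int_BM {f : (Fin n → ℝ) → ℝ} (hf : Continuous f) {A : Set (Fin n → ℝ)} {r : ℝ}
    (hA : A ⊆ B n r) : IntegrableOn f A :=
  int_on hf (isCompact_Bc r) (hA.trans (B_subset_Bc r))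

theorem exists_layerM (n : ℕ) : ∃ C : ℝ, 1 ≤ C ∧ ∀ {u : (Fin n → ℝ) → ℝ}, Flat n u →
    (∃ p ∈ Bc n 4, u p ≤ 0) → ∀ k : ℝ,
      ∫ p in B n 3 ∩ {p | k ≤ u p ∧ u p ≤ k + 1}, gr u p ^ n ≤
        C * (mu u (ph n) + Real.exp (-(k / 4))) := by
  obtain ⟨G, hG1, hG⟩ := exists_tail n
  have hcph := cph_one
  have hcG : 1 ≤ cph * G := by nlinarith
  refine ⟨12 * (cph * G), by linarith, ?_⟩
  intro u hD hz k
  have hn : 3 ≤ n := hD.hn
  set φ := ph n with hφd
  have hφ : ContDiff ℝ ∞ φ := ph_smooth n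
  have hφc : HasCompactSupport φ := ph_cpt n
  have hφt : tsupport φ ⊆ B n 4 := ph_supp n
  have hφ0 : ∀ p, 0 ≤ φ p := ph_nonneg n
  have hφg : ∀ p, gr φ p ≤ cph := ph_grad n
  have hsm : ∀ p, ContDiffAt ℝ ∞ u p := fun p => hD.smooth.contDiffAt
  have hψ : ContDiff ℝ ∞ (fun q => φ q * chM k (u q)) :=
    hφ.mul ((chM_smooth k).comp hD.smooth)
  have hψc : HasCompactSupport (fun q => φ q * chM k (u q)) := hφc.mul_right
  have key := testE hD (s := n - 2) (by omega) hψ hψc
    (fun p => mul_nonneg (hφ0 p) (chM_nonneg k _))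
  have hcoef : ((n : ℝ) - 2 - ((n - 2 : ℕ) : ℝ)) / 2 = 0 := by
    rw [Nat.cast_sub (by omega)]
    push_cast
    ring
  rw [hcoef, zero_mul] at key
  -- pointwise identity
  have hid : ∀ p, gr u p ^ (n - 2) * ∑ i, pd i (fun q => φ q * chM k (u q)) p * pd i u p =
      (∑ i, pd i φ p * (gr u p ^ (n - 2) * pd i u p)) -
      (∑ i, pd i φ p * (sgM (u p - k) * gr u p ^ (n - 2) * pd i u p)) -
        φ p * (wgM (u p - k) * gr u p ^ n) := by
    intro p
    have h1 : ∀ i, pd i (fun q => φ q * chM k (u q)) p * pd i u p =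
        pd i φ p * pd i u p - pd i φ p * (sgM (u p - k) * pd i u p) -
          φ p * wgM (u p - k) * pd i u p ^ 2 := by
      intro i
      rw [pd_psiM hφ (hsm p) k i]
      unfold chM
      ring
    rw [Finset.sum_congr rfl fun i _ => h1 i, Finset.sum_sub_distrib, Finset.sum_sub_distrib,
      ← Finset.mul_sum]
    have h2 : ∑ i, pd i u p ^ 2 = gr u p ^ 2 := (gr_sq u p).symm
    have h3 : gr u p ^ n = gr u p ^ (n - 2) * gr u p ^ 2 := by
      rw [← pow_add]
      congr 1
      omega
    rw [h2, h3, mul_sub, mul_sub, Finset.mul_sum, Finset.mul_sum]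
    congr 1
    · congr 1
      · refine Finset.sum_congr rfl fun i _ => ?_
        ring
      · refine Finset.sum_congr rfl fun i _ => ?_
        ring
    · ring
  obtain ⟨L, hL⟩ := lip_of hφ hφc
  have hcgr : Continuous (gr u) := cont_gr hD.smooth
  have hcuk : Continuous (fun q => u q - k) := hD.smooth.continuous.sub continuous_const
  have hcs : Continuous (fun q => sgM (u q - k)) := sgM_smooth.continuous.comp hcuk
  have hcw : Continuous (fun q => wgM (u q - k)) := wgM_cont.comp hcuk
  have hI0 : Integrable (fun p => ∑ i, pd i φ p * (gr u p ^ (n - 2) * pd i u p)) := by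
    refine integrable_finsetSum _ fun i _ => ?_
    refine integrable_pd_mul (U := Set.univ) hL hφc (Set.subset_univ _) (fun p _ => ?_) i
    exact (hcgr.continuousAt.pow _).mul (smooth_pd (hsm p) i).continuousAt
  have hI1 : Integrable
      (fun p => ∑ i, pd i φ p * (sgM (u p - k) * gr u p ^ (n - 2) * pd i u p)) := by
    refine integrable_finsetSum _ fun i _ => ?_
    refine integrable_pd_mul (U := Set.univ) hL hφc (Set.subset_univ _) (fun p _ => ?_) i
    exact (hcs.continuousAt.mul (hcgr.continuousAt.pow _)).mul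
      (smooth_pd (hsm p) i).continuousAt
  have hI2 : Integrable (fun p => φ p * (wgM (u p - k) * gr u p ^ n)) := by
    refine integrable_mul_of hφ.continuous hφc (fun p _ => ?_)
    exact hcw.continuousAt.mul (hcgr.continuousAt.pow _)
  have hI01 : Integrable (fun p => (∑ i, pd i φ p * (gr u p ^ (n - 2) * pd i u p)) -
      (∑ i, pd i φ p * (sgM (u p - k) * gr u p ^ (n - 2) * pd i u p))) := hI0.sub hI1
  rw [integral_congr_ae (Eventually.of_forall hid), integral_sub hI01 hI2,
    integral_sub hI0 hI1] at key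
  -- the mass
  have b0 : ∫ p, ∑ i, pd i φ p * (gr u p ^ (n - 2) * pd i u p) = mu u (ph n) := by
    unfold mu
    refine integral_congr_ae (Eventually.of_forall fun p => ?_)
    show ∑ i, pd i φ p * (gr u p ^ (n - 2) * pd i u p) =
      gr u p ^ (n - 2) * ∑ i, pd i φ p * pd i u p
    rw [Finset.mul_sum]
    refine Finset.sum_congr rfl fun i _ => ?_
    ring
  -- the error
  have hexpc : Continuous (fun p => cph * (Real.exp (u p / 4) * gr u p ^ (n - 1))) :=
    continuous_const.mul (((hD.smooth.continuous.div_const 4).rexp).mul (hcgr.pow _))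
  have b1 : -∫ p, ∑ i, pd i φ p * (sgM (u p - k) * gr u p ^ (n - 2) * pd i u p) ≤
      cph * G * Real.exp (-(k / 4)) := by
    have h0 : ∀ p, p ∉ B n 4 →
        ∑ i, pd i φ p * (sgM (u p - k) * gr u p ^ (n - 2) * pd i u p) = 0 := by
      intro p hp
      refine Finset.sum_eq_zero fun i _ => ?_
      rw [pd_zero_off (fun hq => hp (hφt hq)) i, zero_mul]
    rw [← setIntegral_eq_integral_of_forall_compl_eq_zero h0, ← integral_neg]
    have h1 : ∫ p in B n 4,
          -∑ i, pd i φ p * (sgM (u p - k) * gr u p ^ (n - 2) * pd i u p) ≤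
        ∫ p in B n 4, Real.exp (-(k / 4)) * (cph * (Real.exp (u p / 4) * gr u p ^ (n - 1))) := by
      refine setIntegral_mono_on hI1.neg.integrableOn
        (int_BM (continuous_const.mul hexpc) subset_rfl) (measurableSet_B _) fun p _ => ?_
      have h2 : ∑ i, pd i φ p * (sgM (u p - k) * gr u p ^ (n - 2) * pd i u p) =
          sgM (u p - k) * gr u p ^ (n - 2) * ∑ i, pd i φ p * pd i u p := by
        rw [Finset.mul_sum]
        refine Finset.sum_congr rfl fun i _ => ?_
        ring
      have h3 : -∑ i, pd i φ p * pd i u p ≤ cph * gr u p :=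
        (neg_le_abs _).trans ((abs_inner_le φ u p).trans
          (mul_le_mul_of_nonneg_right (hφg p) (gr_nonneg u p)))
      have hg0 : 0 ≤ gr u p := gr_nonneg u p
      have h4 : 0 ≤ sgM (u p - k) * gr u p ^ (n - 2) :=
        mul_nonneg (sgM_pos _).le (pow_nonneg hg0 _)
      have h6 : gr u p ^ (n - 1) = gr u p ^ (n - 2) * gr u p := by
        rw [← pow_succ]
        congr 1
        omega
      have h7 : sgM (u p - k) ≤ Real.exp (-(k / 4)) * Real.exp (u p / 4) := by
        refine (sgM_le _).trans (le_of_eq ?_)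
        rw [← Real.exp_add]
        congr 1
        ring
      rw [h2, h6]
      calc -(sgM (u p - k) * gr u p ^ (n - 2) * ∑ i, pd i φ p * pd i u p)
          = sgM (u p - k) * gr u p ^ (n - 2) * (-∑ i, pd i φ p * pd i u p) := by ring
        _ ≤ sgM (u p - k) * gr u p ^ (n - 2) * (cph * gr u p) :=
            mul_le_mul_of_nonneg_left h3 h4
        _ = sgM (u p - k) * (gr u p ^ (n - 2) * (cph * gr u p)) := by ring
        _ ≤ Real.exp (-(k / 4)) * Real.exp (u p / 4) * (gr u p ^ (n - 2) * (cph * gr u p)) :=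
            mul_le_mul_of_nonneg_right h7 (by positivity)
        _ = Real.exp (-(k / 4)) * (cph * (Real.exp (u p / 4) * (gr u p ^ (n - 2) * gr u p))) := by
            ring
    refine h1.trans ?_
    rw [integral_const_mul, integral_const_mul]
    have h8 := hG hD hz
    have h9 : 0 ≤ Real.exp (-(k / 4)) := (Real.exp_pos _).le
    calc Real.exp (-(k / 4)) * (cph * ∫ p in B n 4, Real.exp (u p / 4) * gr u p ^ (n - 1))
        ≤ Real.exp (-(k / 4)) * (cph * G) :=
          mul_le_mul_of_nonneg_left (mul_le_mul_of_nonneg_left h8 (by linarith)) h9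
      _ = cph * G * Real.exp (-(k / 4)) := by ring
  -- left side
  have hA2 : B n 3 ∩ {p | k ≤ u p ∧ u p ≤ k + 1} ⊆ B n 3 := Set.inter_subset_left
  have hgn : Continuous (fun p => gr u p ^ n) := hcgr.pow _
  have b4 : 1 / 12 * ∫ p in B n 3 ∩ {p | k ≤ u p ∧ u p ≤ k + 1}, gr u p ^ n ≤
      ∫ p, φ p * (wgM (u p - k) * gr u p ^ n) := by
    rw [← integral_const_mul]
    have h1 : ∫ p in B n 3 ∩ {p | k ≤ u p ∧ u p ≤ k + 1}, 1 / 12 * gr u p ^ n ≤
        ∫ p in B n 3 ∩ {p | k ≤ u p ∧ u p ≤ k + 1}, φ p * (wgM (u p - k) * gr u p ^ n) := by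
      refine setIntegral_mono_on ((int_BM hgn hA2).const_mul _) hI2.integrableOn
        (meas_layerM hD.smooth.continuous 3 k 1) fun p hp => ?_
      rw [hφd, ph_one (B_subset_Bc 3 hp.1), one_mul]
      exact mul_le_mul_of_nonneg_right (wgM_low (by linarith [hp.2.1]) (by linarith [hp.2.2]))
        (pow_nonneg (gr_nonneg u p) _)
    refine h1.trans (setIntegral_le_integral hI2 (Eventually.of_forall fun p => ?_))
    exact mul_nonneg (hφ0 p) (mul_nonneg (wgM_nonneg _) (pow_nonneg (gr_nonneg u p) _))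
  have hmu : 0 ≤ mu u (ph n) := mu_nonneg hD (ph_smooth n) (ph_cpt n) (ph_nonneg n)
  have hmul : mu u (ph n) ≤ cph * G * mu u (ph n) := by nlinarith
  rw [b0] at key
  have hfin : 1 / 12 * ∫ p in B n 3 ∩ {p | k ≤ u p ∧ u p ≤ k + 1}, gr u p ^ n ≤
      cph * G * (mu u (ph n) + Real.exp (-(k / 4))) := by
    rw [mul_add]
    linarith
  linarith

end

end Pool.Agent.Helper50.YF
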