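import Pool.Agent.Helper50.YF.Mn

/-!
# YF-23: the path lemma
-/

namespace Pool.Agent.Helper50.YF

open scoped ContDiff Topology NNReal
open Pool.Agent.Helper49.Ric Pool.Agent.Helper73.HB Pool.Agent.Helper50.CF
  Pool.Agent.Helper50.CE MeasureTheory Filter

noncomputable section

variable {n : ℕ} {u : (Fin n → ℝ) → ℝ}

private theorem sqrt_conf' (u : (Fin n → ℝ) → ℝ) (p w : Fin n → ℝ) :
    Real.sqrt (∑ i, ∑ j, conf u p i j * w i * w j) =
      Real.exp (u p) * Real.sqrt (∑ i, w i ^ 2) := by
  have h1 : ∑ i, ∑ j, conf u p i j * w i * w j = Real.exp (u p) ^ 2 * ∑ i, w i ^ 2 := by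
    rw [Finset.mul_sum]
    refine Finset.sum_congr rfl fun i _ => ?_
    unfold conf
    rw [Finset.sum_eq_single i]
    · simp only [Matrix.smul_apply, Matrix.one_apply_eq, smul_eq_mul, mul_one]
      rw [← Real.exp_nat_mul]
      push_cast
      ring
    · intro j _ hj
      simp [Matrix.one_apply_ne (Ne.symm hj)]
    · intro hi
      exact absurd (Finset.mem_univ i) hi
  rw [h1, Real.sqrt_mul (by positivity), Real.sqrt_sq (Real.exp_pos _).le]

private theorem psi_lip (hu : Continuous u) (b : Fin n → ℝ) {s t : ℝ} (h0 : 0 ≤ s) (h : s ≤ t) :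
    Psi u b t - Psi u b s ≤ Real.exp (u b) * (t - s) := by
  rw [psi_diff hu b h0 h]
  have h1 : ∫ x in s..t, Real.exp (mn u b x) ≤ ∫ _x in s..t, Real.exp (u b) := by
    refine intervalIntegral.integral_mono_on h (psi_intervalIntegrable hu b h0 (h0.trans h))
      intervalIntegrable_const fun x _ => ?_
    exact Real.exp_le_exp.2 (mn_le hu (mem_self b x))
  refine h1.trans (le_of_eq ?_)
  rw [intervalIntegral.integral_const, smul_eq_mul, mul_comm]

private theorem psi_hasDerivAt (hu : Continuous u) (b : Fin n → ℝ) {r : ℝ} (hr : 0 < r) :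
    HasDerivAt (Psi u b) (Real.exp (mn u b r)) r := by
  have hc : ContinuousOn (fun t => Real.exp (mn u b t)) (Set.Ici 0) :=
    (continuousOn_mn hu b).rexp
  have hc' : ContinuousOn (fun t => Real.exp (mn u b t)) (Set.Ioi 0) :=
    hc.mono Set.Ioi_subset_Ici_self
  exact intervalIntegral.integral_hasDerivAt_right (psi_intervalIntegrable hu b le_rfl hr.le)
    (hc'.stronglyMeasurableAtFilter isOpen_Ioi r hr) (hc.continuousAt (Ici_mem_nhds hr))

theorem psi_path (hu : ContDiff ℝ ∞ u) (b : Fin n → ℝ) {x y : Fin n → ℝ} {R : ℝ}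
    (hy : y ∈ GB u x R) : |Psi u b (CP.ed y b) - Psi u b (CP.ed x b)| ≤ R := by
  obtain ⟨γ, hγ, h0, h1, -, hlen⟩ := hy
  have hc := hu.continuous
  have hγd : ∀ t, HasDerivAt γ (deriv γ t) t := fun t =>
    ((hγ.differentiable one_ne_zero).differentiableAt).hasDerivAt
  have hγi : ∀ t i, HasDerivAt (fun t => γ t i) (deriv γ t i) t := fun t i =>
    (hasDerivAt_pi.1 (hγd t)) i
  have hγc : Continuous γ := hγ.continuous
  have hγ'c : Continuous (deriv γ) := hγ.continuous_deriv le_rfl
  have hL : curveLength (conf u) γ =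
      ∫ t in (0 : ℝ)..1, Real.exp (u (γ t)) * Real.sqrt (∑ i, deriv γ t i ^ 2) := by
    unfold curveLength
    simp only [sqrt_conf']
  refine le_of_forall_pos_le_add fun δ hδ => ?_
  set A : ℝ := Real.exp (u b) with hA
  have hA0 : 0 < A := Real.exp_pos _
  set ε : ℝ := δ / (2 * A) with hε
  have hε0 : 0 < ε := by positivity
  have hAε : A * ε = δ / 2 := by rw [hε]; field_simp
  set S : ℝ → ℝ := fun t => ∑ i, (γ t i - b i) ^ 2 with hS
  have hS0 : ∀ t, 0 ≤ S t := fun t => Finset.sum_nonneg fun i _ => sq_nonneg _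
  have hed : ∀ t, CP.ed (γ t) b = Real.sqrt (S t) := fun t => rfl
  set D : ℝ → ℝ := fun t => ∑ i, 2 * (γ t i - b i) * deriv γ t i with hD
  have hSd : ∀ t, HasDerivAt S (D t) t := by
    intro t
    have h2 : ∀ i ∈ (Finset.univ : Finset (Fin n)),
        HasDerivAt (fun t => (γ t i - b i) ^ 2) (2 * (γ t i - b i) * deriv γ t i) t := by
      intro i _
      have h3 := ((hγi t i).sub_const (b i)).fun_pow 2
      simpa using h3
    exact HasDerivAt.fun_sum h2
  set s : ℝ → ℝ := fun t => Real.sqrt (S t + ε ^ 2) with hs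
  have hspos : ∀ t, 0 < s t := fun t => Real.sqrt_pos.2 (by have := hS0 t; positivity)
  have hsd : ∀ t, HasDerivAt s (D t / (2 * s t)) t := fun t =>
    ((hSd t).add_const (ε ^ 2)).sqrt (by have := hS0 t; positivity)
  have hSc : Continuous S := by fun_prop
  have hsc : Continuous s := (hSc.add continuous_const).sqrt
  have hDc : Continuous D := by
    refine continuous_finsetSum _ fun i _ => ?_
    exact (continuous_const.mul (((continuous_apply i).comp hγc).sub continuous_const)).mul
      ((continuous_apply i).comp hγ'c)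
  set f' : ℝ → ℝ := fun t => Real.exp (mn u b (s t)) * (D t / (2 * s t)) with hf'
  have hf : ∀ t, HasDerivAt (fun t => Psi u b (s t)) (f' t) t := fun t =>
    (psi_hasDerivAt hc b (hspos t)).comp t (hsd t)
  have hfc : Continuous f' := by
    have h2 : Continuous (fun t => mn u b (s t)) :=
      (continuousOn_mn hc b).comp_continuous hsc fun t => (hspos t).le
    exact h2.rexp.mul (hDc.div (continuous_const.mul hsc) fun t => by
      have := hspos t
      positivity)
  have hsS : ∀ t, Real.sqrt (S t) ≤ s t := fun t =>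
    Real.sqrt_le_sqrt (by have := sq_nonneg ε; linarith)
  have hbd : ∀ t, |f' t| ≤ Real.exp (u (γ t)) * Real.sqrt (∑ i, deriv γ t i ^ 2) := by
    intro t
    have h2 : Real.exp (mn u b (s t)) ≤ Real.exp (u (γ t)) := by
      refine Real.exp_le_exp.2 ?_
      have h3 := mn_ed_le hc b (γ t)
      rw [hed] at h3
      exact (mn_anti hc b (Real.sqrt_nonneg _) (hsS t)).trans h3
    have h4 : |D t| ≤ 2 * (Real.sqrt (S t) * Real.sqrt (∑ i, deriv γ t i ^ 2)) := by
      have e : D t = 2 * ∑ i, (γ t i - b i) * deriv γ t i := by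
        rw [hD, Finset.mul_sum]
        exact Finset.sum_congr rfl fun i _ => by ring
      rw [e, abs_mul, abs_two]
      refine mul_le_mul_of_nonneg_left ?_ (by norm_num)
      have h5 := Finset.sum_mul_sq_le_sq_mul_sq (Finset.univ : Finset (Fin n))
        (fun i => γ t i - b i) (fun i => deriv γ t i)
      have h6 : (∑ i, (γ t i - b i) * deriv γ t i) ^ 2 ≤
          (Real.sqrt (S t) * Real.sqrt (∑ i, deriv γ t i ^ 2)) ^ 2 := by
        rw [mul_pow, Real.sq_sqrt (hS0 t),
          Real.sq_sqrt (Finset.sum_nonneg fun i _ => sq_nonneg _)]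
        exact h5
      exact abs_le_of_sq_le_sq h6 (by positivity)
    have h7 : |D t / (2 * s t)| ≤ Real.sqrt (∑ i, deriv γ t i ^ 2) := by
      have hsp := hspos t
      rw [abs_div, abs_of_pos (by positivity : 0 < 2 * s t), div_le_iff₀ (by positivity)]
      refine h4.trans ?_
      have h8 := mul_le_mul_of_nonneg_right (hsS t) (Real.sqrt_nonneg (∑ i, deriv γ t i ^ 2))
      linarith
    show |Real.exp (mn u b (s t)) * (D t / (2 * s t))| ≤ _
    rw [abs_mul, abs_of_pos (Real.exp_pos _)]
    exact mul_le_mul h2 h7 (abs_nonneg _) (Real.exp_pos _).le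
  have hint : Continuous (fun t => Real.exp (u (γ t)) * Real.sqrt (∑ i, deriv γ t i ^ 2)) := by
    refine (hc.comp hγc).rexp.mul (Continuous.sqrt ?_)
    exact continuous_finsetSum _ fun i _ => ((continuous_apply i).comp hγ'c).pow 2
  have hFTC : ∫ t in (0 : ℝ)..1, f' t = Psi u b (s 1) - Psi u b (s 0) :=
    intervalIntegral.integral_eq_sub_of_hasDerivAt (fun t _ => hf t) (hfc.intervalIntegrable _ _)
  have hmain : |Psi u b (s 1) - Psi u b (s 0)| ≤ R := by
    rw [← hFTC]
    refine (intervalIntegral.abs_integral_le_integral_abs zero_le_one).trans ?_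
    refine (intervalIntegral.integral_mono_on zero_le_one (hfc.abs.intervalIntegrable _ _)
      (hint.intervalIntegrable _ _) fun t _ => hbd t).trans ?_
    rw [← hL]
    exact hlen.le
  have hclose : ∀ t, |Psi u b (s t) - Psi u b (Real.sqrt (S t))| ≤ δ / 2 := by
    intro t
    have h2 := psi_lip hc b (Real.sqrt_nonneg (S t)) (hsS t)
    have h3 := psi_mono hc b (Real.sqrt_nonneg (S t)) (hsS t)
    have h4 : s t ≤ Real.sqrt (S t) + ε := by
      refine Real.sqrt_le_iff.2 ⟨by positivity, ?_⟩
      have h5 := Real.sq_sqrt (hS0 t)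
      nlinarith [Real.sqrt_nonneg (S t), mul_nonneg (Real.sqrt_nonneg (S t)) hε0.le]
    rw [abs_of_nonneg (by linarith)]
    have h5 : A * (s t - Real.sqrt (S t)) ≤ A * ε :=
      mul_le_mul_of_nonneg_left (by linarith) hA0.le
    linarith
  rw [← h0, ← h1, hed, hed]
  have c0 := abs_le.1 (hclose 0)
  have c1 := abs_le.1 (hclose 1)
  have c2 := abs_le.1 hmain
  rw [abs_le]
  constructor
  · linarith [c0.1, c0.2, c1.1, c1.2, c2.1, c2.2]
  · linarith [c0.1, c0.2, c1.1, c1.2, c2.1, c2.2]

end

end Pool.Agent.Helper50.YF
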