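import Pool.Agent.Helper50.YF.RayU
import Pool.Agent.Helper50.YF.Path

/-!
# YF-31: the rays: metric completeness

`exists_ray`: some ray of the cone has finite length.  `complete_false`: then the points `a + 2^k q`
are a Cauchy sequence of the Riemannian distance without limit.
-/

namespace Pool.Agent.Helper50.YF

open scoped ContDiff Topology NNReal
open Pool.Agent.Helper49.Ric Pool.Agent.Helper73.HB Pool.Agent.Helper50.CF
  Pool.Agent.Helper50.CE MeasureTheory Filter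

noncomputable section

variable {n : ℕ} {u : (Fin n → ℝ) → ℝ}

theorem cont_ray (hu : Continuous u) (a : Fin n → ℝ) (T : ℝ) :
    Continuous (fun q : Fin n → ℝ => ∫ t in (0 : ℝ)..T, Real.exp (u (a + t • q))) := by
  have h1 : Continuous (Function.uncurry fun (q : Fin n → ℝ) (t : ℝ) =>
      Real.exp (u (a + t • q))) := by
    unfold Function.uncurry
    exact Real.continuous_exp.comp (hu.comp (by fun_prop))
  exact intervalIntegral.continuous_parametric_intervalIntegral_of_continuous' h1 0 T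

theorem ray_ii (hu : Continuous u) (a q : Fin n → ℝ) (s t : ℝ) :
    IntervalIntegrable (fun t : ℝ => Real.exp (u (a + t • q))) volume s t :=
  (Real.continuous_exp.comp (hu.comp (by fun_prop))).intervalIntegrable s t

theorem ray_mono (hu : Continuous u) (a q : Fin n → ℝ) {s t : ℝ} (h : s ≤ t) :
    ∫ t in (0 : ℝ)..s, Real.exp (u (a + t • q)) ≤ ∫ t in (0 : ℝ)..t, Real.exp (u (a + t • q)) := by
  have h1 := intervalIntegral.integral_interval_sub_left (ray_ii hu a q 0 t) (ray_ii hu a q 0 s)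
  have h2 : 0 ≤ ∫ x in s..t, Real.exp (u (a + x • q)) :=
    intervalIntegral.integral_nonneg h fun _ _ => (Real.exp_pos _).le
  linarith

/-- some ray of the cone has finite length -/
theorem exists_ray (i₀ : Fin n) (hu : ContDiff ℝ ∞ u) (a : Fin n → ℝ) {A δ R₀ : ℝ}
    (hδ : 0 < δ) (hA : ∀ R : ℝ, R₀ ≤ R →
      ∫ p in eball a R, Real.exp (u p) ≤ A * R ^ n * R ^ (-(1 + δ) : ℝ)) :
    ∃ q ∈ Qs i₀, ∃ L : ℝ, ∀ N : ℕ, ∫ t in (0 : ℝ)..2 ^ N, Real.exp (u (a + t • q)) ≤ L := by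
  obtain ⟨K, hK⟩ := ray_upper i₀ hu a hδ hA
  by_contra hcon
  push Not at hcon
  set F : ℕ → (Fin n → ℝ) → ℝ := fun N q =>
    ∫ t in (0 : ℝ)..2 ^ N, Real.exp (u (a + t • q)) with hF
  have hFc : ∀ N, Continuous (F N) := fun N => cont_ray hu.continuous a _
  have hQo : IsOpen (Qs i₀) := CP.isOpen_eball _ _
  have hQm : MeasurableSet (Qs i₀) := hQo.measurableSet
  have hQne : (Qs i₀).Nonempty := ⟨Pi.single i₀ 2, by
    show ∑ i, ((Pi.single i₀ 2 : Fin n → ℝ) i - (Pi.single i₀ 2 : Fin n → ℝ) i) ^ 2 < 1 ^ 2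
    simp⟩
  have hQpos : 0 < volume (Qs i₀) := hQo.measure_pos volume hQne
  have hQK : Qs i₀ ⊆ ecball (Pi.single i₀ 2) 1 := CP.eball_subset_ecball' _ _
  have hQfin : volume (Qs i₀) < ⊤ :=
    (measure_mono hQK).trans_lt (CP.isCompact_ecball' _ _).measure_lt_top
  set v := volume.real (Qs i₀) with hv
  have hvpos : 0 < v := ENNReal.toReal_pos hQpos.ne' hQfin.ne
  have hFi : ∀ N, IntegrableOn (F N) (Qs i₀) := fun N =>
    int_on (hFc N) (CP.isCompact_ecball' _ _) hQK
  have hF0 : ∀ N q, 0 ≤ F N q := fun N q =>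
    intervalIntegral.integral_nonneg (by positivity) fun _ _ => (Real.exp_pos _).le
  -- the level
  set L := 2 * (|K| + 1) / v with hL
  have hLpos : 0 < L := by positivity
  set S : ℕ → Set (Fin n → ℝ) := fun N => Qs i₀ ∩ {q | L < F N q} with hS
  have hSmono : Monotone S := by
    intro N M hNM q hq
    have h0 : L < F N q := hq.2
    have h1 : F N q ≤ F M q :=
      ray_mono hu.continuous a q (pow_le_pow_right₀ (by norm_num) hNM)
    exact ⟨hq.1, h0.trans_le h1⟩
  have hSU : ⋃ N, S N = Qs i₀ := by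
    ext q
    simp only [Set.mem_iUnion]
    constructor
    · rintro ⟨N, hN⟩; exact hN.1
    · intro hq
      obtain ⟨N, hN⟩ := hcon q hq L
      exact ⟨N, hq, hN⟩
  have ht := tendsto_measure_iUnion_atTop (μ := volume) hSmono
  rw [hSU] at ht
  have ht' : Tendsto (fun N => volume.real (S N)) atTop (𝓝 v) :=
    (ENNReal.tendsto_toReal hQfin.ne).comp ht
  obtain ⟨N, hN⟩ := (ht'.eventually (lt_mem_nhds (show v / 2 < v by linarith))).exists
  have hSm : MeasurableSet (S N) :=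
    hQm.inter (measurableSet_lt measurable_const (hFc N).measurable)
  have h1 : L * volume.real (S N) ≤ ∫ q in S N, F N q := by
    have h2 : ∫ _q in S N, L = L * volume.real (S N) := by
      rw [setIntegral_const, smul_eq_mul, mul_comm]
    rw [← h2]
    refine setIntegral_mono_on ?_ ((hFi N).mono_set Set.inter_subset_left) hSm
      fun q hq => hq.2.le
    exact integrableOn_const ((measure_mono Set.inter_subset_left).trans_lt hQfin).ne
  have h3 : ∫ q in S N, F N q ≤ ∫ q in Qs i₀, F N q :=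
    setIntegral_mono_set (hFi N) (Filter.Eventually.of_forall fun q => hF0 N q)
      (Filter.Eventually.of_forall Set.inter_subset_left)
  have h4 := hK N
  have h5 : L * (v / 2) < L * volume.real (S N) := mul_lt_mul_of_pos_left hN hLpos
  have h6 : L * (v / 2) = |K| + 1 := by rw [hL]; field_simp
  have h7 := le_abs_self K
  have h8 : ∫ q in Qs i₀, F N q ≤ K := h4
  linarith

/-- the square root of the metric on a vector -/
theorem sqrt_conf (u : (Fin n → ℝ) → ℝ) (p w : Fin n → ℝ) :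
    Real.sqrt (∑ i, ∑ j, conf u p i j * w i * w j) =
      Real.exp (u p) * Real.sqrt (∑ i, w i ^ 2) := by
  have h1 : ∑ i, ∑ j, conf u p i j * w i * w j = Real.exp (u p) ^ 2 * ∑ i, w i ^ 2 := by
    rw [Finset.mul_sum]
    refine Finset.sum_congr rfl fun i _ => ?_
    unfold conf
    rw [Finset.sum_eq_single i]
    · simp only [Matrix.smul_apply, Matrix.one_apply_eq, smul_eq_mul, mul_one]
      rw [← Real.exp_nat_mul]
      push_cast
      ring
    · intro j _ hj
      simp [Matrix.one_apply_ne (Ne.symm hj)]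
    · intro hi
      exact absurd (Finset.mem_univ i) hi
  rw [h1, Real.sqrt_mul (by positivity), Real.sqrt_sq (Real.exp_pos _).le]

theorem curveLength_nonneg (G : (Fin n → ℝ) → Matrix (Fin n) (Fin n) ℝ) (γ : ℝ → Fin n → ℝ) :
    0 ≤ curveLength G γ := by
  unfold curveLength
  exact intervalIntegral.integral_nonneg zero_le_one fun _ _ => Real.sqrt_nonneg _

/-- the length of a piece of a ray -/
theorem seg_length (hu : Continuous u) (a q : Fin n → ℝ) (T₁ T₂ : ℝ) :
    curveLength (conf u) (fun s : ℝ => a + (T₁ + s * (T₂ - T₁)) • q) =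
      |T₂ - T₁| * Real.sqrt (∑ i, q i ^ 2) *
        ∫ s in (0 : ℝ)..1, Real.exp (u (a + (T₁ + s * (T₂ - T₁)) • q)) := by
  have hd : ∀ t : ℝ, deriv (fun s : ℝ => a + (T₁ + s * (T₂ - T₁)) • q) t = (T₂ - T₁) • q := by
    intro t
    have h1 : HasDerivAt (fun s : ℝ => T₁ + s * (T₂ - T₁)) (T₂ - T₁) t := by
      simpa using ((hasDerivAt_id t).mul_const (T₂ - T₁)).const_add T₁
    have h2 := (h1.smul_const q).const_add a
    exact h2.deriv
  unfold curveLength
  rw [← intervalIntegral.integral_const_mul]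
  refine intervalIntegral.integral_congr fun s _ => ?_
  simp only [hd]
  rw [sqrt_conf]
  have h3 : Real.sqrt (∑ i, ((T₂ - T₁) • q) i ^ 2) = |T₂ - T₁| * Real.sqrt (∑ i, q i ^ 2) := by
    have h4 : ∑ i, ((T₂ - T₁) • q) i ^ 2 = (T₂ - T₁) ^ 2 * ∑ i, q i ^ 2 := by
      rw [Finset.mul_sum]
      refine Finset.sum_congr rfl fun i _ => ?_
      simp only [Pi.smul_apply, smul_eq_mul]
      ring
    rw [h4, Real.sqrt_mul (by positivity), Real.sqrt_sq_eq_abs]
  rw [h3]
  ring

theorem seg_length' (hu : Continuous u) (a q : Fin n → ℝ) (T₁ T₂ : ℝ) :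
    curveLength (conf u) (fun s : ℝ => a + (T₁ + s * (T₂ - T₁)) • q) =
      Real.sqrt (∑ i, q i ^ 2) * |(∫ t in (0 : ℝ)..T₂, Real.exp (u (a + t • q))) -
        ∫ t in (0 : ℝ)..T₁, Real.exp (u (a + t • q))| := by
  rw [seg_length hu, intervalIntegral.integral_interval_sub_left (ray_ii hu a q 0 T₂)
    (ray_ii hu a q 0 T₁)]
  have h1 : (T₂ - T₁) * ∫ s in (0 : ℝ)..1, Real.exp (u (a + (T₁ + s * (T₂ - T₁)) • q)) =
      ∫ t in T₁..T₂, Real.exp (u (a + t • q)) := by
    have h2 := intervalIntegral.mul_integral_comp_mul_add (a := (0 : ℝ)) (b := 1)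
      (f := fun t : ℝ => Real.exp (u (a + t • q))) (T₂ - T₁) T₁
    have e1 : (T₂ - T₁) * 0 + T₁ = T₁ := by ring
    have e2 : (T₂ - T₁) * 1 + T₁ = T₂ := by ring
    rw [e1, e2] at h2
    rw [← h2]
    congr 1
    refine intervalIntegral.integral_congr fun s _ => ?_
    have e3 : T₁ + s * (T₂ - T₁) = (T₂ - T₁) * s + T₁ := by ring
    simp only [e3]
  rw [← h1, abs_mul]
  have h3 : 0 ≤ ∫ s in (0 : ℝ)..1, Real.exp (u (a + (T₁ + s * (T₂ - T₁)) • q)) :=
    intervalIntegral.integral_nonneg zero_le_one fun _ _ => (Real.exp_pos _).le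
  rw [abs_of_nonneg h3]
  ring

/-- a lower bound for the Riemannian distance -/
theorem psi_le_rdist (hu : ContDiff ℝ ∞ u) (x p : Fin n → ℝ) :
    Psi u p (CP.ed x p) ≤ rdist (conf u) x p := by
  unfold rdist
  refine le_csInf ?_ ?_
  · refine ⟨_, fun s : ℝ => x + s • (p - x), by fun_prop, by simp, by simp, rfl⟩
  · rintro ℓ ⟨γ, hγ, h0, h1, rfl⟩
    refine le_of_forall_pos_le_add fun ε hε => ?_
    have hy : p ∈ GB u x (curveLength (conf u) γ + ε) :=
      ⟨γ, hγ, h0, h1, fun _ _ => Set.mem_univ _, by linarith⟩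
    have h2 := psi_path hu p hy
    have h3 : CP.ed p p = 0 := by
      unfold CP.ed
      simp
    rw [h3, psi_zero, zero_sub, abs_neg] at h2
    exact (le_abs_self _).trans h2

theorem rdist_le (G : (Fin n → ℝ) → Matrix (Fin n) (Fin n) ℝ) {γ : ℝ → Fin n → ℝ}
    (hγ : ContDiff ℝ 1 γ) : rdist G (γ 0) (γ 1) ≤ curveLength G γ := by
  refine csInf_le ⟨0, ?_⟩ ⟨γ, hγ, rfl, rfl, rfl⟩
  rintro ℓ ⟨γ', _, _, _, rfl⟩
  exact curveLength_nonneg G γ'

theorem complete_false (i₀ : Fin n) (hu : ContDiff ℝ ∞ u) (hc : IsCompleteMetric (conf u))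
    (a : Fin n → ℝ) {A δ R₀ : ℝ} (hδ : 0 < δ) (hA : ∀ R : ℝ, R₀ ≤ R →
      ∫ p in eball a R, Real.exp (u p) ≤ A * R ^ n * R ^ (-(1 + δ) : ℝ)) : False := by
  obtain ⟨q, hq, L, hL⟩ := exists_ray i₀ hu a hδ hA
  set F : ℕ → ℝ := fun N => ∫ t in (0 : ℝ)..2 ^ N, Real.exp (u (a + t • q)) with hF
  have hFm : Monotone F := fun N M h =>
    ray_mono hu.continuous a q (pow_le_pow_right₀ (by norm_num) h)
  have hFb : BddAbove (Set.range F) := ⟨L, by rintro _ ⟨N, rfl⟩; exact hL N⟩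
  have hFt := tendsto_atTop_ciSup hFm hFb
  have hFc : CauchySeq F := hFt.cauchySeq
  rw [Metric.cauchySeq_iff] at hFc
  set Q := Real.sqrt (∑ i, q i ^ 2) with hQ
  have hQ0 : 0 ≤ Q := Real.sqrt_nonneg _
  set s : ℕ → Fin n → ℝ := fun N => a + (2 : ℝ) ^ N • q with hs
  obtain ⟨p, hp⟩ := hc s (by
    intro ε hε
    obtain ⟨N, hN⟩ := hFc (ε / (Q + 1)) (by positivity)
    refine ⟨N, fun k hk l hl => ?_⟩
    have h1 := hN l hl k hk
    rw [Real.dist_eq] at h1
    have h2 := seg_length' hu.continuous a q (2 ^ k) (2 ^ l)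
    have h3 := rdist_le (conf u)
      (γ := fun t : ℝ => a + ((2 : ℝ) ^ k + t * ((2 : ℝ) ^ l - 2 ^ k)) • q) (by fun_prop)
    have e1 : a + ((2 : ℝ) ^ k + 0 * ((2 : ℝ) ^ l - 2 ^ k)) • q = s k := by
      simp [hs]
    have e2 : a + ((2 : ℝ) ^ k + 1 * ((2 : ℝ) ^ l - 2 ^ k)) • q = s l := by
      simp [hs]
    rw [e1, e2] at h3
    refine lt_of_le_of_lt h3 ?_
    rw [h2]
    have h4 : Q * |F l - F k| ≤ Q * (ε / (Q + 1)) := mul_le_mul_of_nonneg_left h1.le hQ0
    refine lt_of_le_of_lt h4 ?_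
    rw [mul_div_assoc', div_lt_iff₀ (by positivity)]
    nlinarith)
  -- the points leave every ball about `p`
  have hfar : ∀ᶠ N in atTop, 1 ≤ CP.ed (s N) p := by
    have hq1 : 1 < |q i₀| := by
      have h1 : ∑ i, (q i - (Pi.single i₀ 2 : Fin n → ℝ) i) ^ 2 < 1 ^ 2 := hq
      have h2 : (q i₀ - 2) ^ 2 ≤ ∑ i, (q i - (Pi.single i₀ 2 : Fin n → ℝ) i) ^ 2 := by
        have := Finset.single_le_sum
          (f := fun i => (q i - (Pi.single i₀ 2 : Fin n → ℝ) i) ^ 2)
          (fun i _ => sq_nonneg _) (Finset.mem_univ i₀)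
        simpa using this
      have h3 : (q i₀ - 2) ^ 2 < 1 := by linarith
      have h4 : 1 < q i₀ := by nlinarith
      exact lt_of_lt_of_le h4 (le_abs_self _)
    obtain ⟨N₀, hN₀⟩ : ∃ N₀ : ℕ, |p i₀ - a i₀| + 1 < 2 ^ N₀ :=
      pow_unbounded_of_one_lt _ (by norm_num)
    filter_upwards [eventually_ge_atTop N₀] with N hN
    have h1 : (s N i₀ - p i₀) ^ 2 ≤ ∑ i, (s N i - p i) ^ 2 :=
      Finset.single_le_sum (f := fun i => (s N i - p i) ^ 2) (fun i _ => sq_nonneg _)
        (Finset.mem_univ i₀)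
    have h2 : |s N i₀ - p i₀| ≤ CP.ed (s N) p := by
      unfold CP.ed
      exact Real.abs_le_sqrt h1
    refine le_trans ?_ h2
    have h3 : (2 : ℝ) ^ N₀ ≤ 2 ^ N := pow_le_pow_right₀ (by norm_num) hN
    have h4 : s N i₀ - p i₀ = 2 ^ N * q i₀ - (p i₀ - a i₀) := by
      simp only [hs, Pi.add_apply, Pi.smul_apply, smul_eq_mul]
      ring
    have h5 : (2 : ℝ) ^ N ≤ |(2 : ℝ) ^ N * q i₀| := by
      rw [abs_mul, abs_of_pos (by positivity : (0 : ℝ) < 2 ^ N)]
      nlinarith [show (0 : ℝ) < 2 ^ N by positivity]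
    have h6 : |(2 : ℝ) ^ N * q i₀| ≤ |2 ^ N * q i₀ - (p i₀ - a i₀)| + |p i₀ - a i₀| := by
      have := abs_add_le ((2 : ℝ) ^ N * q i₀ - (p i₀ - a i₀)) (p i₀ - a i₀)
      rwa [sub_add_cancel] at this
    rw [h4]
    linarith
  have hpos : 0 < Psi u p 1 :=
    lt_of_lt_of_le (dd_pos u p one_pos) (dd_le_psi hu.continuous p zero_le_one)
  have hge : ∀ᶠ N in atTop, Psi u p 1 ≤ rdist (conf u) (s N) p := by
    filter_upwards [hfar] with N hN
    exact (psi_mono hu.continuous p zero_le_one hN).trans (psi_le_rdist hu _ _)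
  have := ge_of_tendsto hp hge
  linarith

end

end Pool.Agent.Helper50.YF
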