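import Pool.Agent.Helper50.YF.Mn

/-!
# YF-16: rescaling `re u z r c = u(z + r ·) + c`

PROOF. `CF.pd_dil` (with `c = 1`): `pd i (re u z r c) x = r pd i u (z + r x)`, so `gs`, `lp` get the
factor `r²`, `hq` the factor `r⁴` (`CF.gs_resc`, `CF.lp_resc`, `CF.hq_resc`), `gr` the factor `r`.
`mu_re`: `pd i (ph n) x = r pd i (phs z r) (z + r x)` (`pd_affine`), the integrand of
`mu (re u z r c) (ph n)` at `x` is `r^n` times that of `ms u z r` at `z + r x` (`n ≥ 2`), and
`CF.integral_dil`.  `sc_re`, `exp_re`: `CF.setIntegral_dil`.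
-/

namespace Pool.Agent.Helper50.YF

open scoped ContDiff Topology NNReal
open Pool.Agent.Helper49.Ric Pool.Agent.Helper73.HB Pool.Agent.Helper50.CF
  Pool.Agent.Helper50.CE MeasureTheory Filter

noncomputable section

variable {n : ℕ} {u : (Fin n → ℝ) → ℝ}

private theorem re_eq (u : (Fin n → ℝ) → ℝ) (z : Fin n → ℝ) (r c : ℝ) :
    re u z r c = fun x => 1 * u (z + r • x) + c := by
  funext x
  unfold re
  rw [one_mul]

private theorem gs_re (u : (Fin n → ℝ) → ℝ) (z : Fin n → ℝ) (r c : ℝ) (x : Fin n → ℝ) :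
    gs (re u z r c) x = r ^ 2 * gs u (z + r • x) := by
  rw [re_eq]
  exact CF.gs_resc u z r c x

private theorem lp_re (u : (Fin n → ℝ) → ℝ) (z : Fin n → ℝ) (r c : ℝ) (x : Fin n → ℝ) :
    lp (re u z r c) x = r ^ 2 * lp u (z + r • x) := by
  rw [re_eq]
  exact CF.lp_resc u z r c x

private theorem hq_re (u : (Fin n → ℝ) → ℝ) (z : Fin n → ℝ) (r c : ℝ) (x : Fin n → ℝ) :
    hq (re u z r c) x = r ^ 4 * hq u (z + r • x) := by
  rw [re_eq]
  exact CF.hq_resc u z r c x

private theorem gr_re (u : (Fin n → ℝ) → ℝ) (z : Fin n → ℝ) {r : ℝ} (hr : 0 < r) (c : ℝ)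
    (x : Fin n → ℝ) : gr (re u z r c) x = r * gr u (z + r • x) := by
  unfold gr
  rw [gs_re, Real.sqrt_mul (by positivity), Real.sqrt_sq hr.le]

private theorem pd_re (u : (Fin n → ℝ) → ℝ) (z : Fin n → ℝ) (r c : ℝ) (i : Fin n)
    (x : Fin n → ℝ) : pd i (re u z r c) x = r * pd i u (z + r • x) := by
  rw [re_eq, CF.pd_dil, one_mul]

theorem flat_re (h : Flat n u) (z : Fin n → ℝ) {r : ℝ} (hr : 0 < r) (c : ℝ) :
    Flat n (re u z r c) := by
  refine ⟨h.hn, ?_, fun p => ?_, fun p => ?_⟩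
  · have h1 : ContDiff ℝ ∞ (fun x : Fin n → ℝ => z + r • x) := by fun_prop
    exact (h.smooth.comp h1).add contDiff_const
  · rw [lp_re, gs_re]
    have h1 := mul_le_mul_of_nonneg_left (h.P1 (z + r • p)) (sq_nonneg r)
    linarith
  · rw [lp_re, gs_re, hq_re]
    have h1 := mul_nonpos_of_nonneg_of_nonpos (by positivity : (0 : ℝ) ≤ r ^ 4)
      (h.P2 (z + r • p))
    have h2 : ((n : ℝ) - 2) * (r ^ 4 * hq u (z + r • p)) +
        r ^ 2 * lp u (z + r • p) * (r ^ 2 * gs u (z + r • p)) =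
        r ^ 4 * (((n : ℝ) - 2) * hq u (z + r • p) + lp u (z + r • p) * gs u (z + r • p)) := by
      ring
    rw [h2]
    exact h1

theorem mu_re (hn : 2 ≤ n) (u : (Fin n → ℝ) → ℝ) (z : Fin n → ℝ) {r : ℝ} (hr : 0 < r) (c : ℝ) :
    mu (re u z r c) (ph n) = ms u z r := by
  unfold ms mu
  have hr0 : r ≠ 0 := hr.ne'
  have h1 : ∀ x : Fin n → ℝ, gr (re u z r c) x ^ (n - 2) *
      ∑ i, pd i (ph n) x * pd i (re u z r c) x =
      r ^ n * (fun p => gr u p ^ (n - 2) * ∑ i, pd i (phs z r) p * pd i u p) (z + r • x) := by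
    intro x
    have h2 : ∀ i, pd i (phs z r) (z + r • x) = r⁻¹ * pd i (ph n) x := by
      intro i
      have h3 := pd_affine (ph n) z r i (z + r • x)
      have h4 : r⁻¹ • (z + r • x - z) = x := by
        rw [add_sub_cancel_left, smul_smul, inv_mul_cancel₀ hr0, one_smul]
      rw [h4] at h3
      exact h3
    show _ = r ^ n * (gr u (z + r • x) ^ (n - 2) *
      ∑ i, pd i (phs z r) (z + r • x) * pd i u (z + r • x))
    have h5 : ∑ i, pd i (ph n) x * pd i (re u z r c) x =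
        r ^ 2 * ∑ i, pd i (phs z r) (z + r • x) * pd i u (z + r • x) := by
      rw [Finset.mul_sum]
      refine Finset.sum_congr rfl fun i _ => ?_
      rw [pd_re, h2]
      field_simp
    rw [h5, gr_re u z hr, mul_pow]
    have h6 : r ^ n = r ^ (n - 2) * r ^ 2 := by
      rw [← pow_add, Nat.sub_add_cancel hn]
    rw [h6]
    ring
  have h7 := CF.integral_dil
    (fun p => gr u p ^ (n - 2) * ∑ i, pd i (phs z r) p * pd i u p) z hr
  rw [integral_congr_ae (Eventually.of_forall h1), integral_const_mul, h7, ← mul_assoc,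
    mul_inv_cancel₀ (pow_pos hr n).ne', one_mul]

theorem sc_re (u : (Fin n → ℝ) → ℝ) (z : Fin n → ℝ) {r : ℝ} (hr : 0 < r) (c : ℝ) :
    r ^ n * ∫ x in B n 1, sc (re u z r c) x =
      r ^ 2 * Real.exp ((n - 2) * c) * ∫ p in eball z r, sc u p := by
  have h1 : ∀ x : Fin n → ℝ, sc (re u z r c) x =
      r ^ 2 * Real.exp ((n - 2) * c) * sc u (z + r • x) := by
    intro x
    unfold sc
    rw [lp_re, gs_re]
    have e : Real.exp (((n : ℝ) - 2) * re u z r c x) =
        Real.exp (((n : ℝ) - 2) * u (z + r • x)) * Real.exp (((n : ℝ) - 2) * c) := by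
      rw [← Real.exp_add]
      unfold re
      congr 1
      ring
    rw [e]
    ring
  rw [integral_congr_ae (Eventually.of_forall h1), integral_const_mul,
    CF.setIntegral_dil (sc u) z hr 1, one_mul]
  have h3 : r ^ n ≠ 0 := (pow_pos hr n).ne'
  field_simp

theorem exp_re (u : (Fin n → ℝ) → ℝ) (z : Fin n → ℝ) {r : ℝ} (hr : 0 < r) (c : ℝ) :
    r ^ n * ∫ x in B n 1, Real.exp (re u z r c x) =
      Real.exp c * ∫ p in eball z r, Real.exp (u p) := by
  have h1 : ∀ x : Fin n → ℝ, Real.exp (re u z r c x) =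
      Real.exp c * (fun p => Real.exp (u p)) (z + r • x) := by
    intro x
    show Real.exp (u (z + r • x) + c) = Real.exp c * Real.exp (u (z + r • x))
    rw [Real.exp_add, mul_comm]
  rw [integral_congr_ae (Eventually.of_forall h1), integral_const_mul,
    CF.setIntegral_dil (fun p => Real.exp (u p)) z hr 1, one_mul]
  have h3 : r ^ n ≠ 0 := (pow_pos hr n).ne'
  field_simp

/-- normalisation: `re u z r (-mn u z (s r))` vanishes somewhere on `Bc n s` -/
theorem re_zero (hu : Continuous u) (z : Fin n → ℝ) {r s : ℝ} (hr : 0 < r) (hs : 0 ≤ s) :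
    ∃ x ∈ Bc n s, re u z r (-mn u z (s * r)) x = 0 := by
  have _ := hs
  obtain ⟨p, hp, hm⟩ := exists_mn hu z (s * r)
  have hr0 : r ≠ 0 := hr.ne'
  refine ⟨r⁻¹ • (p - z), ?_, ?_⟩
  · have h1 : ∑ i, (p i - z i) ^ 2 ≤ (s * r) ^ 2 := hp
    show ∑ i, ((r⁻¹ • (p - z)) i) ^ 2 ≤ s ^ 2
    rw [sum_sq_smul]
    calc (r⁻¹) ^ 2 * ∑ i, (p i - z i) ^ 2 ≤ (r⁻¹) ^ 2 * (s * r) ^ 2 :=
          mul_le_mul_of_nonneg_left h1 (by positivity)
      _ = s ^ 2 := by field_simp
  · unfold re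
    have h2 : z + r • (r⁻¹ • (p - z)) = p := by
      rw [smul_smul, mul_inv_cancel₀ hr0, one_smul]
      abel
    rw [h2, hm]
    ring

end

end Pool.Agent.Helper50.YF
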