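import Pool.Agent.Helper50.YF.WHu
import Pool.Agent.Helper50.YF.Resc

/-!
# YF-19: `∫_{eball a R} e^u ≤ C R^n e^{mn u a R}` (assembly: `exists_whu` and rescaling)
-/

namespace Pool.Agent.Helper50.YF

open scoped ContDiff Topology NNReal
open Pool.Agent.Helper49.Ric Pool.Agent.Helper73.HB Pool.Agent.Helper50.CF
  Pool.Agent.Helper50.CE MeasureTheory Filter

noncomputable section

variable {n : ℕ} {u : (Fin n → ℝ) → ℝ}

theorem exists_wh (n : ℕ) (hn : 3 ≤ n) : ∃ C : ℝ, 1 ≤ C ∧ ∀ {u : (Fin n → ℝ) → ℝ},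
    Flat n u → ∀ (a : Fin n → ℝ) {R : ℝ}, 0 < R →
      ∫ p in eball a R, Real.exp (u p) ≤ C * R ^ n * Real.exp (mn u a R) := by
  obtain ⟨C, hC, h⟩ := exists_whu n hn
  refine ⟨C, hC, fun {u} hu a R hR => ?_⟩
  have hf := flat_re hu a hR (-mn u a (1 * R))
  obtain ⟨x, hx, hx0⟩ := re_zero hu.smooth.continuous a hR (s := 1) zero_le_one
  have h1 := h hf ⟨x, hx, hx0.le⟩
  have h2 := exp_re u a hR (-mn u a (1 * R))
  rw [one_mul] at h1 h2
  have h3 : R ^ n * ∫ x in B n 1, Real.exp (re u a R (-mn u a R) x) ≤ R ^ n * C :=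
    mul_le_mul_of_nonneg_left h1 (by positivity)
  rw [h2] at h3
  have h4 : Real.exp (mn u a R) * (Real.exp (-mn u a R) * ∫ p in eball a R, Real.exp (u p)) ≤
      Real.exp (mn u a R) * (R ^ n * C) := mul_le_mul_of_nonneg_left h3 (Real.exp_pos _).le
  rw [← mul_assoc, ← Real.exp_add, add_neg_cancel, Real.exp_zero, one_mul] at h4
  linarith [h4, show Real.exp (mn u a R) * (R ^ n * C) = C * R ^ n * Real.exp (mn u a R) by ring]

end

end Pool.Agent.Helper50.YF
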