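import Pool.Agent.Helper50.YF.Three
import Pool.Agent.Helper50.YF.WH
import Pool.Agent.Helper50.YF.RayC

/-!
# YF-32: `D_a(r) = r e^{mn u a r}` is nondecreasing (metrically complete metrics); geodesic balls
are then relatively compact
-/

namespace Pool.Agent.Helper50.YF

open scoped ContDiff Topology NNReal
open Pool.Agent.Helper49.Ric Pool.Agent.Helper73.HB Pool.Agent.Helper50.CF
  Pool.Agent.Helper50.CE MeasureTheory Filter

noncomputable section

variable {n : ℕ} {u : (Fin n → ℝ) → ℝ}

theorem mon_of (h : Flat n u) (hF : ∀ (a : Fin n → ℝ) {A δ R₀ : ℝ}, 0 < δ →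
    (∀ R : ℝ, R₀ ≤ R →
      ∫ p in eball a R, Real.exp (u p) ≤ A * R ^ n * R ^ (-(1 + δ) : ℝ)) → False) : Mon u := by
  intro a r s hr hrs
  by_contra hlt
  push Not at hlt
  obtain ⟨C, hC, hwh⟩ := exists_wh n h.hn
  have hs : 0 < s := hr.trans_le hrs
  have hne : r ≠ s := by
    rintro rfl
    exact lt_irrefl _ hlt
  have hrs' : r < s := lt_of_le_of_ne hrs hne
  set l := Real.log (s / r) with hl
  have hl0 : 0 < l := Real.log_pos (by rw [one_lt_div hr]; exact hrs')
  have h1 : Real.log s + mn u a s < Real.log r + mn u a r := by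
    have h2 := Real.log_lt_log (dd_pos u a hs) hlt
    unfold dd at h2
    rwa [Real.log_mul hs.ne' (Real.exp_pos _).ne', Real.log_exp,
      Real.log_mul hr.ne' (Real.exp_pos _).ne', Real.log_exp] at h2
  have hl1 : l = Real.log s - Real.log r := Real.log_div hs.ne' hr.ne'
  set κ := (mn u a r - mn u a s) / l with hκ
  have hκ1 : 1 < κ := by
    rw [hκ, one_lt_div hl0]
    linarith
  have hκl : κ * l = mn u a r - mn u a s := by
    rw [hκ]; field_simp
  refine hF a (A := C * Real.exp (mn u a s) * s ^ κ) (δ := κ - 1) (R₀ := 2 * s)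
    (by linarith) fun R hR => ?_
  have hsR : s < R := by linarith
  have hR0 : 0 < R := hs.trans hsR
  have h3 := three_circles h a hr hrs' hsR
  have e1 : Real.log (R / r) = Real.log (R / s) + l := by
    rw [hl1, Real.log_div hR0.ne' hr.ne', Real.log_div hR0.ne' hs.ne']; ring
  rw [e1, ← hl] at h3
  have h4 : mn u a R ≤ mn u a s - κ * Real.log (R / s) := by
    have h5 : mn u a R * l ≤ (mn u a s - κ * Real.log (R / s)) * l := by
      have h6 : (mn u a s - κ * Real.log (R / s)) * l =
          mn u a s * l - (κ * l) * Real.log (R / s) := by ring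
      rw [h6, hκl]
      nlinarith
    exact le_of_mul_le_mul_right h5 hl0
  refine (hwh h a hR0).trans ?_
  have h5 : Real.exp (mn u a R) ≤ Real.exp (mn u a s) * (s ^ κ * R ^ (-κ)) := by
    refine (Real.exp_le_exp.2 h4).trans (le_of_eq ?_)
    rw [sub_eq_add_neg, Real.exp_add]
    congr 1
    rw [Real.log_div hR0.ne' hs.ne', Real.rpow_def_of_pos hs, Real.rpow_def_of_pos hR0,
      ← Real.exp_add]
    congr 1
    ring
  have e2 : (-(1 + (κ - 1)) : ℝ) = -κ := by ring
  rw [e2]
  calc C * R ^ n * Real.exp (mn u a R)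
      ≤ C * R ^ n * (Real.exp (mn u a s) * (s ^ κ * R ^ (-κ))) :=
        mul_le_mul_of_nonneg_left h5 (by positivity)
    _ = C * Real.exp (mn u a s) * s ^ κ * R ^ n * R ^ (-κ) := by ring

theorem mon_of_complete (h : Flat n u) (hc : IsCompleteMetric (conf u)) : Mon u :=
  mon_of h fun a {_ _ _} hδ hA =>
    complete_false ⟨0, by have := h.hn; omega⟩ h.smooth hc a hδ hA

/-- geodesic balls are relatively compact -/
theorem cpl_of_mon (hu : ContDiff ℝ ∞ u) (hm : Mon u) : Cpl u := by
  intro x r
  set D := dd u x 1 with hD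
  have hD0 : 0 < D := dd_pos u x one_pos
  have hlog : ∀ s : ℝ, 1 ≤ s → D * Real.log s ≤ Psi u x s := by
    intro s hs
    have h1 := psi_diff hu.continuous x zero_le_one hs
    have h2 : ∫ t in (1 : ℝ)..s, D * t⁻¹ ≤ ∫ t in (1 : ℝ)..s, Real.exp (mn u x t) := by
      refine intervalIntegral.integral_mono_on hs ?_
        (psi_intervalIntegrable hu.continuous x zero_le_one (by linarith)) fun t ht => ?_
      · refine ContinuousOn.intervalIntegrable ?_
        rw [Set.uIcc_of_le hs]
        intro t ht
        have : t ≠ 0 := by linarith [ht.1]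
        exact (continuousAt_const.mul (continuousAt_inv₀ this)).continuousWithinAt
      · have ht0 : 0 < t := by linarith [ht.1]
        have h3 := hm x 1 t one_pos ht.1
        rw [← hD] at h3
        unfold dd at h3
        rw [← div_eq_mul_inv, div_le_iff₀ ht0]
        linarith
    rw [intervalIntegral.integral_const_mul, integral_inv_of_pos one_pos (by linarith),
      div_one] at h2
    have h3 := psi_nonneg hu.continuous x zero_le_one
    linarith
  refine ⟨ecball x (Real.exp (|r| / D)), CP.isCompact_ecball' _ _, fun y hy => ?_⟩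
  have h1 := psi_path hu x hy
  have h2 : CP.ed x x = 0 := by
    unfold CP.ed
    simp
  rw [h2, psi_zero, sub_zero] at h1
  have h3 : Psi u x (CP.ed y x) ≤ |r| := (le_abs_self _).trans (h1.trans (le_abs_self r))
  have h4 : CP.ed y x ≤ Real.exp (|r| / D) := by
    rcases le_total (CP.ed y x) 1 with h5 | h5
    · exact h5.trans (Real.one_le_exp (by positivity))
    · have h6 := (hlog _ h5).trans h3
      have h7 : Real.log (CP.ed y x) ≤ |r| / D := by
        rw [le_div_iff₀ hD0]; linarith
      exact (Real.log_le_iff_le_exp (by linarith)).1 h7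
  exact (CP.mem_ecball (Real.exp_pos _).le).2 h4

end

end Pool.Agent.Helper50.YF
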