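import Pool.Agent.Helper50.YF.Defs

/-!
# YF-1: the minimum `mn u a r` of `u` on the closed Euclidean ball; `dd`, `Psi`
-/

namespace Pool.Agent.Helper50.YF

open scoped ContDiff Topology NNReal
open Pool.Agent.Helper49.Ric Pool.Agent.Helper73.HB Pool.Agent.Helper50.CF
  Pool.Agent.Helper50.CE MeasureTheory Filter

noncomputable section

variable {n : ℕ} {u : (Fin n → ℝ) → ℝ}

theorem mem_self (a : Fin n → ℝ) (r : ℝ) : a ∈ ecball a r := by
  show ∑ i, (a i - a i) ^ 2 ≤ r ^ 2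
  simp [sq_nonneg]

theorem exists_mn (hu : Continuous u) (a : Fin n → ℝ) (r : ℝ) :
    ∃ p ∈ ecball a r, u p = mn u a r := by
  have hc := CP.isCompact_ecball' a r
  obtain ⟨p, hp, hm⟩ := (hc.image hu).sInf_mem (Set.Nonempty.image u ⟨a, mem_self a r⟩)
  exact ⟨p, hp, hm⟩

theorem mn_le (hu : Continuous u) {a p : Fin n → ℝ} {r : ℝ} (hp : p ∈ ecball a r) :
    mn u a r ≤ u p := by
  have hc := CP.isCompact_ecball' a r
  exact csInf_le (hc.image hu).bddBelow (Set.mem_image_of_mem u hp)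

theorem le_mn (hu : Continuous u) {a : Fin n → ℝ} {r c : ℝ} (h : ∀ p ∈ ecball a r, c ≤ u p) :
    c ≤ mn u a r := by
  obtain ⟨p, hp, hm⟩ := exists_mn hu a r
  rw [← hm]
  exact h p hp

theorem mn_sub (hu : Continuous u) {a b : Fin n → ℝ} {r s : ℝ} (h : ecball a r ⊆ ecball b s) :
    mn u b s ≤ mn u a r := le_mn hu fun p hp => mn_le hu (h hp)

theorem mn_anti (hu : Continuous u) (a : Fin n → ℝ) {r s : ℝ} (h0 : 0 ≤ r) (h : r ≤ s) :
    mn u a s ≤ mn u a r := by
  refine mn_sub hu fun p hp => ?_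
  have h1 : ∑ i, (p i - a i) ^ 2 ≤ r ^ 2 := hp
  exact h1.trans (pow_le_pow_left₀ h0 h 2)

/-- the value at a point bounds the minimum on the ball through this point -/
theorem mn_ed_le (hu : Continuous u) (a p : Fin n → ℝ) : mn u a (CP.ed p a) ≤ u p := by
  refine mn_le hu ?_
  show ∑ i, (p i - a i) ^ 2 ≤ (CP.ed p a) ^ 2
  unfold CP.ed
  rw [Real.sq_sqrt (Finset.sum_nonneg fun i _ => sq_nonneg _)]

theorem mn_zero (hu : Continuous u) (a : Fin n → ℝ) : mn u a 0 = u a := by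
  obtain ⟨p, hp, hm⟩ := exists_mn hu a 0
  have h1 : ∑ i, (p i - a i) ^ 2 ≤ 0 ^ 2 := hp
  have h2 : ∑ i, (p i - a i) ^ 2 = 0 :=
    le_antisymm (by simpa using h1) (Finset.sum_nonneg fun i _ => sq_nonneg _)
  have h3 : p = a := by
    funext i
    have := (Finset.sum_eq_zero_iff_of_nonneg (fun i _ => sq_nonneg (p i - a i))).1 h2 i
      (Finset.mem_univ i)
    have h4 : p i - a i = 0 := by simpa using this
    linarith
  rw [← hm, h3]

/-- the radial projection onto a smaller ball -/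
theorem exists_proj (a p : Fin n → ℝ) {r s : ℝ} (hr : 0 ≤ r) (hrs : r ≤ s)
    (hp : p ∈ ecball a s) : ∃ q ∈ ecball a r, ∀ i, |p i - q i| ≤ s - r := by
  have hp' : ∑ i, (p i - a i) ^ 2 ≤ s ^ 2 := hp
  rcases hr.eq_or_lt with h0 | h0
  · subst h0
    refine ⟨a, mem_self a 0, fun i => ?_⟩
    have h1 : (p i - a i) ^ 2 ≤ s ^ 2 :=
      (Finset.single_le_sum (f := fun i => (p i - a i) ^ 2) (fun i _ => sq_nonneg _)
        (Finset.mem_univ i)).trans hp'
    rw [sub_zero]
    exact abs_le_of_sq_le_sq h1 hrs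
  · have hs : 0 < s := h0.trans_le hrs
    refine ⟨a + (r / s) • (p - a), ?_, fun i => ?_⟩
    · show ∑ i, ((a + (r / s) • (p - a)) i - a i) ^ 2 ≤ r ^ 2
      have h1 : ∀ i, ((a + (r / s) • (p - a)) i - a i) ^ 2 = (r / s) ^ 2 * (p i - a i) ^ 2 :=
        fun i => by simp only [Pi.add_apply, Pi.smul_apply, Pi.sub_apply, smul_eq_mul]; ring
      rw [Finset.sum_congr rfl fun i _ => h1 i, ← Finset.mul_sum]
      calc (r / s) ^ 2 * ∑ i, (p i - a i) ^ 2 ≤ (r / s) ^ 2 * s ^ 2 :=
            mul_le_mul_of_nonneg_left hp' (by positivity)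
        _ = r ^ 2 := by field_simp
    · have h1 : (p i - a i) ^ 2 ≤ s ^ 2 :=
        (Finset.single_le_sum (f := fun i => (p i - a i) ^ 2) (fun i _ => sq_nonneg _)
          (Finset.mem_univ i)).trans hp'
      have h2 : |p i - a i| ≤ s := abs_le_of_sq_le_sq h1 hs.le
      have h3 : p i - (a + (r / s) • (p - a)) i = (1 - r / s) * (p i - a i) := by
        simp only [Pi.add_apply, Pi.smul_apply, Pi.sub_apply, smul_eq_mul]; ring
      have h4 : 0 ≤ 1 - r / s := by
        rw [sub_nonneg, div_le_one hs]; exact hrs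
      rw [h3, abs_mul, abs_of_nonneg h4]
      calc (1 - r / s) * |p i - a i| ≤ (1 - r / s) * s := mul_le_mul_of_nonneg_left h2 h4
        _ = s - r := by field_simp

theorem continuousOn_mn (hu : Continuous u) (a : Fin n → ℝ) :
    ContinuousOn (mn u a) (Set.Ici 0) := by
  intro r₀ hr₀
  have hr₀' : (0 : ℝ) ≤ r₀ := hr₀
  rw [Metric.continuousWithinAt_iff]
  intro ε hε
  have hc := CP.isCompact_ecball' a (r₀ + 1)
  have huc := hc.uniformContinuousOn_of_continuous hu.continuousOn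
  rw [Metric.uniformContinuousOn_iff] at huc
  obtain ⟨δ, hδ, hδ'⟩ := huc (ε / 2) (by linarith)
  -- comparison of two radii
  have key : ∀ r s : ℝ, 0 ≤ r → r ≤ s → s ≤ r₀ + 1 → s - r < δ →
      mn u a r ≤ mn u a s + ε / 2 := by
    intro r s hr hrs hs1 hd
    obtain ⟨p, hp, hm⟩ := exists_mn hu a s
    obtain ⟨q, hq, hpq⟩ := exists_proj a p hr hrs hp
    have h1 : dist p q < δ := by
      refine lt_of_le_of_lt ?_ hd
      rw [dist_pi_le_iff (by linarith)]
      intro i
      rw [Real.dist_eq]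
      exact hpq i
    have hp1 : p ∈ ecball a (r₀ + 1) := by
      have h3 : ∑ i, (p i - a i) ^ 2 ≤ s ^ 2 := hp
      exact h3.trans (pow_le_pow_left₀ (hr.trans hrs) hs1 2)
    have hq1 : q ∈ ecball a (r₀ + 1) := by
      have h3 : ∑ i, (q i - a i) ^ 2 ≤ r ^ 2 := hq
      exact h3.trans (pow_le_pow_left₀ hr (hrs.trans hs1) 2)
    have h2 := hδ' p hp1 q hq1 h1
    rw [Real.dist_eq, abs_lt] at h2
    have h3 := mn_le hu hq
    rw [← hm]
    linarith [h2.1]
  refine ⟨min δ 1, lt_min hδ one_pos, fun {r} hr hd => ?_⟩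
  have hr' : (0 : ℝ) ≤ r := hr
  rw [Real.dist_eq] at hd
  have hd1 : |r - r₀| < δ := lt_of_lt_of_le hd (min_le_left _ _)
  have hd2 : |r - r₀| < 1 := lt_of_lt_of_le hd (min_le_right _ _)
  rw [abs_lt] at hd1 hd2
  rw [Real.dist_eq, abs_lt]
  rcases le_total r r₀ with h | h
  · have h1 := key r r₀ hr' h (by linarith) (by linarith)
    have h2 := mn_anti hu a hr' h
    constructor <;> linarith
  · have h1 := key r₀ r hr₀' h (by linarith) (by linarith)
    have h2 := mn_anti hu a hr₀' h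
    constructor <;> linarith

theorem dd_pos (u : (Fin n → ℝ) → ℝ) (a : Fin n → ℝ) {r : ℝ} (hr : 0 < r) : 0 < dd u a r :=
  mul_pos hr (Real.exp_pos _)

theorem dd_scale (hu : Continuous u) (a : Fin n → ℝ) {r lam : ℝ} (hr : 0 ≤ r) (hl : 1 ≤ lam) :
    dd u a (lam * r) ≤ lam * dd u a r := by
  unfold dd
  have h1 : mn u a (lam * r) ≤ mn u a r := mn_anti hu a hr (by nlinarith)
  have h2 : Real.exp (mn u a (lam * r)) ≤ Real.exp (mn u a r) := Real.exp_le_exp.2 h1
  calc lam * r * Real.exp (mn u a (lam * r)) ≤ lam * r * Real.exp (mn u a r) :=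
        mul_le_mul_of_nonneg_left h2 (by positivity)
    _ = lam * (r * Real.exp (mn u a r)) := by ring

theorem psi_antitone (hu : Continuous u) (b : Fin n → ℝ) :
    AntitoneOn (fun t => Real.exp (mn u b t)) (Set.Ici 0) := fun _ hs _ _ hst =>
  Real.exp_le_exp.2 (mn_anti hu b hs hst)

theorem psi_intervalIntegrable (hu : Continuous u) (b : Fin n → ℝ) {s t : ℝ} (hs : 0 ≤ s)
    (ht : 0 ≤ t) : IntervalIntegrable (fun t => Real.exp (mn u b t)) volume s t := by
  refine AntitoneOn.intervalIntegrable ((psi_antitone hu b).mono fun x hx => ?_)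
  rcases Set.mem_uIcc.1 hx with h | h
  · exact hs.trans h.1
  · exact ht.trans h.1

theorem psi_zero (u : (Fin n → ℝ) → ℝ) (b : Fin n → ℝ) : Psi u b 0 = 0 := by
  unfold Psi
  exact intervalIntegral.integral_same

theorem psi_diff (hu : Continuous u) (b : Fin n → ℝ) {s t : ℝ} (h0 : 0 ≤ s) (h : s ≤ t) :
    Psi u b t - Psi u b s = ∫ x in s..t, Real.exp (mn u b x) := by
  unfold Psi
  exact intervalIntegral.integral_interval_sub_left
    (psi_intervalIntegrable hu b le_rfl (h0.trans h)) (psi_intervalIntegrable hu b le_rfl h0)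

theorem psi_mono (hu : Continuous u) (b : Fin n → ℝ) {s t : ℝ} (h0 : 0 ≤ s) (h : s ≤ t) :
    Psi u b s ≤ Psi u b t := by
  have h1 := psi_diff hu b h0 h
  have h2 : 0 ≤ ∫ x in s..t, Real.exp (mn u b x) :=
    intervalIntegral.integral_nonneg h fun _ _ => (Real.exp_pos _).le
  linarith

theorem psi_nonneg (hu : Continuous u) (b : Fin n → ℝ) {s : ℝ} (h0 : 0 ≤ s) :
    0 ≤ Psi u b s := by
  have := psi_mono hu b le_rfl h0
  rwa [psi_zero] at this

theorem dd_le_psi (hu : Continuous u) (b : Fin n → ℝ) {s : ℝ} (h0 : 0 ≤ s) :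
    dd u b s ≤ Psi u b s := by
  unfold dd Psi
  have h1 : ∫ _x in (0 : ℝ)..s, Real.exp (mn u b s) = s * Real.exp (mn u b s) := by
    rw [intervalIntegral.integral_const, smul_eq_mul, sub_zero]
  rw [← h1]
  refine intervalIntegral.integral_mono_on h0 intervalIntegrable_const
    (psi_intervalIntegrable hu b le_rfl h0) fun x hx => ?_
  exact Real.exp_le_exp.2 (mn_anti hu b hx.1 hx.2)

end

end Pool.Agent.Helper50.YF
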