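import Pool.Agent.Helper50.YF.Mu
import Pool.Agent.Helper50.YF.Mn

/-!
# YF-3: the mass of small balls tends to zero; stopping index
-/

namespace Pool.Agent.Helper50.YF

open scoped ContDiff Topology NNReal
open Pool.Agent.Helper49.Ric Pool.Agent.Helper73.HB Pool.Agent.Helper50.CF
  Pool.Agent.Helper50.CE MeasureTheory Filter

noncomputable section

variable {n : ℕ} {u : (Fin n → ℝ) → ℝ}

private theorem eball_sub_cb (z : Fin n → ℝ) {s : ℝ} (hs : 0 < s) :
    eball z s ⊆ Metric.closedBall z s := by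
  intro p hp
  have h1 : ∑ i, (p i - z i) ^ 2 < s ^ 2 := hp
  rw [Metric.mem_closedBall, dist_pi_le_iff hs.le]
  intro i
  rw [Real.dist_eq]
  refine abs_le_of_sq_le_sq ?_ hs.le
  exact ((Finset.single_le_sum (f := fun i => (p i - z i) ^ 2) (fun j _ => sq_nonneg _)
    (Finset.mem_univ i)).trans h1.le)

private theorem ms_bound (hu : ContDiff ℝ ∞ u) (z : Fin n → ℝ) :
    ∃ G : ℝ, 0 ≤ G ∧ ∀ r : ℝ, 0 < r → r ≤ 1 → ms u z r ≤ cph / r * G * (8 * r) ^ n := by
  have hK : IsCompact (ecball z 4) := CP.isCompact_ecball' z 4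
  have hc : Continuous (fun p => gr u p ^ (n - 2) * gr u p) := ((cont_gr hu).pow _).mul (cont_gr hu)
  obtain ⟨G, hG⟩ := hK.exists_bound_of_continuousOn hc.continuousOn
  have hG0 : 0 ≤ G := (norm_nonneg _).trans (hG z (mem_self z 4))
  refine ⟨G, hG0, fun r hr hr1 => ?_⟩
  have hcph := cph_one
  have hoff : ∀ p, p ∉ eball z (4 * r) → gr u p ^ (n - 2) * ∑ i, pd i (phs z r) p * pd i u p = 0 := by
    intro p hp
    have h1 : p ∉ tsupport (phs z r) := fun h => hp (phs_supp hr h)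
    have h3 : ∑ i, pd i (phs z r) p * pd i u p = 0 :=
      Finset.sum_eq_zero fun i _ => by rw [pd_zero_off h1 i, zero_mul]
    rw [h3, mul_zero]
  have e1 : ms u z r = ∫ p in eball z (4 * r), gr u p ^ (n - 2) * ∑ i, pd i (phs z r) p * pd i u p :=
    (setIntegral_eq_integral_of_forall_compl_eq_zero hoff).symm
  have hvol : volume (eball z (4 * r)) ≤ ENNReal.ofReal ((8 * r) ^ n) := by
    refine (measure_mono (eball_sub_cb z (by linarith))).trans ?_
    rw [Real.volume_pi_closedBall z (by linarith : (0 : ℝ) ≤ 4 * r), Fintype.card_fin]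
    rw [show 2 * (4 * r) = 8 * r by ring]
  have hbd : ∀ p ∈ eball z (4 * r), ‖gr u p ^ (n - 2) * ∑ i, pd i (phs z r) p * pd i u p‖ ≤
      cph / r * G := by
    intro p hp
    have hp4 : p ∈ ecball z 4 := by
      have h1 : ∑ i, (p i - z i) ^ 2 < (4 * r) ^ 2 := hp
      show ∑ i, (p i - z i) ^ 2 ≤ 4 ^ 2
      nlinarith
    have h2 := hG p hp4
    rw [Real.norm_eq_abs] at h2 ⊢
    have h3 := (le_abs_self _).trans h2
    have hg0 : 0 ≤ gr u p := Real.sqrt_nonneg _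
    rw [abs_mul, abs_of_nonneg (pow_nonneg hg0 _)]
    have h4 : |∑ i, pd i (phs z r) p * pd i u p| ≤ cph / r * gr u p :=
      (abs_inner_le (phs z r) u p).trans (mul_le_mul_of_nonneg_right (phs_grad z hr p) hg0)
    calc gr u p ^ (n - 2) * |∑ i, pd i (phs z r) p * pd i u p|
        ≤ gr u p ^ (n - 2) * (cph / r * gr u p) :=
          mul_le_mul_of_nonneg_left h4 (pow_nonneg hg0 _)
      _ = cph / r * (gr u p ^ (n - 2) * gr u p) := by ring
      _ ≤ cph / r * G := mul_le_mul_of_nonneg_left h3 (by positivity)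
  have hlt : volume (eball z (4 * r)) < ⊤ := hvol.trans_lt ENNReal.ofReal_lt_top
  have h5 := norm_setIntegral_le_of_norm_le_const hlt hbd
  rw [e1]
  refine (le_abs_self _).trans (h5.trans ?_)
  refine mul_le_mul_of_nonneg_left ?_ (by positivity)
  rw [measureReal_def]
  exact ENNReal.toReal_le_of_le_ofReal (by positivity) hvol

theorem exists_good (h : Flat n u) {ε ρ : ℝ} (hε : 0 < ε) (hρ : 0 < ρ) (z : Fin n → ℝ) :
    ∃ J : ℤ, ∀ j ≤ J, good u ε ρ z j := by
  have hn := h.hn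
  have hn0 : (0 : ℝ) < n := by
    have : 0 < n := by omega
    exact_mod_cast this
  obtain ⟨G, hG0, hG⟩ := ms_bound h.smooth z
  have hcph := cph_one
  -- a bound `ms u z r ≤ A r` for `r ≤ 1`
  set A : ℝ := cph * G * 8 ^ n with hA
  have hA0 : 0 ≤ A := by positivity
  have hms : ∀ r : ℝ, 0 < r → r ≤ 1 → ms u z r ≤ A * r := by
    intro r hr hr1
    refine (hG r hr hr1).trans ?_
    have h1 : r ^ n ≤ r ^ 2 := pow_le_pow_of_le_one hr.le hr1 (by omega)
    calc cph / r * G * (8 * r) ^ n = cph * G * 8 ^ n / r * r ^ n := by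
          rw [mul_pow]; ring
      _ ≤ cph * G * 8 ^ n / r * r ^ 2 := mul_le_mul_of_nonneg_left h1 (by positivity)
      _ = A * r := by rw [hA]; field_simp
  set B : ℝ := Real.exp (u z) with hB
  have hB0 : 0 < B := Real.exp_pos _
  -- the threshold
  obtain ⟨N, hN⟩ : ∃ N : ℕ, (5 * n + A * (5 * n) / ε + 20 * n * B / ρ) < 2 ^ N :=
    pow_unbounded_of_one_lt _ (by norm_num)
  refine ⟨-(N : ℤ), fun j hj => ?_⟩
  have hx0 : (0 : ℝ) < 2 ^ j := by positivity
  have hx : (2 : ℝ) ^ j ≤ (2 ^ N)⁻¹ := by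
    have h1 : (2 : ℝ) ^ j ≤ 2 ^ (-(N : ℤ)) := zpow_le_zpow_right₀ (by norm_num) hj
    rwa [zpow_neg, zpow_natCast] at h1
  have h2N : (0 : ℝ) < 2 ^ N := by positivity
  have hxN : (2 : ℝ) ^ j * 2 ^ N ≤ 1 := by
    calc (2 : ℝ) ^ j * 2 ^ N ≤ (2 ^ N)⁻¹ * 2 ^ N := mul_le_mul_of_nonneg_right hx h2N.le
      _ = 1 := inv_mul_cancel₀ h2N.ne'
  have t1 : 0 ≤ A * (5 * n) / ε := by positivity
  have t2 : 0 ≤ 20 * n * B / ρ := by positivity
  have k1 : 2 ^ j * (5 * (n : ℝ)) ≤ 1 := by nlinarith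
  have k2 : 2 ^ j * (A * (5 * n) / ε) ≤ 1 := by nlinarith
  have k3 : 2 ^ j * (20 * n * B / ρ) ≤ 1 := by nlinarith
  refine ⟨?_, ?_⟩
  · refine (hms _ (by positivity) (by linarith)).trans ?_
    have h1 : 2 ^ j * (A * (5 * n) / ε) * ε ≤ 1 * ε := mul_le_mul_of_nonneg_right k2 hε.le
    have e : 2 ^ j * (A * (5 * (n : ℝ)) / ε) * ε = A * (5 * n * 2 ^ j) := by
      field_simp
    rw [e, one_mul] at h1
    exact h1
  · unfold dd
    have h1 : Real.exp (mn u z (20 * n * 2 ^ j)) ≤ B :=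
      Real.exp_le_exp.2 (mn_le h.smooth.continuous (mem_self z _))
    have h3 : 2 ^ j * (20 * n * B / ρ) * ρ ≤ 1 * ρ := mul_le_mul_of_nonneg_right k3 hρ.le
    have e : 2 ^ j * (20 * (n : ℝ) * B / ρ) * ρ = 20 * n * 2 ^ j * B := by
      field_simp
    rw [e, one_mul] at h3
    exact (mul_le_mul_of_nonneg_left h1 (by positivity)).trans h3

theorem exists_stop (h : Flat n u) {ε ρ : ℝ} (hε : 0 < ε) (hρ : 0 < ρ) (z : Fin n → ℝ)
    (J : ℤ) (hJ : ¬ good u ε ρ z J) :
    ∃ j : ℤ, good u ε ρ z j ∧ ¬ good u ε ρ z (j + 1) := by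
  obtain ⟨J₀, hJ₀⟩ := exists_good h hε hρ z
  by_contra hcon
  push Not at hcon
  have hall : ∀ k : ℕ, good u ε ρ z (J₀ + k) := by
    intro k
    induction k with
    | zero => simpa using hJ₀ J₀ le_rfl
    | succ k ih =>
      have := hcon _ ih
      push_cast
      rwa [← add_assoc]
  rcases le_total J J₀ with h1 | h1
  · exact hJ (hJ₀ J h1)
  · obtain ⟨k, hk⟩ := Int.eq_ofNat_of_zero_le (sub_nonneg.2 h1)
    have := hall k
    rw [← hk] at this
    exact hJ (by simpa using this)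

end

end Pool.Agent.Helper50.YF
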