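import Pool.Agent.Helper50.YF.SmallM
import Pool.Agent.Helper50.YF.MonoC
import Pool.Agent.Helper50.YF.Total
import Pool.Agent.Helper50.YF.Cover
import Pool.Agent.Helper50.YF.Clos
import Pool.Agent.Helper50.YF.SmallMass

/-!
# YF-30: the main theorem (assembly)
-/

namespace Pool.Agent.Helper50.YF

open scoped ContDiff Topology NNReal
open Pool.Agent.Helper49.Ric Pool.Agent.Helper73.HB Pool.Agent.Helper50.CF
  Pool.Agent.Helper50.CE MeasureTheory Filter

noncomputable section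

variable {n : ℕ} {u : (Fin n → ℝ) → ℝ}

/-- `sc u` is integrable on bounded sets -/
theorem sc_int (hu : ContDiff ℝ ∞ u) {K A : Set (Fin n → ℝ)} (hK : IsCompact K) (hA : A ⊆ K) :
    IntegrableOn (sc u) A := int_on (cont_sc hu) hK hA

theorem sc_int_eball (hu : ContDiff ℝ ∞ u) (z : Fin n → ℝ) (r : ℝ) :
    IntegrableOn (sc u) (eball z r) :=
  sc_int hu (CP.isCompact_ecball' z r) (CP.eball_subset_ecball' z r)

theorem sc_mono (h : Flat n u) {A A' : Set (Fin n → ℝ)} (hA' : IntegrableOn (sc u) A')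
    (hAA : A ⊆ A') : ∫ p in A, sc u p ≤ ∫ p in A', sc u p :=
  setIntegral_mono_set hA' (Filter.Eventually.of_forall fun p => sc_nonneg h p)
    (Filter.Eventually.of_forall hAA)

/-- a sup ball inside a Euclidean ball -/
theorem closedBall_sub (hn : 1 ≤ n) (z : Fin n → ℝ) {R : ℝ} (hR : 0 < R) :
    Metric.closedBall z R ⊆ eball z (5 * n * R) := by
  intro p hp
  have h1 : dist p z ≤ R := hp
  have h2 : ∀ i, (p i - z i) ^ 2 ≤ R ^ 2 := fun i => by
    have h3 : dist (p i) (z i) ≤ R := (dist_le_pi_dist p z i).trans h1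
    rw [Real.dist_eq] at h3
    exact sq_le_sq' (by linarith [neg_abs_le (p i - z i)]) (by linarith [le_abs_self (p i - z i)])
  have h3 : ∑ i, (p i - z i) ^ 2 ≤ n * R ^ 2 := by
    refine (Finset.sum_le_sum fun i _ => h2 i).trans ?_
    simp
  show ∑ i, (p i - z i) ^ 2 < (5 * n * R) ^ 2
  have hn' : (1 : ℝ) ≤ n := by exact_mod_cast hn
  have h4 : (n : ℝ) * R ^ 2 < (5 * n * R) ^ 2 := by
    have h5 : (n : ℝ) ≤ n ^ 2 := by nlinarith
    have h6 : 0 < R ^ 2 := by positivity
    nlinarith [mul_le_mul_of_nonneg_right h5 h6.le, mul_pos (by linarith : (0 : ℝ) < n) h6]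
  exact lt_of_le_of_lt h3 h4

/-- covering by finitely many sets -/
theorem sum_cover (h : Flat n u) {ι : Type} (s : Finset ι) (B' : ι → Set (Fin n → ℝ))
    (hm : ∀ i ∈ s, MeasurableSet (B' i)) (hi : ∀ i ∈ s, IntegrableOn (sc u) (B' i))
    {K : Set (Fin n → ℝ)} (hK : K ⊆ ⋃ i ∈ s, B' i) :
    ∫ p in K, sc u p ≤ ∑ i ∈ s, ∫ p in B' i, sc u p := by
  have hU : IntegrableOn (sc u) (⋃ i ∈ s, B' i) := by
    rw [integrableOn_finset_iUnion]
    exact hi
  refine (sc_mono h hU hK).trans ?_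
  have key : ∀ t : Finset ι, t ⊆ s →
      ∫ p in ⋃ i ∈ t, B' i, sc u p ≤ ∑ i ∈ t, ∫ p in B' i, sc u p := by
    intro t
    induction t using Finset.cons_induction with
    | empty => intro _; simp
    | cons a t ha ih =>
      intro hts
      rw [Finset.sum_cons]
      have ht : t ⊆ s := fun i hi' => hts (Finset.mem_cons_of_mem hi')
      have has : a ∈ s := hts (Finset.mem_cons_self a t)
      have e1 : (⋃ i ∈ Finset.cons a t ha, B' i) = B' a ∪ ⋃ i ∈ t, B' i := by
        ext p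
        simp only [Set.mem_iUnion, Finset.mem_cons, Set.mem_union, exists_prop]
        constructor
        · rintro ⟨i, rfl | hi', hp⟩
          · exact Or.inl hp
          · exact Or.inr ⟨i, hi', hp⟩
        · rintro (hp | ⟨i, hi', hp⟩)
          · exact ⟨a, Or.inl rfl, hp⟩
          · exact ⟨i, Or.inr hi', hp⟩
      rw [e1]
      have hUt : IntegrableOn (sc u) (⋃ i ∈ t, B' i) := by
        rw [integrableOn_finset_iUnion]
        exact fun i hi' => hi i (ht hi')
      have hmt : MeasurableSet (⋃ i ∈ t, B' i) :=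
        Finset.measurableSet_biUnion t fun i hi' => hm i (ht hi')
      have h1 : B' a ∪ ⋃ i ∈ t, B' i = B' a ∪ ((⋃ i ∈ t, B' i) \ B' a) := by
        rw [Set.union_diff_self]
      rw [h1, setIntegral_union Set.disjoint_sdiff_right (hmt.diff (hm a has)) (hi a has)
        (hUt.mono_set Set.diff_subset)]
      have h2 := sc_mono h hUt (Set.diff_subset (s := ⋃ i ∈ t, B' i) (t := B' a))
      linarith [ih ht]
  exact key s (Finset.Subset.refl s)

theorem exists_main (n : ℕ) (hn : 3 ≤ n) : ∃ C : ℝ, 1 ≤ C ∧ ∀ {u : (Fin n → ℝ) → ℝ},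
    Flat n u → Mon u → ∀ (x : Fin n → ℝ) {r : ℝ}, 0 < r →
      ∫ p in GB u x r, sc u p ≤ C * r ^ (n - 2) := by
  obtain ⟨ε, C₁, hε, hC₁, hsm⟩ := exists_small n hn
  obtain ⟨C₂, hC₂, htot⟩ := exists_total n hε
  have hn1 : (1 : ℝ) ≤ n := by exact_mod_cast (by omega : 1 ≤ n)
  have hD : 1 ≤ 20 * (n : ℝ) * C₁ * C₂ := by
    have h1 : 1 ≤ C₁ * C₂ := one_le_mul_of_one_le_of_one_le hC₁ hC₂
    nlinarith
  refine ⟨20 * n * C₁ * C₂ * 2 ^ (n - 2), ?_, fun {u} hu hmon x r hr => ?_⟩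
  · exact one_le_mul_of_one_le_of_one_le hD (one_le_pow₀ (by norm_num))
  have hc := cpl_of_mon hu.smooth hmon
  have hρ : 0 < 2 * r := by linarith
  -- the compact set
  obtain ⟨K', hK', hGK'⟩ := hc x r
  set K := closure (GB u x r) with hKd
  have hKc : IsCompact K := hK'.of_isClosed_subset isClosed_closure
    (closure_minimal hGK' hK'.isClosed)
  have hKρ : K ⊆ GB u x (2 * r) := closure_GB hu.smooth x (by linarith)
  have hsK : ∫ p in GB u x r, sc u p ≤ ∫ p in K, sc u p :=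
    sc_mono hu (sc_int hu.smooth hKc subset_rfl) subset_closure
  refine hsK.trans ?_
  -- the single piece bound
  have piece : ∀ (z : Fin n → ℝ) (j : ℤ), good u ε (2 * r) z j →
      ∫ p in eball z (5 * n * 2 ^ j), sc u p ≤ C₁ * dd u z (20 * n * 2 ^ j) ^ (n - 2) := by
    intro z j hg
    have h1 := hsm hu z (r := 5 * n * 2 ^ j) (by positivity) hg.1
    rwa [show 4 * (5 * (n : ℝ) * 2 ^ j) = 20 * n * 2 ^ j by ring] at h1
  -- a large scale
  obtain ⟨R, hR⟩ := hKc.isBounded.subset_closedBall (0 : Fin n → ℝ)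
  obtain ⟨J, hJ⟩ : ∃ J : ℕ, 2 * |R| + 1 < 2 ^ J := pow_unbounded_of_one_lt _ (by norm_num)
  have hbig : ∀ z ∈ K, K ⊆ Metric.closedBall z ((2 : ℝ) ^ (J : ℤ)) := by
    intro z hz p hp
    have h1 := hR hz
    have h2 := hR hp
    rw [Metric.mem_closedBall] at h1 h2 ⊢
    have h3 : dist p z ≤ dist p 0 + dist z 0 := dist_triangle_right p z 0
    rw [zpow_natCast]
    have h4 := le_abs_self R
    linarith
  have hpow : (2 * r) ^ (n - 2) = 2 ^ (n - 2) * r ^ (n - 2) := mul_pow _ _ _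
  have hrp : 0 < r ^ (n - 2) := by positivity
  by_cases hA : ∃ z ∈ K, good u ε (2 * r) z J
  · obtain ⟨z, hz, hg⟩ := hA
    have h1 : K ⊆ eball z (5 * n * 2 ^ (J : ℤ)) :=
      (hbig z hz).trans (closedBall_sub (by omega) z (by positivity))
    refine (sc_mono hu (sc_int_eball hu.smooth z _) h1).trans ((piece z J hg).trans ?_)
    have h2 : dd u z (20 * n * 2 ^ (J : ℤ)) ^ (n - 2) ≤ (2 * r) ^ (n - 2) :=
      pow_le_pow_left₀ (dd_pos u z (by positivity)).le hg.2 _
    calc C₁ * dd u z (20 * n * 2 ^ (J : ℤ)) ^ (n - 2) ≤ C₁ * (2 * r) ^ (n - 2) :=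
          mul_le_mul_of_nonneg_left h2 (by linarith)
      _ = C₁ * (2 ^ (n - 2) * r ^ (n - 2)) := by rw [hpow]
      _ ≤ (20 * n * C₁ * C₂) * (2 ^ (n - 2) * r ^ (n - 2)) := by
          refine mul_le_mul_of_nonneg_right ?_ (by positivity)
          have h3 : 1 ≤ 20 * (n : ℝ) * C₂ := by nlinarith
          nlinarith
      _ = 20 * n * C₁ * C₂ * 2 ^ (n - 2) * r ^ (n - 2) := by ring
  · push Not at hA
    -- stopping indices
    have hst : ∀ z ∈ K, ∃ j : ℤ, good u ε (2 * r) z j ∧ ¬ good u ε (2 * r) z (j + 1) :=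
      fun z hz => exists_stop hu hε hρ z J (hA z hz)
    choose! j hj using hst
    obtain ⟨s, hsK, hdis, hcov⟩ := exists_cover (by omega) hKc j
    have h1 : ∫ p in K, sc u p ≤ ∑ z ∈ s, ∫ p in eball z (5 * n * 2 ^ j z), sc u p :=
      sum_cover hu s (fun z => eball z (5 * n * 2 ^ j z))
        (fun z _ => (CP.isOpen_eball z _).measurableSet)
        (fun z _ => sc_int_eball hu.smooth z _) hcov
    refine h1.trans ?_
    have h2 := htot hu hmon x hρ s (fun z => z) j (fun z hz => hKρ (hsK z hz)) hdis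
      (fun z hz => hj z (hsK z hz))
    have h3 : ∀ z ∈ s, ∫ p in eball z (5 * n * 2 ^ j z), sc u p ≤
        C₁ * (2 * r) ^ (n - 3) * (20 * n) * dd u z (2 ^ j z) := by
      intro z hz
      have hg := (hj z (hsK z hz)).1
      refine (piece z (j z) hg).trans ?_
      have h4 := hg.2
      have h5 : 0 < dd u z (20 * n * 2 ^ j z) := dd_pos u z (by positivity)
      have h6 : dd u z (20 * n * 2 ^ j z) ≤ 20 * n * dd u z (2 ^ j z) :=
        dd_scale hu.smooth.continuous z (by positivity) (by linarith)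
      have e1 : n - 2 = n - 3 + 1 := by omega
      rw [e1, pow_succ]
      have h7 : dd u z (20 * n * 2 ^ j z) ^ (n - 3) ≤ (2 * r) ^ (n - 3) :=
        pow_le_pow_left₀ h5.le h4 _
      calc C₁ * (dd u z (20 * n * 2 ^ j z) ^ (n - 3) * dd u z (20 * n * 2 ^ j z))
          ≤ C₁ * ((2 * r) ^ (n - 3) * (20 * n * dd u z (2 ^ j z))) := by
            refine mul_le_mul_of_nonneg_left ?_ (by linarith)
            exact mul_le_mul h7 h6 h5.le (by positivity)
        _ = C₁ * (2 * r) ^ (n - 3) * (20 * n) * dd u z (2 ^ j z) := by ring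
    refine (Finset.sum_le_sum h3).trans ?_
    rw [← Finset.mul_sum]
    have h8 : C₁ * (2 * r) ^ (n - 3) * (20 * n) * ∑ z ∈ s, dd u z (2 ^ j z) ≤
        C₁ * (2 * r) ^ (n - 3) * (20 * n) * (C₂ * (2 * r)) :=
      mul_le_mul_of_nonneg_left h2 (by positivity)
    refine h8.trans (le_of_eq ?_)
    have e1 : n - 2 = n - 3 + 1 := by omega
    rw [e1, pow_succ, pow_succ]
    rw [mul_pow]
    ring

end

end Pool.Agent.Helper50.YF
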