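import Pool.Agent.Helper50.YF.Defs

/-!
# YF-7: mean value inequality for superharmonic functions

PROOF. `g(t) = ∫_{B n 1} f(a + t y) dy`.  For `t > 0`: `g'(t) = ∫_{B n 1} ∑ᵢ yᵢ ∂ᵢf(a+ty) dy`
(`hasDerivAt_integral_of_dominated_loc_of_deriv_le`).  Let `ζ(y) = max 0 ((1 - ∑ yᵢ²)/2)`, Lipschitz
with compact support, `∂ᵢζ = -yᵢ` on `B n 1`, `∂ᵢζ = 0` outside `B n 1` (there `ζ` vanishes and
`ζ ≥ 0`).  `HB.ibp` (`U = univ`, `ψ = ζ`, `F(y) = pd i f (a + t y)`):
`g'(t) = -∑ ∫ ∂ᵢζ ∂ᵢf(a+ty) dy = ∫ ζ t (Δf)(a+ty) dy ≤ 0`.  So `g` is antitone on `[0, ∞)`,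
`g(R) ≤ g(0) = vol(B n 1) f(a)`; scale by `R^n` (`CF.setIntegral_dil`).
-/

namespace Pool.Agent.Helper50.YF

open scoped ContDiff Topology NNReal
open Pool.Agent.Helper49.Ric Pool.Agent.Helper73.HB Pool.Agent.Helper50.CF
  Pool.Agent.Helper50.CE MeasureTheory Filter

noncomputable section

variable {n : ℕ} {u : (Fin n → ℝ) → ℝ}

private def zt (n : ℕ) (y : Fin n → ℝ) : ℝ := max 0 ((1 - ∑ i, y i ^ 2) / 2)

private theorem zt_nonneg (y : Fin n → ℝ) : 0 ≤ zt n y := le_max_left _ _

private theorem zt_eq : zt n = fun y => max 0 (ph n y * ((1 - ∑ i, y i ^ 2) / 2)) := by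
  funext y
  by_cases h : ∑ i, y i ^ 2 ≤ 1
  · have h1 : y ∈ Bc n 3 := by
      show ∑ i, y i ^ 2 ≤ 3 ^ 2
      linarith
    rw [ph_one h1, one_mul]
    rfl
  · have h1 : (1 - ∑ i, y i ^ 2) / 2 ≤ 0 := by
      push Not at h
      linarith
    have h2 : ph n y * ((1 - ∑ i, y i ^ 2) / 2) ≤ 0 :=
      mul_nonpos_of_nonneg_of_nonpos (ph_nonneg n y) h1
    show max 0 ((1 - ∑ i, y i ^ 2) / 2) = _
    rw [max_eq_left h1, max_eq_left h2]

private theorem zt_lip (n : ℕ) : ∃ L : ℝ≥0, LipschitzWith L (zt n) := by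
  have h1 : ContDiff ℝ 1 (fun y : Fin n → ℝ => ph n y * ((1 - ∑ i, y i ^ 2) / 2)) := by
    have h2 : ContDiff ℝ 1 (ph n) := (ph_smooth n).of_le (by exact_mod_cast le_top)
    have h3 : ContDiff ℝ 1 (fun y : Fin n → ℝ => (1 - ∑ i, y i ^ 2) / 2) := by fun_prop
    exact h2.mul h3
  have h4 : HasCompactSupport (fun y : Fin n → ℝ => ph n y * ((1 - ∑ i, y i ^ 2) / 2)) :=
    (ph_cpt n).mul_right
  obtain ⟨D, hD⟩ := ContDiff.lipschitzWith_of_hasCompactSupport h4 h1 (by simp)
  refine ⟨D, ?_⟩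
  rw [zt_eq]
  exact hD.const_max 0

private theorem zt_zero {y : Fin n → ℝ} (hy : y ∉ B n 1) : zt n y = 0 := by
  have h1 : ¬ ∑ i, y i ^ 2 < 1 ^ 2 := hy
  have h2 : (1 - ∑ i, y i ^ 2) / 2 ≤ 0 := by
    push Not at h1
    linarith
  exact max_eq_left h2

private theorem zt_cpt (n : ℕ) : HasCompactSupport (zt n) := by
  refine HasCompactSupport.of_support_subset_isCompact (isCompact_Bc (n := n) 1) ?_
  intro y hy
  by_contra h
  exact hy (zt_zero fun h' => h (B_subset_Bc 1 h'))

private theorem pd_zt (i : Fin n) (y : Fin n → ℝ) :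
    pd i (zt n) y = (B n 1).indicator (fun y => - y i) y := by
  by_cases hy : y ∈ B n 1
  · rw [Set.indicator_of_mem hy]
    have h1 : zt n =ᶠ[𝓝 y] fun q => (1 - ∑ j, q j ^ 2) / 2 := by
      filter_upwards [(isOpen_B (n := n) 1).mem_nhds hy] with q hq
      have h2 : ∑ j, q j ^ 2 < 1 ^ 2 := hq
      exact max_eq_right (by linarith)
    rw [pd_congr h1 i]
    unfold pd lineDeriv
    have h3 : (fun t : ℝ => (1 - ∑ j, (y + t • (Pi.single i (1 : ℝ) : Fin n → ℝ)) j ^ 2) / 2) =
        fun t : ℝ => (1 - ∑ j, y j ^ 2) / 2 - t * y i - t ^ 2 / 2 := by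
      funext t
      have h4 : ∀ j, (y + t • (Pi.single i (1 : ℝ) : Fin n → ℝ)) j ^ 2 =
          y j ^ 2 + (if j = i then 2 * t * y i + t ^ 2 else 0) := by
        intro j
        by_cases hj : j = i
        · subst hj
          simp only [Pi.add_apply, Pi.smul_apply, Pi.single_eq_same, smul_eq_mul, mul_one,
            if_true]
          ring
        · simp only [Pi.add_apply, Pi.smul_apply, Pi.single_eq_of_ne hj, smul_eq_mul, mul_zero,
            add_zero, if_neg hj]
      simp only [h4, Finset.sum_add_distrib, Finset.sum_ite_eq', Finset.mem_univ, if_true]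
      ring
    rw [h3]
    have h5 : HasDerivAt (fun t : ℝ => (1 - ∑ j, y j ^ 2) / 2 - t * y i - t ^ 2 / 2)
        (0 - 1 * y i - (2 * (0 : ℝ) ^ 1 * 1) / 2) 0 := by
      refine ((hasDerivAt_const _ _).sub ((hasDerivAt_id (0 : ℝ)).mul_const (y i))).sub ?_
      have := ((hasDerivAt_id (0 : ℝ)).pow 2).div_const 2
      simpa using this
    rw [h5.deriv]
    ring
  · rw [Set.indicator_of_notMem hy]
    exact pd_zero_of_nonneg zt_nonneg (zt_zero hy) i

private theorem int_key {f : (Fin n → ℝ) → ℝ} (hf : ContDiff ℝ ∞ f) (hl : ∀ p, CF.lp f p ≤ 0)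
    (a : Fin n → ℝ) {t : ℝ} (ht : 0 ≤ t) :
    ∫ y in B n 1, ∑ i, y i * pd i f (a + t • y) ≤ 0 := by
  obtain ⟨L, hL⟩ := zt_lip n
  have hpd : ∀ i, ContDiff ℝ ∞ (pd i f) := fun i =>
    contDiff_iff_contDiffAt.2 fun p => smooth_pd hf.contDiffAt i
  have haff : ContDiff ℝ ∞ (fun y : Fin n → ℝ => a + t • y) := by fun_prop
  have hF : ∀ i, ContDiff ℝ ∞ (fun y : Fin n → ℝ => pd i f (a + t • y)) := fun i =>
    (hpd i).comp haff
  have hI : ∀ i, IntegrableOn (fun y : Fin n → ℝ => y i * pd i f (a + t • y)) (B n 1) := by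
    intro i
    have h1 : Continuous (fun y : Fin n → ℝ => y i * pd i f (a + t • y)) :=
      (continuous_apply i).mul (hF i).continuous
    exact (h1.continuousOn.integrableOn_compact (isCompact_Bc (n := n) 1)).mono_set
      (B_subset_Bc 1)
  rw [integral_finsetSum _ fun i _ => hI i]
  have h2 : ∀ i, ∫ y in B n 1, y i * pd i f (a + t • y) =
      ∫ y, zt n y * (t * pd i (pd i f) (a + t • y)) := by
    intro i
    have h3 := ibp isOpen_univ hL (zt_cpt n) (Set.subset_univ _)
      (fun p _ => (hF i).contDiffAt.of_le (by exact_mod_cast le_top)) i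
    have h4 : ∀ y, pd i (fun y : Fin n → ℝ => pd i f (a + t • y)) y =
        t * pd i (pd i f) (a + t • y) := by
      intro y
      have := pd_dil (pd i f) a t 1 0 i y
      simpa using this
    simp only [h4] at h3
    rw [h3, ← integral_indicator (measurableSet_B 1), ← integral_neg]
    refine integral_congr_ae (Eventually.of_forall fun y => ?_)
    simp only [pd_zt]
    by_cases hy : y ∈ B n 1
    · rw [Set.indicator_of_mem hy, Set.indicator_of_mem hy]
      ring
    · rw [Set.indicator_of_notMem hy, Set.indicator_of_notMem hy]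
      ring
  simp only [h2]
  have h5 : ∀ i, Integrable (fun y => zt n y * (t * pd i (pd i f) (a + t • y))) := by
    intro i
    refine integrable_mul hL (zt_cpt n) (Set.subset_univ _) fun p _ => ?_
    have h6 : Continuous (fun y : Fin n → ℝ => t * pd i (pd i f) (a + t • y)) :=
      continuous_const.mul ((cont_pd_pd hf i i).comp haff.continuous)
    exact h6.continuousAt
  rw [← integral_finsetSum _ fun i _ => h5 i]
  refine integral_nonpos fun y => ?_
  have h7 : ∑ i, zt n y * (t * pd i (pd i f) (a + t • y)) =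
      zt n y * (t * CF.lp f (a + t • y)) := by
    unfold CF.lp
    rw [Finset.mul_sum, Finset.mul_sum]
  show ∑ i, zt n y * (t * pd i (pd i f) (a + t • y)) ≤ 0
  rw [h7]
  exact mul_nonpos_of_nonneg_of_nonpos (zt_nonneg y)
    (mul_nonpos_of_nonneg_of_nonpos ht (hl _))

private theorem der_key {f : (Fin n → ℝ) → ℝ} (hf : ContDiff ℝ ∞ f) (a : Fin n → ℝ) (t₀ : ℝ) :
    HasDerivAt (fun t : ℝ => ∫ y in B n 1, f (a + t • y))
      (∫ y in B n 1, ∑ i, y i * pd i f (a + t₀ • y)) t₀ := by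
  have hc1 : ∀ t : ℝ, Continuous (fun y : Fin n → ℝ => f (a + t • y)) := fun t =>
    hf.continuous.comp (by fun_prop)
  have hc2 : Continuous (fun q : ℝ × (Fin n → ℝ) =>
      ∑ i, q.2 i * pd i f (a + q.1 • q.2)) := by
    refine continuous_finsetSum _ fun i _ => ?_
    exact ((continuous_apply i).comp continuous_snd).mul
      ((cont_pd hf i).comp (by fun_prop))
  have hK : IsCompact ((Set.Icc (t₀ - 1) (t₀ + 1)) ×ˢ (Bc n 1)) :=
    isCompact_Icc.prod (isCompact_Bc 1)
  obtain ⟨C, hC⟩ := hK.exists_bound_of_continuousOn hc2.continuousOn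
  have hint : ∀ t : ℝ, Integrable (fun y : Fin n → ℝ => f (a + t • y))
      (volume.restrict (B n 1)) := fun t =>
    ((hc1 t).continuousOn.integrableOn_compact (isCompact_Bc (n := n) 1)).mono_set
      (B_subset_Bc 1)
  refine (hasDerivAt_integral_of_dominated_loc_of_deriv_le (μ := volume.restrict (B n 1))
    (F := fun t y => f (a + t • y)) (F' := fun t y => ∑ i, y i * pd i f (a + t • y))
    (s := Set.Icc (t₀ - 1) (t₀ + 1)) (bound := fun _ => C)
    (Icc_mem_nhds (by linarith) (by linarith)) (Eventually.of_forall fun t =>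
      (hc1 t).aestronglyMeasurable) (hint t₀) ?_ ?_ ?_ ?_).2
  · exact (hc2.comp (by fun_prop : Continuous fun y : Fin n → ℝ => (t₀, y))).aestronglyMeasurable
  · refine (ae_restrict_iff' (measurableSet_B 1)).2 (Eventually.of_forall fun y hy t ht => ?_)
    exact hC (t, y) ⟨ht, B_subset_Bc 1 hy⟩
  · have : volume (B n 1) < ⊤ := volume_B_lt_top 1
    have : IsFiniteMeasure (volume.restrict (B n 1)) := ⟨by simpa using this⟩
    exact integrable_const C
  · refine Eventually.of_forall fun y t _ => ?_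
    have h1 : HasFDerivAt f (fderiv ℝ f (a + t • y)) (a + t • y) :=
      (hf.differentiable (by simp)).differentiableAt.hasFDerivAt
    have h2 : HasDerivAt (fun t : ℝ => a + t • y) y t := by
      have := ((hasDerivAt_id t).smul_const y).const_add a
      simpa using this
    have h3 := h1.comp_hasDerivAt t h2
    have h5 : y = ∑ i, y i • (Pi.single i (1 : ℝ) : Fin n → ℝ) := by
      funext j
      simp [Finset.sum_apply, Pi.single_apply]
    have h6 : ∀ L : (Fin n → ℝ) →L[ℝ] ℝ, L y = ∑ i, y i * L (Pi.single i 1) := by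
      intro L
      conv_lhs => rw [h5]
      rw [map_sum]
      refine Finset.sum_congr rfl fun i _ => ?_
      rw [map_smul, smul_eq_mul]
    have h4 : fderiv ℝ f (a + t • y) y = ∑ i, y i * pd i f (a + t • y) := by
      rw [h6]
      refine Finset.sum_congr rfl fun i _ => ?_
      rw [pd_eq (hf.differentiable (by simp)).differentiableAt i]
    rw [h4] at h3
    exact h3

theorem mean_value {f : (Fin n → ℝ) → ℝ} (hf : ContDiff ℝ ∞ f) (hl : ∀ p, CF.lp f p ≤ 0)
    (a : Fin n → ℝ) {R : ℝ} (hR : 0 < R) :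
    ∫ p in eball a R, f p ≤ volume.real (eball a R) * f a := by
  have h1 : AntitoneOn (fun t : ℝ => ∫ y in B n 1, f (a + t • y)) (Set.Ici 0) := by
    refine antitoneOn_of_deriv_nonpos (convex_Ici 0)
      (fun t _ => (der_key hf a t).continuousAt.continuousWithinAt)
      (fun t _ => (der_key hf a t).differentiableAt.differentiableWithinAt) fun t ht => ?_
    rw [(der_key hf a t).deriv]
    rw [interior_Ici] at ht
    exact int_key hf hl a (le_of_lt ht)
  have h2 := h1 (Set.mem_Ici.2 le_rfl) (Set.mem_Ici.2 hR.le) hR.le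
  have h3 : ∫ y in B n 1, f (a + (0 : ℝ) • y) = volume.real (B n 1) * f a := by
    simp only [zero_smul, add_zero, setIntegral_const, smul_eq_mul]
  have h4 := setIntegral_dil f a hR 1
  have h5 := setIntegral_dil (fun _ => (1 : ℝ)) a hR 1
  rw [one_mul] at h4 h5
  simp only [setIntegral_const, smul_eq_mul, mul_one] at h5
  simp only at h2
  rw [h3, h4, h5] at h2
  have hRn : 0 < R ^ n := pow_pos hR n
  have h6 := mul_le_mul_of_nonneg_left h2 hRn.le
  rw [← mul_assoc, mul_inv_cancel₀ hRn.ne', one_mul, mul_assoc, ← mul_assoc (R ^ n),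
    mul_inv_cancel₀ hRn.ne', one_mul] at h6
  exact h6

end

end Pool.Agent.Helper50.YF
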