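import Pool.Agent.Helper50.YF.RayU

/-!
# YF-21: the rays: lower bound (completeness)

PROOF. `K ⊇ GB u a R` compact.  For `q ∈ Q`, `T = 2^N` large, `a + T q ∉ K` (`|T q| ≥ T`, `K` bounded).
If the segment `γ(s) = a + s T q` had `curveLength (conf u) γ < R` then `a + T q ∈ GB u a R ⊆ K`.
So `R ≤ curveLength (conf u) γ = ∫₀¹ |T q| e^{u(a+sTq)} ds = |q| ∫₀ᵀ e^{u(a+tq)} dt
≤ 3 ∫₀ᵀ e^{u(a+tq)} dt`.  `ray_false`: integrate over `Q` (volume `v > 0`):
`K' ≥ ∫_Q ∫₀ᵀ ≥ v R / 3` for every `R`.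
-/

namespace Pool.Agent.Helper50.YF

open scoped ContDiff Topology NNReal
open Pool.Agent.Helper49.Ric Pool.Agent.Helper73.HB Pool.Agent.Helper50.CF
  Pool.Agent.Helper50.CE MeasureTheory Filter

noncomputable section

variable {n : ℕ} {u : (Fin n → ℝ) → ℝ}

private theorem one_lt_norm {i₀ : Fin n} {q : Fin n → ℝ} (hq : q ∈ Qs i₀) : 1 < ‖q‖ := by
  have h0 : ∑ i, (q i - (Pi.single i₀ 2 : Fin n → ℝ) i) ^ 2 < 1 ^ 2 := hq
  have h1 : (q i₀ - (Pi.single i₀ 2 : Fin n → ℝ) i₀) ^ 2 ≤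
      ∑ i, (q i - (Pi.single i₀ 2 : Fin n → ℝ) i) ^ 2 :=
    Finset.single_le_sum (f := fun i => (q i - (Pi.single i₀ 2 : Fin n → ℝ) i) ^ 2)
      (fun i _ => sq_nonneg _) (Finset.mem_univ i₀)
  rw [Pi.single_eq_same] at h1
  have h2 : 1 < q i₀ := by nlinarith
  have h3 : ‖q i₀‖ ≤ ‖q‖ := norm_le_pi_norm q i₀
  have h4 : q i₀ ≤ ‖q i₀‖ := Real.le_norm_self _
  linarith

private theorem ed_lt_three {i₀ : Fin n} {q : Fin n → ℝ} (hq : q ∈ Qs i₀) :
    Real.sqrt (∑ i, q i ^ 2) ≤ 3 := by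
  have h1 : CP.ed q (Pi.single i₀ 2) < 1 := (CP.mem_eball one_pos).1 hq
  have h2 : CP.ed (Pi.single i₀ 2 : Fin n → ℝ) 0 = 2 := by
    unfold CP.ed
    have : ∑ i, ((Pi.single i₀ 2 : Fin n → ℝ) i - (0 : Fin n → ℝ) i) ^ 2 = 2 ^ 2 := by
      rw [Finset.sum_eq_single i₀]
      · simp
      · intro j _ hj
        simp [Pi.single_eq_of_ne hj]
      · simp
    rw [this]
    exact Real.sqrt_sq (by norm_num)
  have h3 := CP.ed_triangle q (Pi.single i₀ 2) 0
  have h4 : CP.ed q 0 = Real.sqrt (∑ i, q i ^ 2) := by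
    unfold CP.ed
    simp
  linarith

private theorem form_conf' (u : (Fin n → ℝ) → ℝ) (p v : Fin n → ℝ) :
    ∑ i, ∑ j, conf u p i j * v i * v j = Real.exp (2 * u p) * ∑ i, v i ^ 2 := by
  rw [Finset.mul_sum]
  refine Finset.sum_congr rfl fun i _ => ?_
  rw [Finset.sum_eq_single i]
  · simp only [conf, Matrix.smul_apply, Matrix.one_apply_eq, smul_eq_mul]
    ring
  · intro j _ hj
    simp [conf, Matrix.smul_apply, Matrix.one_apply_ne hj.symm]
  · intro h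
    exact absurd (Finset.mem_univ i) h

private theorem length_ray (u : (Fin n → ℝ) → ℝ) (a q : Fin n → ℝ) {T : ℝ} (hT : 0 < T) :
    curveLength (conf u) (fun s => a + (s * T) • q) =
      Real.sqrt (∑ i, q i ^ 2) * ∫ t in (0 : ℝ)..T, Real.exp (u (a + t • q)) := by
  have hd : ∀ s : ℝ, deriv (fun s : ℝ => a + (s * T) • q) s = T • q := by
    intro s
    have h1 : HasDerivAt (fun s : ℝ => s * T) T s := by
      simpa using (hasDerivAt_id s).mul_const T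
    exact ((h1.smul_const q).const_add a).deriv
  unfold curveLength
  have e1 : ∀ s : ℝ, Real.sqrt (∑ i, ∑ j, conf u (a + (s * T) • q) i j *
      deriv (fun s : ℝ => a + (s * T) • q) s i * deriv (fun s : ℝ => a + (s * T) • q) s j) =
      T * (Real.sqrt (∑ i, q i ^ 2) * Real.exp (u (a + (s * T) • q))) := by
    intro s
    rw [hd, form_conf']
    have e2 : ∑ i, (T • q) i ^ 2 = T ^ 2 * ∑ i, q i ^ 2 := by
      rw [Finset.mul_sum]
      refine Finset.sum_congr rfl fun i _ => ?_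
      simp only [Pi.smul_apply, smul_eq_mul]
      ring
    have e3 : Real.exp (2 * u (a + (s * T) • q)) = Real.exp (u (a + (s * T) • q)) ^ 2 := by
      rw [← Real.exp_nat_mul]
      norm_num
    rw [e2, e3, Real.sqrt_mul (by positivity), Real.sqrt_mul (by positivity),
      Real.sqrt_sq (Real.exp_pos _).le, Real.sqrt_sq hT.le]
    ring
  simp only [e1]
  rw [intervalIntegral.integral_const_mul]
  have h2 := intervalIntegral.smul_integral_comp_mul_right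
    (a := 0) (b := 1) (fun t : ℝ => Real.sqrt (∑ i, q i ^ 2) * Real.exp (u (a + t • q))) T
  rw [smul_eq_mul, zero_mul, one_mul] at h2
  rw [h2, intervalIntegral.integral_const_mul]

theorem ray_lower (i₀ : Fin n) (hu : ContDiff ℝ ∞ u) (hc : Cpl u) (a : Fin n → ℝ) (R : ℝ) :
    ∃ N₀ : ℕ, ∀ N ≥ N₀, ∀ q ∈ Qs i₀, R ≤ 3 * ∫ t in (0 : ℝ)..2 ^ N, Real.exp (u (a + t • q)) := by
  obtain ⟨K, hK, hGK⟩ := hc a R
  obtain ⟨M, hM⟩ := hK.isBounded.exists_norm_le
  obtain ⟨N₀, hN₀⟩ := pow_unbounded_of_one_lt (M + ‖a‖) (one_lt_two : (1 : ℝ) < 2)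
  refine ⟨N₀, fun N hN q hq => ?_⟩
  have hT : (0 : ℝ) < 2 ^ N := by positivity
  have hTN : (2 : ℝ) ^ N₀ ≤ 2 ^ N := pow_le_pow_right₀ (by norm_num) hN
  have hI : 0 ≤ ∫ t in (0 : ℝ)..2 ^ N, Real.exp (u (a + t • q)) :=
    intervalIntegral.integral_nonneg hT.le fun t _ => (Real.exp_pos _).le
  by_contra hlt
  push Not at hlt
  have hlen : curveLength (conf u) (fun s => a + (s * 2 ^ N) • q) < R := by
    rw [length_ray u a q hT]
    exact lt_of_le_of_lt (mul_le_mul_of_nonneg_right (ed_lt_three hq) hI) hlt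
  have hmem : a + ((1 : ℝ) * 2 ^ N) • q ∈ GB u a R := by
    refine ⟨fun s => a + (s * 2 ^ N) • q, by fun_prop, by simp, rfl, fun t _ => Set.mem_univ _,
      hlen⟩
  have h1 := hM _ (hGK hmem)
  rw [one_mul] at h1
  have h2 : ‖(2 : ℝ) ^ N • q‖ = 2 ^ N * ‖q‖ := by
    rw [norm_smul, Real.norm_of_nonneg hT.le]
  have h3 : ‖(2 : ℝ) ^ N • q‖ ≤ ‖a + (2 : ℝ) ^ N • q‖ + ‖a‖ := by
    have := norm_sub_le (a + (2 : ℝ) ^ N • q) a
    rwa [add_sub_cancel_left] at this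
  have h4 : (2 : ℝ) ^ N * 1 < 2 ^ N * ‖q‖ := mul_lt_mul_of_pos_left (one_lt_norm hq) hT
  linarith

theorem ray_false (hn : 1 ≤ n) (hu : ContDiff ℝ ∞ u) (hc : Cpl u) (a : Fin n → ℝ)
    {A δ R₀ : ℝ} (hδ : 0 < δ) (hA : ∀ R : ℝ, R₀ ≤ R →
      ∫ p in eball a R, Real.exp (u p) ≤ A * R ^ n * R ^ (-(1 + δ) : ℝ)) : False := by
  have i₀ : Fin n := ⟨0, hn⟩
  obtain ⟨K, hK⟩ := ray_upper i₀ hu a hδ hA
  have hopen : IsOpen (Qs i₀) := CP.isOpen_eball _ _
  have hne : (Qs i₀).Nonempty := ⟨Pi.single i₀ 2, by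
    show ∑ i, ((Pi.single i₀ 2 : Fin n → ℝ) i - (Pi.single i₀ 2 : Fin n → ℝ) i) ^ 2 < 1 ^ 2
    simp⟩
  have hcpt := CP.isCompact_ecball' (Pi.single i₀ 2 : Fin n → ℝ) 1
  have hsub : Qs i₀ ⊆ ecball (Pi.single i₀ 2) 1 := CP.eball_subset_ecball' _ _
  have hfin : volume (Qs i₀) < ⊤ := lt_of_le_of_lt (measure_mono hsub) hcpt.measure_lt_top
  have hv : 0 < volume.real (Qs i₀) :=
    ENNReal.toReal_pos (hopen.measure_pos volume hne).ne' hfin.ne
  set v := volume.real (Qs i₀) with hvdef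
  obtain ⟨N, hN⟩ := ray_lower i₀ hu hc a (3 * (K + 1) / v)
  have h1 := hN N le_rfl
  have hcont : Continuous fun q : Fin n → ℝ =>
      ∫ t in (0 : ℝ)..2 ^ N, Real.exp (u (a + t • q)) := by
    refine intervalIntegral.continuous_parametric_intervalIntegral_of_continuous' ?_ 0 (2 ^ N)
    have := hu.continuous
    fun_prop
  have hint : IntegrableOn (fun q : Fin n → ℝ =>
      ∫ t in (0 : ℝ)..2 ^ N, Real.exp (u (a + t • q))) (Qs i₀) :=
    (hcont.continuousOn.integrableOn_compact hcpt).mono_set hsub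
  have h2 : ∫ q in Qs i₀, (K + 1) / v ≤
      ∫ q in Qs i₀, (∫ t in (0 : ℝ)..2 ^ N, Real.exp (u (a + t • q))) := by
    refine setIntegral_mono_on (integrableOn_const hfin.ne) hint
      hopen.measurableSet fun q hq => ?_
    have h3 := h1 q hq
    have h4 : 3 * (K + 1) / v = 3 * ((K + 1) / v) := by ring
    rw [h4] at h3
    linarith
  rw [setIntegral_const, smul_eq_mul, ← hvdef, mul_div_cancel₀ _ hv.ne'] at h2
  linarith [hK N]

end

end Pool.Agent.Helper50.YF
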