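import Pool.Agent.Helper50.YF.Three
import Pool.Agent.Helper50.YF.WH
import Pool.Agent.Helper50.YF.RayL

/-!
# YF-22: `D_a(r) = r e^{mn u a r}` is nondecreasing (complete metrics)

PROOF. If `0 < r ≤ s` and `dd u a s < dd u a r` then `r < s` and, taking logarithms,
`mn u a r - mn u a s = (1 + δ) log(s/r)` with `δ > 0`.  `three_circles` with `(r, s, R)`, `R > s`:
`mn u a R ≤ mn u a s - (1+δ) log(R/s)`, so by `exists_wh`
`∫_{eball a R} e^u ≤ C R^n e^{mn u a s} (R/s)^{-(1+δ)}` for `R ≥ 2s`: `ray_false`.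
-/

namespace Pool.Agent.Helper50.YF

open scoped ContDiff Topology NNReal
open Pool.Agent.Helper49.Ric Pool.Agent.Helper73.HB Pool.Agent.Helper50.CF
  Pool.Agent.Helper50.CE MeasureTheory Filter

noncomputable section

variable {n : ℕ} {u : (Fin n → ℝ) → ℝ}

theorem mon_of_cpl (h : Flat n u) (hc : Cpl u) : Mon u := by
  sorry

end

end Pool.Agent.Helper50.YF
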