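import Pool.Agent.Helper50.YF.Defs

/-!
# YF-24: packing

PROOF. The balls (sup norm, `Metric.closedBall` in `Fin n → ℝ`) are disjoint, of volume `(2ρ)^n`
(`Real.volume_pi_closedBall`), and contained in `Metric.closedBall b ((K+1)ρ)`, of volume
`(2(K+1)ρ)^n`.
-/

namespace Pool.Agent.Helper50.YF

open scoped ContDiff Topology NNReal
open Pool.Agent.Helper49.Ric Pool.Agent.Helper73.HB Pool.Agent.Helper50.CF
  Pool.Agent.Helper50.CE MeasureTheory Filter

noncomputable section

variable {n : ℕ} {u : (Fin n → ℝ) → ℝ}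

theorem card_le {ι : Type} (s : Finset ι) (z : ι → Fin n → ℝ) (b : Fin n → ℝ) {ρ K : ℝ}
    (hρ : 0 < ρ) (hK : 0 ≤ K)
    (hd : ∀ i ∈ s, ∀ j ∈ s, i ≠ j →
      Disjoint (Metric.closedBall (z i) ρ) (Metric.closedBall (z j) ρ))
    (hb : ∀ i ∈ s, dist (z i) b ≤ K * ρ) : (s.card : ℝ) ≤ (K + 1) ^ n := by
  have hR : 0 ≤ (K + 1) * ρ := by positivity
  have hsub : (⋃ i ∈ s, Metric.closedBall (z i) ρ) ⊆ Metric.closedBall b ((K + 1) * ρ) := by
    intro p hp
    simp only [Set.mem_iUnion] at hp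
    obtain ⟨i, hi, hp⟩ := hp
    rw [Metric.mem_closedBall] at hp ⊢
    have h1 := dist_triangle p (z i) b
    have h2 := hb i hi
    linarith
  have hvol : volume (⋃ i ∈ s, Metric.closedBall (z i) ρ) =
      ∑ i ∈ s, volume (Metric.closedBall (z i) ρ) := by
    refine measure_biUnion_finset ?_ ?_
    · intro i hi j hj hij
      exact hd i hi j hj hij
    · intro i _
      exact Metric.isClosed_closedBall.measurableSet
  have h1 : ∑ i ∈ s, volume (Metric.closedBall (z i) ρ) ≤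
      volume (Metric.closedBall b ((K + 1) * ρ)) := by
    rw [← hvol]
    exact measure_mono hsub
  rw [Real.volume_pi_closedBall b hR] at h1
  have h2 : ∀ i ∈ s, volume (Metric.closedBall (z i) ρ) = ENNReal.ofReal ((2 * ρ) ^ n) := by
    intro i _
    rw [Real.volume_pi_closedBall (z i) hρ.le, Fintype.card_fin]
  rw [Finset.sum_congr rfl h2, Finset.sum_const, nsmul_eq_mul, Fintype.card_fin] at h1
  have h3 : ((s.card : ℝ) * (2 * ρ) ^ n) ≤ (2 * ((K + 1) * ρ)) ^ n := by
    have h4 : ENNReal.ofReal ((s.card : ℝ) * (2 * ρ) ^ n) ≤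
        ENNReal.ofReal ((2 * ((K + 1) * ρ)) ^ n) := by
      rw [ENNReal.ofReal_mul (Nat.cast_nonneg _), ENNReal.ofReal_natCast]
      exact h1
    exact (ENNReal.ofReal_le_ofReal_iff (by positivity)).1 h4
  have h5 : (2 * ((K + 1) * ρ)) ^ n = (K + 1) ^ n * (2 * ρ) ^ n := by
    rw [← mul_pow]; ring
  rw [h5] at h3
  exact le_of_mul_le_mul_right h3 (by positivity)

end

end Pool.Agent.Helper50.YF
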