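import Pool.Agent.Helper50.YF.Defs

/-!
# YF-5: derivatives of the barrier `v = A - (B/2) log s - η (R - s)`, `s = |x - a|²`

PROOF. For `F` smooth at `s = |p - a|²`: `∂ᵢ F(s) = 2 F'(s) (pᵢ - aᵢ)`,
`∂ᵢ∂ⱼ F(s) = 4 F''(s) (pᵢ - aᵢ)(pⱼ - aⱼ) + 2 F'(s) δᵢⱼ`.  So `gs = 4 F'² s`, `lp = 2n F' + 4 F'' s`,
`hq = 4 F'² (2 F' s + 4 F'' s²)` and
`gs lp + (n-2) hq = 16 (n-1) F'² s (F' + s F'')`.  For `F(s) = A - (B/2) log s - η (R - s)`:
`F' = -B/(2s) + η`, `s F'' = B/(2s)`, `F' + s F'' = η`, and `F' < 0` since `η < B/(2s)`.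
-/

namespace Pool.Agent.Helper50.YF

open scoped ContDiff Topology NNReal
open Pool.Agent.Helper49.Ric Pool.Agent.Helper73.HB Pool.Agent.Helper50.CF
  Pool.Agent.Helper50.CE MeasureTheory Filter

noncomputable section

variable {n : ℕ} {u : (Fin n → ℝ) → ℝ}

/-- the barrier -/
def bar (a : Fin n → ℝ) (A B η R : ℝ) (p : Fin n → ℝ) : ℝ :=
  A - B / 2 * Real.log (∑ i, (p i - a i) ^ 2) - η * (R - ∑ i, (p i - a i) ^ 2)

private theorem smooth_S (a p : Fin n → ℝ) :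
    ContDiffAt ℝ ∞ (fun q : Fin n → ℝ => ∑ i, (q i - a i) ^ 2) p := by
  have h : ContDiff ℝ ∞ (fun q : Fin n → ℝ => ∑ i, (q i - a i) ^ 2) := by fun_prop
  exact h.contDiffAt

theorem bar_smooth (a : Fin n → ℝ) (A B η R : ℝ) {p : Fin n → ℝ}
    (hp : 0 < ∑ i, (p i - a i) ^ 2) : ContDiffAt ℝ ∞ (bar a A B η R) p := by
  have h1 := smooth_S a p
  have h2 : ContDiffAt ℝ ∞ (fun q : Fin n → ℝ => Real.log (∑ i, (q i - a i) ^ 2)) p :=
    h1.log hp.ne'
  show ContDiffAt ℝ ∞ (fun q : Fin n → ℝ =>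
    A - B / 2 * Real.log (∑ i, (q i - a i) ^ 2) - η * (R - ∑ i, (q i - a i) ^ 2)) p
  exact (contDiffAt_const.sub (contDiffAt_const.mul h2)).sub
    (contDiffAt_const.mul (contDiffAt_const.sub h1))

private theorem pd_coord (a p : Fin n → ℝ) (i j : Fin n) :
    pd i (fun q : Fin n → ℝ => q j - a j) p = if i = j then 1 else 0 := by
  have hd : HasFDerivAt (fun q : Fin n → ℝ => q j - a j)
      (ContinuousLinearMap.proj (R := ℝ) (φ := fun _ : Fin n => ℝ) j) p :=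
    (ContinuousLinearMap.proj (R := ℝ) (φ := fun _ : Fin n => ℝ) j).hasFDerivAt.sub_const _
  rw [pd_eq hd.differentiableAt, hd.fderiv]
  show (Pi.single i (1 : ℝ) : Fin n → ℝ) j = _
  by_cases h : i = j
  · subst h; simp
  · simp [h, Pi.single_eq_of_ne (Ne.symm h)]

private theorem diff_coord (a p : Fin n → ℝ) (j : Fin n) :
    DifferentiableAt ℝ (fun q : Fin n → ℝ => q j - a j) p := by fun_prop

private theorem pd_S (a p : Fin n → ℝ) (i : Fin n) :
    pd i (fun q : Fin n → ℝ => ∑ j, (q j - a j) ^ 2) p = 2 * (p i - a i) := by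
  rw [pd_sum (fun j _ => by fun_prop)]
  have h : ∀ j : Fin n, pd i (fun q : Fin n → ℝ => (q j - a j) ^ 2) p =
      if i = j then 2 * (p i - a i) else 0 := by
    intro j
    have h1 : (fun q : Fin n → ℝ => (q j - a j) ^ 2) =
        fun q : Fin n → ℝ => (q j - a j) * (q j - a j) := by
      funext q; ring
    rw [h1, pd_mul (diff_coord a p j) (diff_coord a p j), pd_coord]
    by_cases h : i = j
    · subst h; simp; ring
    · simp [h]
  rw [Finset.sum_congr rfl fun j _ => h j]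
  simp

/-- derivative of a function of `|p - a|²` -/
private theorem pd_rad {F : ℝ → ℝ} {F' : ℝ} (a p : Fin n → ℝ)
    (hF : HasDerivAt F F' (∑ j, (p j - a j) ^ 2)) (i : Fin n) :
    pd i (fun q : Fin n → ℝ => F (∑ j, (q j - a j) ^ 2)) p = F' * (2 * (p i - a i)) := by
  have hu := diff_of_smooth (smooth_S a p)
  have H : HasFDerivAt (fun q : Fin n → ℝ => F (∑ j, (q j - a j) ^ 2))
      (F' • fderiv ℝ (fun q : Fin n → ℝ => ∑ j, (q j - a j) ^ 2) p) p :=
    hF.comp_hasFDerivAt p hu.hasFDerivAt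
  have h : pd i (fun q : Fin n → ℝ => F (∑ j, (q j - a j) ^ 2)) p =
      F' * pd i (fun q : Fin n → ℝ => ∑ j, (q j - a j) ^ 2) p := by
    rw [pd_eq H.differentiableAt, pd_eq hu, H.fderiv]
    rfl
  rw [h, pd_S]

private theorem pos_ev (a : Fin n → ℝ) {p : Fin n → ℝ} (hp : 0 < ∑ i, (p i - a i) ^ 2) :
    ∀ᶠ q : Fin n → ℝ in 𝓝 p, 0 < ∑ i, (q i - a i) ^ 2 :=
  (smooth_S a p).continuousAt.eventually (lt_mem_nhds hp)

private theorem pd_bar (a : Fin n → ℝ) (A B η R : ℝ) {p : Fin n → ℝ}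
    (hp : 0 < ∑ i, (p i - a i) ^ 2) (i : Fin n) :
    pd i (bar a A B η R) p =
      (-(B / 2) * (∑ j, (p j - a j) ^ 2)⁻¹ + η) * (2 * (p i - a i)) := by
  refine pd_rad (F := fun s => A - B / 2 * Real.log s - η * (R - s)) a p ?_ i
  have h1 := Real.hasDerivAt_log hp.ne'
  have h2 := ((h1.const_mul (B / 2)).const_sub A).sub
    (((hasDerivAt_id (∑ j, (p j - a j) ^ 2)).const_sub R).const_mul η)
  refine (h2.congr_deriv ?_)
  ring

private theorem pd_pd_bar (a : Fin n → ℝ) (A B η R : ℝ) {p : Fin n → ℝ}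
    (hp : 0 < ∑ i, (p i - a i) ^ 2) (i j : Fin n) :
    pd i (pd j (bar a A B η R)) p =
      (B / 2 * (∑ j, (p j - a j) ^ 2)⁻¹ ^ 2 * (2 * (p i - a i))) * (2 * (p j - a j)) +
      (-(B / 2) * (∑ j, (p j - a j) ^ 2)⁻¹ + η) * (2 * if i = j then 1 else 0) := by
  have h1 : pd j (bar a A B η R) =ᶠ[𝓝 p] fun q =>
      (-(B / 2) * (∑ j, (q j - a j) ^ 2)⁻¹ + η) * (2 * (q j - a j)) := by
    filter_upwards [pos_ev a hp] with q hq
    exact pd_bar a A B η R hq j
  rw [pd_congr h1]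
  have hG : HasDerivAt (fun s : ℝ => -(B / 2) * s⁻¹ + η)
      (B / 2 * (∑ j, (p j - a j) ^ 2)⁻¹ ^ 2) (∑ j, (p j - a j) ^ 2) := by
    have h2 := ((hasDerivAt_inv hp.ne').const_mul (-(B / 2))).add_const η
    refine h2.congr_deriv ?_
    rw [inv_pow]; ring
  have hd1 : DifferentiableAt ℝ (fun q : Fin n → ℝ =>
      -(B / 2) * (∑ j, (q j - a j) ^ 2)⁻¹ + η) p :=
    DifferentiableAt.comp (g := fun s : ℝ => -(B / 2) * s⁻¹ + η)
      (f := fun q : Fin n → ℝ => ∑ j, (q j - a j) ^ 2) p hG.differentiableAt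
      (diff_of_smooth (smooth_S a p))
  have hd2 : DifferentiableAt ℝ (fun q : Fin n → ℝ => 2 * (q j - a j)) p := by fun_prop
  rw [pd_mul hd1 hd2, pd_const_mul 2 (diff_coord a p j), pd_coord]
  have h3 := pd_rad (F := fun s : ℝ => -(B / 2) * s⁻¹ + η) a p hG i
  rw [h3]

theorem bar_pos (hn : 2 ≤ n) (a : Fin n → ℝ) (A : ℝ) {B η : ℝ} (R : ℝ) {p : Fin n → ℝ}
    (hp : 0 < ∑ i, (p i - a i) ^ 2) (hη : 0 < η) (hB : 2 * η * ∑ i, (p i - a i) ^ 2 < B) :
    0 < gs (bar a A B η R) p * CF.lp (bar a A B η R) p +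
      ((n : ℝ) - 2) * hq (bar a A B η R) p := by
  set S : ℝ := ∑ i, (p i - a i) ^ 2 with hS
  set φ : ℝ := -(B / 2) * S⁻¹ + η with hφ
  set κ : ℝ := B / 2 * S⁻¹ ^ 2 with hκ
  have e1 : ∀ i, pd i (bar a A B η R) p = φ * (2 * (p i - a i)) := fun i =>
    pd_bar a A B η R hp i
  have e2 : ∀ i j, pd i (pd j (bar a A B η R)) p =
      (κ * (2 * (p i - a i))) * (2 * (p j - a j)) + φ * (2 * if i = j then 1 else 0) :=
    fun i j => pd_pd_bar a A B η R hp i j
  have g1 : gs (bar a A B η R) p = 4 * φ ^ 2 * S := by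
    unfold gs
    rw [hS, Finset.mul_sum]
    refine Finset.sum_congr rfl fun i _ => ?_
    rw [e1]; ring
  have g2 : CF.lp (bar a A B η R) p = 4 * κ * S + 2 * n * φ := by
    unfold CF.lp
    have : ∀ i : Fin n, pd i (pd i (bar a A B η R)) p = 4 * κ * (p i - a i) ^ 2 + 2 * φ := by
      intro i
      rw [e2]; simp; ring
    rw [Finset.sum_congr rfl fun i _ => this i, Finset.sum_add_distrib, ← Finset.mul_sum]
    simp
    rw [hS]; ring
  have g3 : hq (bar a A B η R) p = 16 * φ ^ 2 * κ * S ^ 2 + 8 * φ ^ 3 * S := by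
    unfold hq
    have h1 : ∀ i j : Fin n, pd i (pd j (bar a A B η R)) p * pd i (bar a A B η R) p *
        pd j (bar a A B η R) p = 16 * φ ^ 2 * κ * ((p i - a i) ^ 2 * (p j - a j) ^ 2) +
          if i = j then 8 * φ ^ 3 * (p i - a i) ^ 2 else 0 := by
      intro i j
      rw [e2, e1, e1]
      by_cases h : i = j
      · subst h; simp; ring
      · simp [h]; ring
    have h2 : ∀ i : Fin n, ∑ j, pd i (pd j (bar a A B η R)) p * pd i (bar a A B η R) p *
        pd j (bar a A B η R) p =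
          16 * φ ^ 2 * κ * S * (p i - a i) ^ 2 + 8 * φ ^ 3 * (p i - a i) ^ 2 := by
      intro i
      rw [Finset.sum_congr rfl fun j _ => h1 i j, Finset.sum_add_distrib, ← Finset.mul_sum,
        ← Finset.mul_sum, ← hS]
      simp
      ring
    rw [Finset.sum_congr rfl fun i _ => h2 i, Finset.sum_add_distrib, ← Finset.mul_sum,
      ← Finset.mul_sum, ← hS]
    ring
  have h4 : κ * S + φ = η := by
    rw [hκ, hφ]
    field_simp
    ring
  have h5 : φ ≠ 0 := by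
    intro h0
    have : φ * S = 0 := by rw [h0]; ring
    rw [hφ] at this
    field_simp at this
    linarith
  have h6 : gs (bar a A B η R) p * CF.lp (bar a A B η R) p +
      ((n : ℝ) - 2) * hq (bar a A B η R) p = 16 * ((n : ℝ) - 1) * φ ^ 2 * S * η := by
    rw [g1, g2, g3, ← h4]; ring
  rw [h6]
  have hn' : (2 : ℝ) ≤ n := by exact_mod_cast hn
  have h7 : 0 < φ ^ 2 := by positivity
  have h8 : (0 : ℝ) < (n : ℝ) - 1 := by linarith
  positivity

end

end Pool.Agent.Helper50.YF
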