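import Pool.Agent.Helper50.YF.Defs

/-!
# YF-20: the rays: upper bound (Fubini and dyadic annuli)

PROOF. `Q = eball (2 e₁) 1`, `e₁ = Pi.single i₀ 1` (`n ≥ 1`): `1 < |q| < 3` on `Q`.  For
`3 t ≥ R₀`: `∫_Q e^{u(a+tq)} dq ≤ t^{-n} ∫_{eball a (3t)} e^u ≤ A 3^n (3t)^{-(1+δ)}`; this is
integrable on `[T₀, ∞)`, and on `[0, T₀]` the integral is a fixed number.
-/

namespace Pool.Agent.Helper50.YF

open scoped ContDiff Topology NNReal
open Pool.Agent.Helper49.Ric Pool.Agent.Helper73.HB Pool.Agent.Helper50.CF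
  Pool.Agent.Helper50.CE MeasureTheory Filter

noncomputable section

variable {n : ℕ} {u : (Fin n → ℝ) → ℝ}

/-- the base of the cone of rays -/
def Qs (i₀ : Fin n) : Set (Fin n → ℝ) := eball (Pi.single i₀ 2) 1

private theorem Qs_sub (i₀ : Fin n) : Qs i₀ ⊆ B n 3 := by
  intro q hq
  have h0 : ∑ i, (q i - (Pi.single i₀ 2 : Fin n → ℝ) i) ^ 2 < 1 ^ 2 := hq
  have h1 : (q i₀ - (Pi.single i₀ 2 : Fin n → ℝ) i₀) ^ 2 ≤
      ∑ i, (q i - (Pi.single i₀ 2 : Fin n → ℝ) i) ^ 2 :=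
    Finset.single_le_sum (f := fun i => (q i - (Pi.single i₀ 2 : Fin n → ℝ) i) ^ 2)
      (fun i _ => sq_nonneg _) (Finset.mem_univ i₀)
  rw [Pi.single_eq_same] at h1
  have h2 : ∑ i, q i ^ 2 - ∑ i, (q i - (Pi.single i₀ 2 : Fin n → ℝ) i) ^ 2 = 4 * q i₀ - 4 := by
    rw [← Finset.sum_sub_distrib, Finset.sum_eq_single i₀]
    · rw [Pi.single_eq_same]
      ring
    · intro j _ hj
      rw [Pi.single_eq_of_ne hj]
      ring
    · simp
  show ∑ i, q i ^ 2 < 3 ^ 2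
  have h3 : q i₀ < 3 := by nlinarith
  linarith

private theorem int_prod (i₀ : Fin n) (hu : ContDiff ℝ ∞ u) (a : Fin n → ℝ) (T : ℝ) :
    Integrable (Function.uncurry fun (q : Fin n → ℝ) (t : ℝ) => Real.exp (u (a + t • q)))
      ((volume.restrict (Qs i₀)).prod (volume.restrict (Set.Ioc 0 T))) := by
  rw [Measure.prod_restrict]
  have hc : Continuous (Function.uncurry
      fun (q : Fin n → ℝ) (t : ℝ) => Real.exp (u (a + t • q))) := by
    have := hu.continuous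
    simp only [Function.uncurry_def]
    fun_prop
  have hK : IsCompact (ecball (Pi.single i₀ 2 : Fin n → ℝ) 1 ×ˢ Set.Icc (0 : ℝ) T) :=
    (CF.isCompact_ecball _ _).prod isCompact_Icc
  exact (hc.continuousOn.integrableOn_compact hK).mono_set
    (Set.prod_mono (CF.eball_subset_ecball _ _) Set.Ioc_subset_Icc_self)

private theorem slice_le (i₀ : Fin n) (hu : ContDiff ℝ ∞ u) (a : Fin n → ℝ) {t : ℝ}
    (ht : 0 < t) :
    ∫ q in Qs i₀, Real.exp (u (a + t • q)) ≤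
      (t ^ n)⁻¹ * ∫ y in eball a (3 * t), Real.exp (u y) := by
  rw [← setIntegral_dil (fun y => Real.exp (u y)) a ht 3]
  refine setIntegral_mono_set ?_ (Eventually.of_forall fun x => (Real.exp_pos _).le)
    (Qs_sub i₀).eventuallyLE
  have hc : Continuous fun x : Fin n → ℝ => Real.exp (u (a + t • x)) := by
    have := hu.continuous
    fun_prop
  have h1 : B n 3 ⊆ ecball (0 : Fin n → ℝ) 3 := by
    intro x hx
    have h2 : ∑ i, x i ^ 2 < 3 ^ 2 := hx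
    show ∑ i, (x i - (0 : Fin n → ℝ) i) ^ 2 ≤ 3 ^ 2
    simp only [Pi.zero_apply, sub_zero]
    exact h2.le
  exact (hc.continuousOn.integrableOn_compact (CF.isCompact_ecball _ _)).mono_set h1

theorem ray_upper (i₀ : Fin n) (hu : ContDiff ℝ ∞ u) (a : Fin n → ℝ) {A δ R₀ : ℝ}
    (hδ : 0 < δ) (hA : ∀ R : ℝ, R₀ ≤ R →
      ∫ p in eball a R, Real.exp (u p) ≤ A * R ^ n * R ^ (-(1 + δ) : ℝ)) :
    ∃ K : ℝ, ∀ N : ℕ, ∫ q in Qs i₀, (∫ t in (0 : ℝ)..2 ^ N, Real.exp (u (a + t • q))) ≤ K := by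
  set G : ℝ → ℝ := fun t => ∫ q in Qs i₀, Real.exp (u (a + t • q)) with hG
  set T₀ : ℝ := max R₀ 1 with hT₀
  set H : ℝ → ℝ := fun t => |A| * 3 ^ n * t ^ (-(1 + δ) : ℝ) with hH
  have hT1 : 1 ≤ T₀ := le_max_right _ _
  have hG0 : ∀ t, 0 ≤ G t := fun t => setIntegral_nonneg
    (CF.isOpen_eball _ _).measurableSet fun q _ => (Real.exp_pos _).le
  have hGi : ∀ T, IntegrableOn G (Set.Ioc 0 T) := fun T =>
    (int_prod i₀ hu a T).integral_prod_right
  have hHi : IntegrableOn H (Set.Ioi T₀) := by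
    refine Integrable.const_mul ?_ _
    exact integrableOn_Ioi_rpow_of_lt (by linarith) (by linarith)
  have hH0 : ∀ t ∈ Set.Ioi T₀, 0 ≤ H t := fun t ht => by
    have : 0 < t := by
      have := Set.mem_Ioi.1 ht
      linarith
    positivity
  have hGH : ∀ t, T₀ ≤ t → G t ≤ H t := by
    intro t ht
    have ht0 : 0 < t := by linarith
    have h3 : (0 : ℝ) < 3 * t := by linarith
    have h1 := slice_le i₀ hu a ht0
    have h2 := hA (3 * t) (by linarith [le_max_left R₀ 1])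
    have h4 : (t ^ n)⁻¹ * ∫ y in eball a (3 * t), Real.exp (u y) ≤
        (t ^ n)⁻¹ * (A * (3 * t) ^ n * (3 * t) ^ (-(1 + δ) : ℝ)) :=
      mul_le_mul_of_nonneg_left h2 (by positivity)
    have h5 : (t ^ n)⁻¹ * (A * (3 * t) ^ n * (3 * t) ^ (-(1 + δ) : ℝ)) =
        A * 3 ^ n * (3 * t) ^ (-(1 + δ) : ℝ) := by
      rw [mul_pow]
      field_simp
    have h6 : A * 3 ^ n * (3 * t) ^ (-(1 + δ) : ℝ) ≤ |A| * 3 ^ n * (3 * t) ^ (-(1 + δ) : ℝ) := by
      gcongr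
      exact le_abs_self A
    have h7 : (3 * t) ^ (-(1 + δ) : ℝ) ≤ t ^ (-(1 + δ) : ℝ) :=
      Real.rpow_le_rpow_of_nonpos ht0 (by linarith) (by linarith)
    have h8 : |A| * 3 ^ n * (3 * t) ^ (-(1 + δ) : ℝ) ≤ |A| * 3 ^ n * t ^ (-(1 + δ) : ℝ) :=
      mul_le_mul_of_nonneg_left h7 (by positivity)
    exact h1.trans (h4.trans (h5.le.trans (h6.trans h8)))
  refine ⟨(∫ t in Set.Ioc 0 T₀, G t) + ∫ t in Set.Ioi T₀, H t, fun N => ?_⟩
  have hN : (0 : ℝ) ≤ 2 ^ N := by positivity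
  have h1 : ∫ q in Qs i₀, (∫ t in (0 : ℝ)..2 ^ N, Real.exp (u (a + t • q))) =
      ∫ t in Set.Ioc 0 (2 ^ N : ℝ), G t := by
    simp only [intervalIntegral.integral_of_le hN]
    exact integral_integral_swap (int_prod i₀ hu a (2 ^ N))
  rw [h1]
  set T : ℝ := max (2 ^ N) T₀ with hT
  have h2 : ∫ t in Set.Ioc 0 (2 ^ N : ℝ), G t ≤ ∫ t in Set.Ioc 0 T, G t :=
    setIntegral_mono_set (hGi T) (Eventually.of_forall hG0)
      (Set.Ioc_subset_Ioc_right (le_max_left _ _)).eventuallyLE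
  have h3 : ∫ t in Set.Ioc 0 T, G t = (∫ t in Set.Ioc 0 T₀, G t) + ∫ t in Set.Ioc T₀ T, G t := by
    rw [← Set.Ioc_union_Ioc_eq_Ioc (show (0 : ℝ) ≤ T₀ by linarith) (le_max_right _ _)]
    refine setIntegral_union ?_ measurableSet_Ioc (hGi T₀) ?_
    · rw [Set.disjoint_left]
      intro x hx hx'
      exact absurd hx.2 (not_le.2 hx'.1)
    · exact (hGi T).mono_set (Set.Ioc_subset_Ioc_left (by linarith))
  have h4 : ∫ t in Set.Ioc T₀ T, G t ≤ ∫ t in Set.Ioc T₀ T, H t :=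
    setIntegral_mono_on ((hGi T).mono_set (Set.Ioc_subset_Ioc_left (by linarith)))
      (hHi.mono_set Set.Ioc_subset_Ioi_self) measurableSet_Ioc fun t ht => hGH t ht.1.le
  have h5 : ∫ t in Set.Ioc T₀ T, H t ≤ ∫ t in Set.Ioi T₀, H t :=
    setIntegral_mono_set hHi (ae_restrict_of_forall_mem measurableSet_Ioi hH0)
      Set.Ioc_subset_Ioi_self.eventuallyLE
  linarith

end

end Pool.Agent.Helper50.YF
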