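import Pool.Agent.Helper50.YF.DecayM
import Pool.Agent.Helper50.YF.EnergyM
import Pool.Agent.Helper50.YF.LastM
import Pool.Agent.Helper50.YF.Resc

/-!
# YF-17: balls of small mass (assembly)
-/

namespace Pool.Agent.Helper50.YF

open scoped ContDiff Topology NNReal
open Pool.Agent.Helper49.Ric Pool.Agent.Helper73.HB Pool.Agent.Helper50.CF
  Pool.Agent.Helper50.CE MeasureTheory Filter

noncomputable section

variable {n : ℕ} {u : (Fin n → ℝ) → ℝ}

theorem exists_unit (n : ℕ) (hn : 3 ≤ n) : ∃ ε C : ℝ, 0 < ε ∧ 1 ≤ C ∧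
    ∀ {u : (Fin n → ℝ) → ℝ}, Flat n u → (∃ p ∈ Bc n 4, u p ≤ 0) → mu u (ph n) ≤ ε →
      ∫ p in B n 1, sc u p ≤ C := by
  obtain ⟨ε, k₀, hε, -, h1⟩ := exists_decayM n hn
  obtain ⟨C₂, hC₂, h2⟩ := exists_energyM n k₀
  obtain ⟨C₃, hC₃, h3⟩ := exists_lastM n
  refine ⟨ε, C₃ * C₂, hε, one_le_mul_of_one_le_of_one_le hC₃ hC₂, fun {u} hu hp hm => ?_⟩
  obtain ⟨h4, h5⟩ := h2 hu (h1 hu hp hm)
  exact h3 hu C₂ h4 h5

theorem exists_small (n : ℕ) (hn : 3 ≤ n) : ∃ ε C : ℝ, 0 < ε ∧ 1 ≤ C ∧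
    ∀ {u : (Fin n → ℝ) → ℝ}, Flat n u → ∀ (z : Fin n → ℝ) {r : ℝ}, 0 < r → ms u z r ≤ ε →
      ∫ p in eball z r, sc u p ≤ C * dd u z (4 * r) ^ (n - 2) := by
  obtain ⟨ε, C, hε, hC, h⟩ := exists_unit n hn
  refine ⟨ε, C, hε, hC, fun {u} hu z r hr hm => ?_⟩
  set m := mn u z (4 * r) with hmd
  have hf := flat_re hu z hr (-m)
  obtain ⟨x, hx, hx0⟩ := re_zero hu.smooth.continuous z hr (s := 4) (by norm_num)
  have h1 := h hf ⟨x, hx, hx0.le⟩ (by rw [mu_re (by omega) u z hr]; exact hm)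
  have h2 := sc_re u z hr (-m)
  have h3 : r ^ n * ∫ x in B n 1, sc (re u z r (-m)) x ≤ r ^ n * C :=
    mul_le_mul_of_nonneg_left h1 (by positivity)
  rw [h2] at h3
  obtain ⟨k, rfl⟩ : ∃ k, n = k + 2 := ⟨n - 2, by omega⟩
  have e1 : (((k + 2 : ℕ) : ℝ) - 2) = (k : ℝ) := by push_cast; ring
  rw [e1] at h3
  have e2 : k + 2 - 2 = k := by omega
  rw [e2]
  have h4 : ∫ p in eball z r, sc u p ≤ C * (r * Real.exp m) ^ k := by
    have h5 : 0 < r ^ 2 * Real.exp (k * -m) := by positivity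
    have h6 : r ^ 2 * Real.exp (k * -m) * (C * (r * Real.exp m) ^ k) = r ^ (k + 2) * C := by
      rw [mul_pow, ← Real.exp_nat_mul]
      have h7 : Real.exp (k * -m) * Real.exp (k * m) = 1 := by
        rw [← Real.exp_add]; simp
      calc r ^ 2 * Real.exp (k * -m) * (C * (r ^ k * Real.exp (k * m)))
          = r ^ (k + 2) * C * (Real.exp (k * -m) * Real.exp (k * m)) := by ring
        _ = r ^ (k + 2) * C := by rw [h7, mul_one]
    refine le_of_mul_le_mul_left ?_ h5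
    rw [h6]
    exact h3
  refine h4.trans (mul_le_mul_of_nonneg_left ?_ (by linarith))
  refine pow_le_pow_left₀ (by positivity) ?_ k
  unfold dd
  rw [← hmd]
  have : 0 < Real.exp m := Real.exp_pos _
  nlinarith

end

end Pool.Agent.Helper50.YF
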