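import Pool.Agent.Helper50.YF.Defs

/-!
# YF-9: the Euclidean Sobolev inequality with `gs`

PROOF. Mathlib `MeasureTheory.eLpNorm_le_eLpNorm_fderiv_of_eq` (`E = Fin n → ℝ`, `F = ℝ`, `p = 2`,
`p' = 2n/(n-2)`, `volume` is a Haar measure), `‖fderiv ℝ f p‖ ≤ ∑ᵢ |pd i f p| ≤ √n gr f p`, and
`eLpNorm` of a continuous function with compact support as a Bochner integral.
-/

namespace Pool.Agent.Helper50.YF

open scoped ContDiff Topology NNReal
open Pool.Agent.Helper49.Ric Pool.Agent.Helper73.HB Pool.Agent.Helper50.CF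
  Pool.Agent.Helper50.CE MeasureTheory Filter

noncomputable section

variable {n : ℕ} {u : (Fin n → ℝ) → ℝ}

private theorem norm_fderiv_sq_le {f : (Fin n → ℝ) → ℝ} (hf : Differentiable ℝ f)
    (p : Fin n → ℝ) : ‖fderiv ℝ f p‖ ^ 2 ≤ n * gs f p := by
  have h1 : ‖fderiv ℝ f p‖ ≤ ∑ i, |pd i f p| := by
    refine ContinuousLinearMap.opNorm_le_bound _ (Finset.sum_nonneg fun i _ => abs_nonneg _)
      fun v => ?_
    have h2 : fderiv ℝ f p v = ∑ i, v i * pd i f p := by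
      conv_lhs => rw [pi_eq_sum_univ' v]
      rw [map_sum]
      refine Finset.sum_congr rfl fun i _ => ?_
      rw [map_smul, smul_eq_mul, pd_eq (hf p)]
    rw [h2, Finset.sum_mul]
    refine (norm_sum_le _ _).trans (Finset.sum_le_sum fun i _ => ?_)
    rw [norm_mul, mul_comm]
    exact mul_le_mul_of_nonneg_left (norm_le_pi_norm v i) (abs_nonneg _)
  have h3 : (∑ i, |pd i f p|) ^ 2 ≤ n * ∑ i, |pd i f p| ^ 2 := by
    have := sq_sum_le_card_mul_sum_sq (s := (Finset.univ : Finset (Fin n)))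
      (f := fun i => |pd i f p|)
    simpa using this
  calc ‖fderiv ℝ f p‖ ^ 2 ≤ (∑ i, |pd i f p|) ^ 2 := pow_le_pow_left₀ (norm_nonneg _) h1 2
    _ ≤ n * ∑ i, |pd i f p| ^ 2 := h3
    _ = n * gs f p := by
      unfold gs
      simp only [sq_abs]

private theorem integrable_gs' {f : (Fin n → ℝ) → ℝ} (hf : ContDiff ℝ ∞ f)
    (hs : HasCompactSupport f) : Integrable (gs f) := by
  have hd : Differentiable ℝ f := hf.differentiable (by simp)
  have hc : Continuous (fderiv ℝ f) := hf.continuous_fderiv (by simp)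
  have hpd : ∀ i, pd i f = fun p => fderiv ℝ f p (Pi.single i 1) := fun i =>
    funext fun p => pd_eq (hd p) i
  have hcont : Continuous (gs f) := by
    unfold gs
    refine continuous_finsetSum _ fun i _ => ?_
    rw [hpd i]
    exact (hc.clm_apply continuous_const).pow 2
  refine hcont.integrable_of_hasCompactSupport ?_
  refine HasCompactSupport.intro (hs.fderiv ℝ) fun p hp => ?_
  have h0 : fderiv ℝ f p = 0 := image_eq_zero_of_notMem_tsupport hp
  unfold gs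
  refine Finset.sum_eq_zero fun i _ => ?_
  rw [hpd i]
  simp only [h0, zero_apply]
  norm_num

theorem exists_sobE (n : ℕ) (hn : 3 ≤ n) : ∃ C : ℝ, 1 ≤ C ∧ ∀ f : (Fin n → ℝ) → ℝ,
    ContDiff ℝ ∞ f → HasCompactSupport f →
      (∫ p, |f p| ^ (2 * n / (n - 2) : ℝ)) ^ ((n - 2) / n : ℝ) ≤ C * ∫ p, gs f p := by
  have hn3 : (3 : ℝ) ≤ n := by exact_mod_cast hn
  have hn2 : (0 : ℝ) < n - 2 := by linarith
  have hn0 : (0 : ℝ) < n := by linarith
  set q : ℝ≥0 := ⟨2 * n / (n - 2), by positivity⟩ with hq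
  have hqr : (q : ℝ) = 2 * n / (n - 2) := rfl
  have hq0 : (0 : ℝ) < q := by rw [hqr]; positivity
  set K : ℝ≥0 := SNormLESNormFDerivOfEqConst ℝ (volume : Measure (Fin n → ℝ)) 2 with hK
  refine ⟨(K : ℝ) ^ 2 * n + 1, by have : (0 : ℝ) ≤ (K : ℝ) ^ 2 * n := by positivity
                                  linarith, fun f hf hs => ?_⟩
  have hd : Differentiable ℝ f := hf.differentiable (by simp)
  have hfc : Continuous f := hf.continuous
  have hc : Continuous (fderiv ℝ f) := hf.continuous_fderiv (by simp)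
  have hsd : HasCompactSupport (fderiv ℝ f) := hs.fderiv ℝ
  have hsob : eLpNorm f q volume ≤ K * eLpNorm (fderiv ℝ f) (2 : ℝ≥0) volume := by
    refine eLpNorm_le_eLpNorm_fderiv_of_eq (p := 2) (p' := q) (volume : Measure (Fin n → ℝ))
      (hf.of_le (by simp)) hs (by norm_num) (by simp; omega) ?_
    rw [hqr, NNReal.coe_inv, NNReal.coe_ofNat]
    simp only [Module.finrank_fintype_fun_eq_card, Fintype.card_fin]
    field_simp
  have hm1 : MemLp f (q : ENNReal) volume := hfc.memLp_of_hasCompactSupport hs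
  have hm2 : MemLp (fderiv ℝ f) ((2 : ℝ≥0) : ENNReal) volume :=
    hc.memLp_of_hasCompactSupport hsd
  rw [hm1.eLpNorm_eq_integral_rpow_norm (by simpa using (NNReal.coe_pos.1 hq0).ne')
      ENNReal.coe_ne_top,
    hm2.eLpNorm_eq_integral_rpow_norm (by norm_num) ENNReal.coe_ne_top] at hsob
  simp only [ENNReal.coe_toReal, NNReal.coe_ofNat] at hsob
  set A : ℝ := ∫ p, ‖f p‖ ^ (q : ℝ) with hA
  set B : ℝ := ∫ p, ‖fderiv ℝ f p‖ ^ (2 : ℝ) with hB
  have hA0 : 0 ≤ A := integral_nonneg fun p => Real.rpow_nonneg (norm_nonneg _) _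
  have hB0 : 0 ≤ B := integral_nonneg fun p => Real.rpow_nonneg (norm_nonneg _) _
  have h1 : A ^ (q : ℝ)⁻¹ ≤ K * B ^ (2 : ℝ)⁻¹ := by
    rw [← ENNReal.ofReal_coe_nnreal, ← ENNReal.ofReal_mul (NNReal.coe_nonneg K)] at hsob
    exact (ENNReal.ofReal_le_ofReal_iff (by positivity)).1 hsob
  have h2 : (A ^ (q : ℝ)⁻¹) ^ 2 ≤ (K * B ^ (2 : ℝ)⁻¹) ^ 2 :=
    pow_le_pow_left₀ (Real.rpow_nonneg hA0 _) h1 2
  have h3 : (A ^ (q : ℝ)⁻¹) ^ 2 = A ^ ((n - 2) / n : ℝ) := by
    rw [← Real.rpow_natCast, ← Real.rpow_mul hA0]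
    congr 1
    rw [hqr]
    push_cast
    field_simp
  have h4 : ((K : ℝ) * B ^ (2 : ℝ)⁻¹) ^ 2 = (K : ℝ) ^ 2 * B := by
    rw [mul_pow, ← Real.rpow_natCast (B ^ (2 : ℝ)⁻¹), ← Real.rpow_mul hB0]
    norm_num
  have h5 : B ≤ n * ∫ p, gs f p := by
    rw [← integral_const_mul]
    refine integral_mono_of_nonneg (Eventually.of_forall fun p =>
      Real.rpow_nonneg (norm_nonneg _) _) ((integrable_gs' hf hs).const_mul _)
      (Eventually.of_forall fun p => ?_)
    have := norm_fderiv_sq_le hd p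
    simpa using this
  have h6 : 0 ≤ ∫ p, gs f p := integral_nonneg fun p => gs_nonneg f p
  have h7 : A = ∫ p, |f p| ^ (2 * n / (n - 2) : ℝ) := rfl
  rw [← h7, ← h3]
  calc (A ^ (q : ℝ)⁻¹) ^ 2 ≤ (K : ℝ) ^ 2 * B := by rw [← h4]; exact h2
    _ ≤ (K : ℝ) ^ 2 * (n * ∫ p, gs f p) := mul_le_mul_of_nonneg_left h5 (by positivity)
    _ ≤ ((K : ℝ) ^ 2 * n + 1) * ∫ p, gs f p := by nlinarith

end

end Pool.Agent.Helper50.YF
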