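import Pool.Agent.Helper50.YF.Pack

/-!
# YF-25: the sum over balls central to `b`

PROOF. Group the `i ∈ s` by `m = j i` (fibres over the finite set `J = s.image j`): each fibre has at
most `(K+1)^n` elements (`card_le` with `ρ = 2^m`), so the sum is at most
`(K+1)^n ∑_{m ∈ J} 2^m φ(2^m)`, and `2^m φ(2^m) ≤ 2 ∫_{2^{m-1}}^{2^m} φ` (`φ` antitone); the intervals
`(2^{m-1}, 2^m]`, `m ∈ J`, are disjoint subsets of `(0, R]` and `φ ≥ 0`.
-/

namespace Pool.Agent.Helper50.YF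

open scoped ContDiff Topology NNReal
open Pool.Agent.Helper49.Ric Pool.Agent.Helper73.HB Pool.Agent.Helper50.CF
  Pool.Agent.Helper50.CE MeasureTheory Filter

noncomputable section

variable {n : ℕ} {u : (Fin n → ℝ) → ℝ}

private theorem two_zpow_half (m : ℤ) : (2 : ℝ) ^ m = 2 * (2 : ℝ) ^ (m - 1) := by
  rw [zpow_sub_one₀ (by norm_num : (2 : ℝ) ≠ 0)]
  ring

private theorem dyadic_piece {R : ℝ} {φ : ℝ → ℝ} (hφ : AntitoneOn φ (Set.Ici 0))
    (hint : IntegrableOn φ (Set.Ioc 0 R) volume) {m : ℤ} (hm : (2 : ℝ) ^ m ≤ R) :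
    (2 : ℝ) ^ m * φ (2 ^ m) ≤ 2 * ∫ t in Set.Ioc ((2 : ℝ) ^ (m - 1)) ((2 : ℝ) ^ m), φ t := by
  have hp : (0 : ℝ) < (2 : ℝ) ^ (m - 1) := by positivity
  have hp' : (0 : ℝ) < (2 : ℝ) ^ m := by positivity
  have h2 := two_zpow_half m
  have hsub : Set.Ioc ((2 : ℝ) ^ (m - 1)) ((2 : ℝ) ^ m) ⊆ Set.Ioc 0 R := by
    intro t ht
    exact ⟨lt_trans hp ht.1, le_trans ht.2 hm⟩
  have h3 : ∫ _t in Set.Ioc ((2 : ℝ) ^ (m - 1)) ((2 : ℝ) ^ m), φ (2 ^ m) ≤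
      ∫ t in Set.Ioc ((2 : ℝ) ^ (m - 1)) ((2 : ℝ) ^ m), φ t := by
    apply setIntegral_mono_on
    · exact integrableOn_const (by simp)
    · exact hint.mono_set hsub
    · exact measurableSet_Ioc
    · intro t ht
      exact hφ (Set.mem_Ici.2 (lt_trans hp ht.1).le) (Set.mem_Ici.2 hp'.le) ht.2
  have h4 : ∫ _t in Set.Ioc ((2 : ℝ) ^ (m - 1)) ((2 : ℝ) ^ m), φ (2 ^ m) =
      (2 : ℝ) ^ (m - 1) * φ (2 ^ m) := by
    rw [setIntegral_const, measureReal_def, Real.volume_Ioc, smul_eq_mul,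
      ENNReal.toReal_ofReal (by rw [h2]; linarith)]
    rw [show (2 : ℝ) ^ m - (2 : ℝ) ^ (m - 1) = (2 : ℝ) ^ (m - 1) by rw [h2]; ring]
  rw [h4] at h3
  calc (2 : ℝ) ^ m * φ (2 ^ m) = 2 * ((2 : ℝ) ^ (m - 1) * φ (2 ^ m)) := by
        nth_rewrite 1 [h2]; ring
    _ ≤ _ := by linarith

theorem sum_central {ι : Type} (s : Finset ι) (z : ι → Fin n → ℝ) (j : ι → ℤ)
    (b : Fin n → ℝ) {K R : ℝ} (hK : 0 ≤ K) (hR0 : 0 ≤ R) {φ : ℝ → ℝ}
    (hφ : AntitoneOn φ (Set.Ici 0)) (h0 : ∀ t, 0 ≤ t → 0 ≤ φ t)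
    (hd : ∀ i ∈ s, ∀ i' ∈ s, i ≠ i' → Disjoint (Metric.closedBall (z i) ((2 : ℝ) ^ j i))
      (Metric.closedBall (z i') ((2 : ℝ) ^ j i')))
    (hb : ∀ i ∈ s, dist (z i) b ≤ K * 2 ^ j i) (hR : ∀ i ∈ s, (2 : ℝ) ^ j i ≤ R) :
    ∑ i ∈ s, (2 : ℝ) ^ j i * φ (2 ^ j i) ≤ 2 * (K + 1) ^ n * ∫ t in (0 : ℝ)..R, φ t := by
  classical
  have hint : IntegrableOn φ (Set.Ioc 0 R) volume := by
    have h1 : IntervalIntegrable φ volume 0 R := by
      apply AntitoneOn.intervalIntegrable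
      apply hφ.mono
      intro t ht
      rw [Set.uIcc_of_le hR0] at ht
      exact Set.mem_Ici.2 ht.1
    rwa [intervalIntegrable_iff_integrableOn_Ioc_of_le hR0] at h1
  have hsum : ∑ i ∈ s, (2 : ℝ) ^ j i * φ (2 ^ j i) =
      ∑ m ∈ s.image j, ((s.filter (fun i => j i = m)).card : ℝ) * ((2 : ℝ) ^ m * φ (2 ^ m)) := by
    rw [Finset.sum_comp (fun m : ℤ => (2 : ℝ) ^ m * φ (2 ^ m)) j]
    refine Finset.sum_congr rfl fun m _ => ?_
    rw [nsmul_eq_mul]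
  have hcard : ∀ m ∈ s.image j, ((s.filter (fun i => j i = m)).card : ℝ) ≤ (K + 1) ^ n := by
    intro m _
    apply card_le (s.filter (fun i => j i = m)) z b (ρ := (2 : ℝ) ^ m) (by positivity) hK
    · intro i hi i' hi' hne
      rw [Finset.mem_filter] at hi hi'
      have h1 := hd i hi.1 i' hi'.1 hne
      rwa [hi.2, hi'.2] at h1
    · intro i hi
      rw [Finset.mem_filter] at hi
      have h1 := hb i hi.1
      rwa [hi.2] at h1
  have hmR : ∀ m ∈ s.image j, (2 : ℝ) ^ m ≤ R := by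
    intro m hm
    obtain ⟨i, hi, rfl⟩ := Finset.mem_image.1 hm
    exact hR i hi
  have hnn : ∀ m : ℤ, 0 ≤ (2 : ℝ) ^ m * φ (2 ^ m) := fun m =>
    mul_nonneg (by positivity) (h0 _ (by positivity))
  have hun : ∑ m ∈ s.image j, ∫ t in Set.Ioc ((2 : ℝ) ^ (m - 1)) ((2 : ℝ) ^ m), φ t ≤
      ∫ t in (0 : ℝ)..R, φ t := by
    have hsubm : ∀ m ∈ s.image j, Set.Ioc ((2 : ℝ) ^ (m - 1)) ((2 : ℝ) ^ m) ⊆ Set.Ioc 0 R := by
      intro m hm t ht
      have hp : (0 : ℝ) < (2 : ℝ) ^ (m - 1) := by positivity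
      exact ⟨lt_trans hp ht.1, le_trans ht.2 (hmR m hm)⟩
    have hdis : ∀ m m' : ℤ, m < m' → Disjoint (Set.Ioc ((2 : ℝ) ^ (m - 1)) ((2 : ℝ) ^ m))
        (Set.Ioc ((2 : ℝ) ^ (m' - 1)) ((2 : ℝ) ^ m')) := by
      intro m m' hlt
      rw [Set.disjoint_left]
      intro t ht ht'
      have h1 : (2 : ℝ) ^ m ≤ (2 : ℝ) ^ (m' - 1) :=
        zpow_le_zpow_right₀ (by norm_num) (by omega)
      exact absurd (lt_of_lt_of_le ht'.1 (le_trans ht.2 h1)) (lt_irrefl _)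
    rw [← integral_biUnion_finset (s.image j) (fun m _ => measurableSet_Ioc) ?_
      (fun m hm => hint.mono_set (hsubm m hm)), intervalIntegral.integral_of_le hR0]
    · apply setIntegral_mono_set hint
      · filter_upwards [ae_restrict_mem measurableSet_Ioc] with t ht
        exact h0 t ht.1.le
      · apply HasSubset.Subset.eventuallyLE
        exact Set.iUnion₂_subset hsubm
    · intro m _ m' _ hne
      rcases lt_or_gt_of_ne hne with h | h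
      · exact hdis m m' h
      · exact (hdis m' m h).symm
  calc ∑ i ∈ s, (2 : ℝ) ^ j i * φ (2 ^ j i)
      = ∑ m ∈ s.image j,
          ((s.filter (fun i => j i = m)).card : ℝ) * ((2 : ℝ) ^ m * φ (2 ^ m)) := hsum
    _ ≤ ∑ m ∈ s.image j, (K + 1) ^ n * ((2 : ℝ) ^ m * φ (2 ^ m)) :=
        Finset.sum_le_sum fun m hm => mul_le_mul_of_nonneg_right (hcard m hm) (hnn m)
    _ ≤ ∑ m ∈ s.image j, (K + 1) ^ n *
          (2 * ∫ t in Set.Ioc ((2 : ℝ) ^ (m - 1)) ((2 : ℝ) ^ m), φ t) :=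
        Finset.sum_le_sum fun m hm =>
          mul_le_mul_of_nonneg_left (dyadic_piece hφ hint (hmR m hm)) (by positivity)
    _ = 2 * (K + 1) ^ n *
          ∑ m ∈ s.image j, ∫ t in Set.Ioc ((2 : ℝ) ^ (m - 1)) ((2 : ℝ) ^ m), φ t := by
        rw [Finset.mul_sum]
        refine Finset.sum_congr rfl fun m _ => ?_
        ring
    _ ≤ 2 * (K + 1) ^ n * ∫ t in (0 : ℝ)..R, φ t :=
        mul_le_mul_of_nonneg_left hun (by positivity)

end

end Pool.Agent.Helper50.YF
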