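import Pool.Agent.Helper50.YF.ExpU

/-!
# YF-10: `∫_{B n 4} e^{u/4} |∇u|^{n-1} ≤ C` if `u ≤ 0` somewhere in `Bc n 4`

PROOF. `η` the cutoff of `cph_spec n 4 5` (`1` on `Bc n 4`, support in `B n 5`, `gr η ≤ cph`).
`CE.testE` with `s = n - 3`, `ψ = η^(n-1) e^{u/4}`:
`(1/2) ∫ ψ gr^(n-1) ≤ ∫ gr^(n-3) ((n-1) η^(n-2) e^{u/4} ∇η·∇u + (1/4) ψ gs)
 ≤ (n-1) cph ∫_{B n 5} (η gr)^(n-2) e^{u/4} + (1/4) ∫ ψ gr^(n-1)`, so with `t = η gr`:
`(1/4) ∫ t^(n-1) e^{u/4} ≤ ∫_{B n 5} A t^(n-2) e^{u/4} ≤ ∫_{B n 5} (t^(n-1)/8 + A (8A)^(n-2)) e^{u/4}`,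
`A = (n-1) cph`.  So `(1/8) ∫ t^(n-1) e^{u/4} ≤ A (8A)^(n-2) ∫_{B n 5} e^{u/4}`, and
`e^{u/4} ≤ 1 + e^{(n-2)u/2}`, `∫_{B n 5} (1 + e^{(n-2)u/2}) ≤ 10^n + 18^n` by `mv_B`
(`r = 4`, `R = 5`).  Compare `CE/StepE.lean`.
-/

namespace Pool.Agent.Helper50.YF

open scoped ContDiff Topology NNReal
open Pool.Agent.Helper49.Ric Pool.Agent.Helper73.HB Pool.Agent.Helper50.CF
  Pool.Agent.Helper50.CE MeasureTheory Filter

noncomputable section

variable {n : ℕ} {u : (Fin n → ℝ) → ℝ}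

private theorem aux1T {t c : ℝ} (ht : 0 ≤ t) (hc : 0 ≤ c) (m : ℕ) :
    c * t ^ m ≤ t ^ (m + 1) / 8 + c * (8 * c) ^ m := by
  rcases le_total (8 * c) t with h | h
  · have h1 : c * t ^ m ≤ t / 8 * t ^ m :=
      mul_le_mul_of_nonneg_right (by linarith) (pow_nonneg ht m)
    have h2 : 0 ≤ c * (8 * c) ^ m := by positivity
    rw [pow_succ]
    linarith
  · have h1 : c * t ^ m ≤ c * (8 * c) ^ m :=
      mul_le_mul_of_nonneg_left (pow_le_pow_left₀ ht h m) hc
    have h2 : 0 ≤ t ^ (m + 1) := by positivity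
    linarith

private theorem pd_powT {φ : (Fin n → ℝ) → ℝ} (hφ : ContDiff ℝ ∞ φ) (m : ℕ) (i : Fin n)
    (p : Fin n → ℝ) :
    pd i (fun q => φ q ^ (m + 1)) p = (m + 1) * φ p ^ m * pd i φ p := by
  have hd : ∀ m : ℕ, DifferentiableAt ℝ (fun q => φ q ^ m) p := fun m =>
    diff_of_smooth (hφ.contDiffAt.pow m)
  induction m with
  | zero => simp
  | succ m ih =>
    have h1 : (fun q => φ q ^ (m + 1 + 1)) = fun q => φ q ^ (m + 1) * φ q := by
      funext q; exact pow_succ _ _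
    rw [h1, pd_mul (hd (m + 1)) (diff_of_smooth hφ.contDiffAt), ih]
    push_cast
    ring

private theorem pd_exT (hu : ContDiff ℝ ∞ u) (i : Fin n) (p : Fin n → ℝ) :
    pd i (fun q => Real.exp (u q / 4)) p = Real.exp (u p / 4) * (pd i u p / 4) := by
  have hd : DifferentiableAt ℝ u p := diff_of_smooth hu.contDiffAt
  have hg : HasDerivAt (fun t : ℝ => Real.exp (t / 4)) (Real.exp (u p / 4) / 4) (u p) := by
    have h1 : HasDerivAt (fun t : ℝ => t / 4) (1 / 4) (u p) := (hasDerivAt_id (u p)).div_const 4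
    have h2 := h1.exp
    rwa [mul_one_div] at h2
  have h1 : HasFDerivAt (fun q => Real.exp (u q / 4))
      ((Real.exp (u p / 4) / 4) • fderiv ℝ u p) p := hg.comp_hasFDerivAt p hd.hasFDerivAt
  rw [pd_eq h1.differentiableAt, pd_eq hd, h1.fderiv]
  simp only [smul_apply, smul_eq_mul]
  ring

/-- the volume of the ball is at most that of the cube -/
private theorem volT (n : ℕ) {R : ℝ} (hR : 0 ≤ R) : (volume (B n R)).toReal ≤ (2 * R) ^ n := by
  have h1 : B n R ⊆ Set.Icc (fun _ => -R) (fun _ => R) := by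
    intro p hp
    have h2 : ∀ i, |p i| ≤ R := by
      intro i
      have h3 : p i ^ 2 ≤ ∑ j, p j ^ 2 :=
        Finset.single_le_sum (f := fun j => p j ^ 2) (fun j _ => sq_nonneg _) (Finset.mem_univ i)
      have h4 : ∑ j, p j ^ 2 < R ^ 2 := hp
      exact abs_le_of_sq_le_sq (h3.trans h4.le) hR
    exact ⟨fun i => (abs_le.mp (h2 i)).1, fun i => (abs_le.mp (h2 i)).2⟩
  have h2 : (volume (Set.Icc (fun _ : Fin n => -R) (fun _ => R))).toReal = (2 * R) ^ n := by
    rw [Real.volume_Icc_pi_toReal (fun i => by show -R ≤ R; linarith)]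
    rw [Finset.prod_const, Finset.card_univ, Fintype.card_fin]
    congr 1
    ring
  rw [← h2]
  exact ENNReal.toReal_mono isCompact_Icc.measure_lt_top.ne (measure_mono h1)

/-- `∫_{B n 5} e^{u/4} ≤ 10^n + 18^n` -/
private theorem massT (h : Flat n u) {p : Fin n → ℝ} (hp : p ∈ Bc n 4) (h0 : u p ≤ 0) :
    ∫ q in B n 5, Real.exp (u q / 4) ≤ 10 ^ n + 18 ^ n := by
  have hn : (3 : ℝ) ≤ n := by exact_mod_cast h.hn
  have hK := isCompact_Bc (n := n) 5
  have hsub : B n 5 ⊆ Bc n 5 := B_subset_Bc _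
  have hcu : Continuous u := h.smooth.continuous
  have c1 : Continuous (fun q => Real.exp (u q / 4)) := (hcu.div_const 4).rexp
  have c2 : Continuous (fun q => Real.exp (((n : ℝ) - 2) / 2 * u q)) :=
    (continuous_const.mul hcu).rexp
  have j1 := int_on c1 hK hsub
  have j2 := int_on c2 hK hsub
  have jc : IntegrableOn (fun _ : Fin n → ℝ => (1 : ℝ)) (B n 5) :=
    integrableOn_const (volume_B_lt_top _).ne
  have hpt : ∀ q ∈ B n 5, Real.exp (u q / 4) ≤ 1 + Real.exp (((n : ℝ) - 2) / 2 * u q) := by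
    intro q _
    rcases le_total (u q) 0 with hu | hu
    · have h1 : Real.exp (u q / 4) ≤ 1 := by
        rw [← Real.exp_zero]
        exact Real.exp_le_exp.2 (by linarith)
      have h2 := Real.exp_pos (((n : ℝ) - 2) / 2 * u q)
      linarith
    · have h1 : Real.exp (u q / 4) ≤ Real.exp (((n : ℝ) - 2) / 2 * u q) :=
        Real.exp_le_exp.2 (by nlinarith)
      linarith
  have m1 := setIntegral_mono_on j1 (jc.add j2) (measurableSet_B _) hpt
  have m2 : ∫ q in B n 5, ((fun _ : Fin n → ℝ => (1 : ℝ)) q +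
        Real.exp (((n : ℝ) - 2) / 2 * u q)) =
      (volume (B n 5)).toReal + ∫ q in B n 5, Real.exp (((n : ℝ) - 2) / 2 * u q) := by
    rw [integral_add jc j2, setIntegral_const, smul_eq_mul, mul_one]
    rfl
  have m3 := mv_B h (r := 4) (R := 5) (by norm_num) (by norm_num) hp h0
  have m4 := volT n (R := 5) (by norm_num)
  have e1 : (2 * (4 + 5) : ℝ) = 18 := by norm_num
  have e2 : (2 * 5 : ℝ) = 10 := by norm_num
  rw [e1] at m3
  rw [e2] at m4
  refine m1.trans ?_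
  refine le_of_eq_of_le m2 ?_
  linarith

theorem exists_tail (n : ℕ) : ∃ C : ℝ, 1 ≤ C ∧ ∀ {u : (Fin n → ℝ) → ℝ}, Flat n u →
    (∃ p ∈ Bc n 4, u p ≤ 0) →
      ∫ p in B n 4, Real.exp (u p / 4) * gr u p ^ (n - 1) ≤ C := by
  have hn0 : (0 : ℝ) ≤ n := Nat.cast_nonneg n
  have hcph := cph_one
  refine ⟨1 + (8 * ((n : ℝ) * cph)) ^ (n - 1) * (10 ^ n + 18 ^ n), ?_, ?_⟩
  · have : 0 ≤ (8 * ((n : ℝ) * cph)) ^ (n - 1) * ((10 : ℝ) ^ n + 18 ^ n) := by positivity
    linarith
  rintro u h ⟨p0, hp0, hu0⟩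
  have hmass := massT h hp0 hu0
  obtain ⟨k, rfl⟩ : ∃ k, n = k + 3 := ⟨n - 3, by have := h.hn; omega⟩
  have e1 : k + 3 - 1 = k + 2 := rfl
  rw [e1]
  set c : ℝ := ((k + 3 : ℕ) : ℝ) * cph with hcdef
  have hc : 0 ≤ c := by rw [hcdef]; positivity
  set A : ℝ := c * (8 * c) ^ (k + 1) with hA
  have hA0 : 0 ≤ A := by rw [hA]; positivity
  obtain ⟨φ, hφ, hφc, hφs, hφ0, hφ1, hφe, hφg'⟩ :=
    cph_spec (k + 3) 4 5 (by norm_num) (by norm_num)
  have hφg : ∀ p, gr φ p ≤ cph := fun p => by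
    have := hφg' p
    norm_num at this
    exact this
  set E : (Fin (k + 3) → ℝ) → ℝ := fun p => Real.exp (u p / 4) with hE
  have hE0 : ∀ p, 0 < E p := fun p => Real.exp_pos _
  have hEs : ContDiff ℝ ∞ E := (h.smooth.div_const 4).exp
  set ψ : (Fin (k + 3) → ℝ) → ℝ := fun p => φ p ^ (k + 2) * E p with hψdef
  have hψ : ContDiff ℝ ∞ ψ := (hφ.pow _).mul hEs
  have hψs0 : Function.support ψ ⊆ Function.support φ := by
    intro p hp hp0
    apply hp
    show φ p ^ (k + 2) * E p = 0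
    rw [hp0]
    simp
  have hψs1 : tsupport ψ ⊆ tsupport φ := closure_mono hψs0
  have hψs : tsupport ψ ⊆ B (k + 3) 5 := hψs1.trans hφs
  have hψc : HasCompactSupport ψ := hφc.mono hψs0
  have hT := testE h (s := k) (by omega) hψ hψc
    (fun p => mul_nonneg (pow_nonneg (hφ0 p) _) (hE0 p).le)
  have hcoef : (((k + 3 : ℕ) : ℝ) - 2 - (k : ℝ)) / 2 = 1 / 2 := by push_cast; ring
  rw [hcoef] at hT
  -- continuity
  have cφ : Continuous φ := hφ.continuous
  have cE : Continuous E := hEs.continuous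
  have cg : Continuous (gr u) := cont_gr h.smooth
  have cpu : ∀ i, Continuous (pd i u) := fun i =>
    continuous_iff_continuousAt.mpr fun p => (smooth_pd h.smooth.contDiffAt i).continuousAt
  have cpψ : ∀ i, Continuous (pd i ψ) := fun i =>
    continuous_iff_continuousAt.mpr fun p => (smooth_pd hψ.contDiffAt i).continuousAt
  have cF1 : Continuous (fun p => gr u p ^ k * ∑ i, pd i ψ p * pd i u p) := by
    refine (cg.pow k).mul ?_
    exact continuous_finsetSum _ fun i _ => (cpψ i).mul (cpu i)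
  have cT : Continuous (fun p => (φ p * gr u p) ^ (k + 2) * E p) := ((cφ.mul cg).pow _).mul cE
  -- vanishing off the ball
  have hz : ∀ p ∉ B (k + 3) 5, ψ p = 0 := fun p hp =>
    image_eq_zero_of_notMem_tsupport (f := ψ) fun h' => hp (hψs h')
  have hz' : ∀ p ∉ B (k + 3) 5, ∀ i, pd i ψ p = 0 := by
    intro p hp i
    have h1 : ψ =ᶠ[𝓝 p] fun _ => (0 : ℝ) :=
      notMem_tsupport_iff_eventuallyEq.mp fun h' => hp (hψs h')
    rw [pd_congr h1, pd_const]
  have i0 : ∫ p, ψ p * gr u p ^ (k + 2) =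
      ∫ p in B (k + 3) 5, (φ p * gr u p) ^ (k + 2) * E p := by
    rw [← setIntegral_eq_integral_of_forall_compl_eq_zero (s := B (k + 3) 5)
      (fun p hp => by rw [hz p hp, zero_mul])]
    refine setIntegral_congr_fun (measurableSet_B _) fun p _ => ?_
    show φ p ^ (k + 2) * E p * gr u p ^ (k + 2) = (φ p * gr u p) ^ (k + 2) * E p
    rw [mul_pow]
    ring
  have i1 : ∫ p, gr u p ^ k * ∑ i, pd i ψ p * pd i u p =
      ∫ p in B (k + 3) 5, gr u p ^ k * ∑ i, pd i ψ p * pd i u p := by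
    rw [← setIntegral_eq_integral_of_forall_compl_eq_zero (s := B (k + 3) 5)]
    intro p hp
    rw [Finset.sum_eq_zero fun i _ => by rw [hz' p hp i, zero_mul], mul_zero]
  -- integrability
  have hK := isCompact_Bc (n := k + 3) 5
  have hsub : B (k + 3) 5 ⊆ Bc (k + 3) 5 := B_subset_Bc _
  have j1 := int_on cF1 hK hsub
  have jT := int_on cT hK hsub
  have jE := int_on cE hK hsub
  -- the pointwise bound
  have hpt : ∀ p ∈ B (k + 3) 5, gr u p ^ k * ∑ i, pd i ψ p * pd i u p ≤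
      (3 / 8) * ((φ p * gr u p) ^ (k + 2) * E p) + A * E p := by
    intro p _
    have ht : 0 ≤ φ p * gr u p := mul_nonneg (hφ0 p) (gr_nonneg u p)
    have hg0 := gr_nonneg u p
    have hf0 := hφ0 p
    have hEp := hE0 p
    have d1 : DifferentiableAt ℝ (fun q => φ q ^ (k + 2)) p :=
      diff_of_smooth (hφ.contDiffAt.pow (k + 2))
    have d2 : DifferentiableAt ℝ E p := diff_of_smooth hEs.contDiffAt
    have q3 : ∑ i, pd i ψ p * pd i u p =
        ((k : ℝ) + 2) * φ p ^ (k + 1) * E p * ∑ i, pd i φ p * pd i u p +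
          φ p ^ (k + 2) * E p / 4 * gr u p ^ 2 := by
      rw [gr_sq]
      unfold gs
      rw [Finset.mul_sum, Finset.mul_sum, ← Finset.sum_add_distrib]
      refine Finset.sum_congr rfl fun i _ => ?_
      have q1 : pd i ψ p = pd i (fun q => φ q ^ (k + 2)) p * E p + φ p ^ (k + 2) * pd i E p :=
        pd_mul d1 d2 i
      have q2 : pd i E p = E p * (pd i u p / 4) := pd_exT h.smooth i p
      rw [q1, q2, pd_powT hφ (k + 1) i p]
      push_cast
      ring
    have q4 : ∑ i, pd i φ p * pd i u p ≤ cph * gr u p :=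
      (le_abs_self _).trans ((abs_inner_le φ u p).trans
        (mul_le_mul_of_nonneg_right (hφg p) hg0))
    have q5 : 0 ≤ ((k : ℝ) + 2) * φ p ^ (k + 1) * E p := by positivity
    have q6 : ((k : ℝ) + 2) * φ p ^ (k + 1) * E p * ∑ i, pd i φ p * pd i u p ≤
        c * φ p ^ (k + 1) * E p * gr u p := by
      refine (mul_le_mul_of_nonneg_left q4 q5).trans ?_
      have q7 : c * φ p ^ (k + 1) * E p * gr u p =
          ((k : ℝ) + 3) * φ p ^ (k + 1) * E p * (cph * gr u p) := by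
        rw [hcdef]; push_cast; ring
      rw [q7]
      have q8 : 0 ≤ φ p ^ (k + 1) * E p * (cph * gr u p) := by
        have : 0 ≤ cph := by linarith
        positivity
      nlinarith
    have q9 : gr u p ^ k * ∑ i, pd i ψ p * pd i u p ≤
        (c * (φ p * gr u p) ^ (k + 1) + (φ p * gr u p) ^ (k + 2) / 4) * E p := by
      rw [q3]
      calc gr u p ^ k * (((k : ℝ) + 2) * φ p ^ (k + 1) * E p * ∑ i, pd i φ p * pd i u p +
            φ p ^ (k + 2) * E p / 4 * gr u p ^ 2)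
          ≤ gr u p ^ k * (c * φ p ^ (k + 1) * E p * gr u p +
            φ p ^ (k + 2) * E p / 4 * gr u p ^ 2) :=
            mul_le_mul_of_nonneg_left (by linarith) (pow_nonneg hg0 k)
        _ = (c * (φ p * gr u p) ^ (k + 1) + (φ p * gr u p) ^ (k + 2) / 4) * E p := by
            rw [mul_pow, mul_pow]; ring
    have q10 := aux1T ht hc (k + 1)
    refine q9.trans ?_
    have q11 : (c * (φ p * gr u p) ^ (k + 1) + (φ p * gr u p) ^ (k + 2) / 4) * E p ≤
        ((φ p * gr u p) ^ (k + 2) / 8 + A + (φ p * gr u p) ^ (k + 2) / 4) * E p :=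
      mul_le_mul_of_nonneg_right (by linarith) hEp.le
    refine q11.trans (le_of_eq ?_)
    ring
  have hint : (∫ p in B (k + 3) 5, gr u p ^ k * ∑ i, pd i ψ p * pd i u p) ≤
      3 / 8 * (∫ p in B (k + 3) 5, (φ p * gr u p) ^ (k + 2) * E p) +
        A * ∫ p in B (k + 3) 5, E p := by
    have m1 := setIntegral_mono_on j1 ((jT.const_mul (3 / 8)).add (jE.const_mul A))
      (measurableSet_B _) hpt
    refine m1.trans (le_of_eq ?_)
    have m3 := integral_add (jT.const_mul (3 / 8)) (jE.const_mul A)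
    refine Eq.trans m3 ?_
    rw [integral_const_mul, integral_const_mul]
  rw [i0, i1] at hT
  have hfin : ∫ p in B (k + 3) 5, (φ p * gr u p) ^ (k + 2) * E p ≤
      8 * (A * ∫ p in B (k + 3) 5, E p) := by
    linarith
  -- restriction to the ball of radius 4
  have r1 : ∫ p in B (k + 3) 4, Real.exp (u p / 4) * gr u p ^ (k + 2) =
      ∫ p in B (k + 3) 4, (φ p * gr u p) ^ (k + 2) * E p := by
    refine setIntegral_congr_fun (measurableSet_B _) fun p hp => ?_
    show Real.exp (u p / 4) * gr u p ^ (k + 2) = (φ p * gr u p) ^ (k + 2) * E p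
    rw [hφe p (B_subset_Bc _ hp), one_mul, mul_comm]
  have r2 : ∫ p in B (k + 3) 4, (φ p * gr u p) ^ (k + 2) * E p ≤
      ∫ p in B (k + 3) 5, (φ p * gr u p) ^ (k + 2) * E p := by
    refine setIntegral_mono_set jT ?_ ?_
    · exact Eventually.of_forall fun p =>
        mul_nonneg (pow_nonneg (mul_nonneg (hφ0 p) (gr_nonneg u p)) _) (hE0 p).le
    · exact Eventually.of_forall (B_mono (by norm_num) (by norm_num))
  have r3 : 8 * (A * ∫ p in B (k + 3) 5, E p) ≤
      (8 * c) ^ (k + 2) * (10 ^ (k + 3) + 18 ^ (k + 3)) := by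
    have s1 : 8 * (A * ∫ p in B (k + 3) 5, E p) =
        (8 * c) ^ (k + 2) * ∫ p in B (k + 3) 5, E p := by
      rw [hA]; ring
    rw [s1]
    exact mul_le_mul_of_nonneg_left hmass (by positivity)
  rw [r1]
  linarith

end

end Pool.Agent.Helper50.YF
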