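import Pool.Agent.Helper50.YF.Defs

/-!
# YF-4: the second derivative test at a local minimum

PROOF. Restrict `w` to the line `t ↦ x + t ξ`: a one-dimensional local minimum at `t = 0`, so the
first derivative is zero and the second is nonnegative (if it were negative, the function would
be smaller than `w x` near `t = 0`, e.g. `isLocalMax_of_deriv_deriv_neg`-type lemmas of Mathlib or
Taylor).  The second derivative of `t ↦ w (x + t ξ)` at `0` is `∑ᵢⱼ ∂ᵢ∂ⱼw(x) ξᵢ ξⱼ` (write
`pd i f = fderiv ℝ f · (Pi.single i 1)`, `HB.pd_eq`).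
-/

namespace Pool.Agent.Helper50.YF

open scoped ContDiff Topology NNReal
open Pool.Agent.Helper49.Ric Pool.Agent.Helper73.HB Pool.Agent.Helper50.CF
  Pool.Agent.Helper50.CE MeasureTheory Filter

noncomputable section

variable {n : ℕ} {u : (Fin n → ℝ) → ℝ}

private theorem tendsto_line (x ξ : Fin n → ℝ) :
    Tendsto (fun t : ℝ => x + t • ξ) (𝓝 0) (𝓝 x) := by
  have h : Continuous fun t : ℝ => x + t • ξ := by fun_prop
  have h2 := h.tendsto 0
  rwa [zero_smul, add_zero] at h2

private theorem localMin_line {w : (Fin n → ℝ) → ℝ} {x : Fin n → ℝ} (hm : IsLocalMin w x)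
    (ξ : Fin n → ℝ) : IsLocalMin (fun t : ℝ => w (x + t • ξ)) 0 := by
  filter_upwards [(tendsto_line x ξ).eventually hm] with t ht
  rw [zero_smul, add_zero]
  exact ht

private theorem hasDerivAt_line {f : (Fin n → ℝ) → ℝ} {x ξ : Fin n → ℝ} {t : ℝ}
    (hf : DifferentiableAt ℝ f (x + t • ξ)) :
    HasDerivAt (fun s : ℝ => f (x + s • ξ)) (∑ i, pd i f (x + t • ξ) * ξ i) t := by
  have h1 : HasDerivAt (fun s : ℝ => x + s • ξ) ξ t := by
    have h2 := ((hasDerivAt_id t).smul_const ξ).const_add x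
    rw [one_smul] at h2
    exact h2
  have h3 := hf.hasFDerivAt.comp_hasDerivAt t h1
  have h4 : ξ = ∑ i, ξ i • (Pi.single i (1 : ℝ) : Fin n → ℝ) := by
    ext k
    simp [Finset.sum_apply, Pi.single_apply]
  have h5 : fderiv ℝ f (x + t • ξ) ξ = ∑ i, pd i f (x + t • ξ) * ξ i := by
    conv_lhs => rw [h4, map_sum]
    refine Finset.sum_congr rfl fun i _ => ?_
    rw [map_smul, smul_eq_mul, ← pd_eq, mul_comm]
    · exact congrArg (fun p => pd i f p * ξ i) (by rw [← h4])
    · rw [← h4]; exact hf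
  rw [h5] at h3
  exact h3

theorem localMin_pd {w : (Fin n → ℝ) → ℝ} {x : Fin n → ℝ} (hm : IsLocalMin w x)
    (i : Fin n) : pd i w x = 0 :=
  (localMin_line hm (Pi.single i 1)).deriv_eq_zero

theorem localMin_hess {w : (Fin n → ℝ) → ℝ} {x : Fin n → ℝ} (hw : ContDiffAt ℝ ∞ w x)
    (hm : IsLocalMin w x) (ξ : Fin n → ℝ) :
    0 ≤ ∑ i, ∑ j, pd i (pd j w) x * ξ i * ξ j := by
  have hev : ∀ᶠ q in 𝓝 x, DifferentiableAt ℝ w q := by
    have h4 : ContDiffAt ℝ 1 w x := hw.of_le (by exact_mod_cast le_top)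
    filter_upwards [h4.eventually (by simp)] with q hq
    exact hq.differentiableAt (by simp)
  have h1 : deriv (fun t : ℝ => w (x + t • ξ)) =ᶠ[𝓝 0]
      fun t => ∑ j, pd j w (x + t • ξ) * ξ j := by
    filter_upwards [(tendsto_line x ξ).eventually hev] with t ht
    exact (hasDerivAt_line ht).deriv
  have h2 : HasDerivAt (fun t : ℝ => ∑ j, pd j w (x + t • ξ) * ξ j)
      (∑ j, (∑ i, pd i (pd j w) (x + (0 : ℝ) • ξ) * ξ i) * ξ j) 0 := by
    refine HasDerivAt.fun_sum fun j _ => ?_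
    refine (hasDerivAt_line ?_).mul_const _
    rw [zero_smul, add_zero]
    exact diff_of_smooth (smooth_pd hw j)
  have h3 : deriv (deriv (fun t : ℝ => w (x + t • ξ))) 0 =
      ∑ i, ∑ j, pd i (pd j w) x * ξ i * ξ j := by
    rw [h1.deriv_eq, h2.deriv, zero_smul, add_zero, Finset.sum_comm]
    refine Finset.sum_congr rfl fun j _ => ?_
    rw [Finset.sum_mul]
  by_contra hneg
  push Not at hneg
  rw [← h3] at hneg
  have hml := localMin_line hm ξ
  have hd : deriv (fun t : ℝ => w (x + t • ξ)) 0 = 0 := hml.deriv_eq_zero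
  have hc : ContinuousAt (fun t : ℝ => w (x + t • ξ)) 0 := by
    have h5 : DifferentiableAt ℝ w (x + (0 : ℝ) • ξ) := by
      rw [zero_smul, add_zero]
      exact diff_of_smooth hw
    exact (hasDerivAt_line h5).continuousAt
  have hmax := isLocalMax_of_deriv_deriv_neg hneg hd hc
  have hconst : (fun t : ℝ => w (x + t • ξ)) =ᶠ[𝓝 0] fun _ => w (x + (0 : ℝ) • ξ) := by
    filter_upwards [hml, hmax] with t h5 h6
    exact le_antisymm h6 h5
  have h7 : deriv (deriv (fun t : ℝ => w (x + t • ξ))) 0 = 0 := by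
    have h8 : deriv (fun t : ℝ => w (x + t • ξ)) =ᶠ[𝓝 0] fun _ => (0 : ℝ) := by
      filter_upwards [hconst.eventuallyEq_nhds] with t ht
      rw [ht.deriv_eq]
      exact deriv_const _ _
    rw [h8.deriv_eq]
    exact deriv_const _ _
  rw [h7] at hneg
  exact lt_irrefl _ hneg

end

end Pool.Agent.Helper50.YF
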