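import Pool.Agent.Helper50.YF.Mn
import Pool.Agent.Helper50.YF.Test2
import Pool.Agent.Helper50.YF.Rad

/-!
# YF-6: three circles: `mn u a r` is concave in `log r`

PROOF. `M₁ = mn u a r₁ ≥ M₃ = mn u a r₃`.  If `M₁ = M₃` the claim is `mn u a r₂ ≥ M₃` (`mn_anti`).
Else `B = (M₁ - M₃)/log(r₃/r₁) > 0`, `A = M₁ + B log r₁`, `v = A - B log|x-a|`: `v = M₁` for
`|x-a| = r₁`, `v = M₃` for `|x-a| = r₃`.  CLAIM `u ≥ v` for `r₁ ≤ |x-a| ≤ r₃`.  Then `u ≥ v(r₂)` on
`ecball a r₂` (inside `ecball a r₁`: `u ≥ M₁ ≥ v(r₂)`), which is the assertion.  Proof of the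
claim: for `0 < η < B/(2 r₃²)` let `v_η = bar a A B η (r₃²) = v - η(r₃² - |x-a|²)`; `v_η ≤ u` on both
spheres.  If `u - v_η` is negative somewhere in the compact annulus, its minimum over the annulus
is at an interior point `x`, a local minimum of `w = u - v_η` (smooth there), so `∇u = ∇v_η` at `x`
(`localMin_pd`) and the Hessian of `w` is positive semidefinite (`localMin_hess` with `ξ = ∇u` and
`ξ = eᵢ`), so `(n-2) hq u + lp u gs u ≥ (n-2) hq v_η + lp v_η gs v_η > 0` (`bar_pos`), against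
`Flat.P2`.  So `u ≥ v_η`, and `η → 0`.
-/

namespace Pool.Agent.Helper50.YF

open scoped ContDiff Topology NNReal
open Pool.Agent.Helper49.Ric Pool.Agent.Helper73.HB Pool.Agent.Helper50.CF
  Pool.Agent.Helper50.CE MeasureTheory Filter

noncomputable section

variable {n : ℕ} {u : (Fin n → ℝ) → ℝ}

/-- `u - v` has no local minimum where `v` is a strict subsolution -/
private theorem no_min (h : Flat n u) {v : (Fin n → ℝ) → ℝ} {x : Fin n → ℝ}
    (hv : ContDiffAt ℝ ∞ v x)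
    (hpos : 0 < gs v x * CF.lp v x + ((n : ℝ) - 2) * hq v x)
    (hm : IsLocalMin (fun p => u p - v p) x) : False := by
  have hu : ContDiffAt ℝ ∞ u x := h.smooth.contDiffAt
  have hw : ContDiffAt ℝ ∞ (fun p => u p - v p) x := hu.sub hv
  have g1 : ∀ i, pd i u x = pd i v x := by
    intro i
    have h1 := localMin_pd hm i
    rw [pd_sub (diff_of_smooth hu) (diff_of_smooth hv)] at h1
    linarith
  have h2 : ∀ i j, pd i (pd j (fun p => u p - v p)) x = pd i (pd j u) x - pd i (pd j v) x := by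
    intro i j
    have h3 : ∀ᶠ q in 𝓝 x, ContDiffAt ℝ 1 v q := by
      have h4 : ContDiffAt ℝ 1 v x := hv.of_le (by exact_mod_cast le_top)
      exact h4.eventually (by simp)
    have e1 : pd j (fun p => u p - v p) =ᶠ[𝓝 x] fun p => pd j u p - pd j v p := by
      filter_upwards [h3] with p hp
      exact pd_sub (diff_of_smooth h.smooth.contDiffAt) (hp.differentiableAt (by simp)) j
    rw [pd_congr e1 i]
    exact pd_sub (diff_of_smooth (smooth_pd hu j)) (diff_of_smooth (smooth_pd hv j)) i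
  have hhq : hq v x ≤ hq u x := by
    have h3 := localMin_hess hw hm (fun i => pd i u x)
    have h4 : ∑ i, ∑ j, pd i (pd j (fun p => u p - v p)) x * pd i u x * pd j u x =
        hq u x - hq v x := by
      unfold hq
      rw [← Finset.sum_sub_distrib]
      refine Finset.sum_congr rfl fun i _ => ?_
      rw [← Finset.sum_sub_distrib]
      refine Finset.sum_congr rfl fun j _ => ?_
      rw [h2, ← g1 i, ← g1 j]
      ring
    rw [h4] at h3
    linarith
  have hlp : CF.lp v x ≤ CF.lp u x := by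
    unfold CF.lp
    refine Finset.sum_le_sum fun i _ => ?_
    have h3 := localMin_hess hw hm (Pi.single i 1)
    rw [Finset.sum_eq_single i, Finset.sum_eq_single i] at h3
    · rw [h2] at h3
      simp only [Pi.single_eq_same, mul_one] at h3
      linarith
    · intro j _ hj
      rw [Pi.single_eq_of_ne hj, mul_zero]
    · intro hi
      exact absurd (Finset.mem_univ i) hi
    · intro j _ hj
      refine Finset.sum_eq_zero fun k _ => ?_
      rw [Pi.single_eq_of_ne hj, mul_zero, zero_mul]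
    · intro hi
      exact absurd (Finset.mem_univ i) hi
  have hgs : gs u x = gs v x := by
    unfold gs
    exact Finset.sum_congr rfl fun i _ => by rw [g1 i]
  have hgs0 : 0 ≤ gs v x := by
    unfold gs
    exact Finset.sum_nonneg fun i _ => sq_nonneg _
  have hP := h.P2 x
  have hn : (3 : ℝ) ≤ n := by exact_mod_cast h.hn
  rw [hgs] at hP
  have h5 := mul_le_mul_of_nonneg_left hhq (show (0 : ℝ) ≤ (n : ℝ) - 2 by linarith)
  have h6 := mul_le_mul_of_nonneg_right hlp hgs0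
  linarith

/-- comparison with the barrier on the annulus -/
private theorem annulus (h : Flat n u) (a : Fin n → ℝ) {r₁ r₃ A B η : ℝ} (h1 : 0 < r₁)
    (h3 : r₁ < r₃) (hη : 0 < η) (hB : 2 * η * r₃ ^ 2 < B)
    (hA1 : A - B * Real.log r₁ ≤ mn u a r₁) (hA3 : A - B * Real.log r₃ ≤ mn u a r₃)
    {p : Fin n → ℝ} (hp1 : r₁ ^ 2 ≤ ∑ i, (p i - a i) ^ 2) (hp3 : ∑ i, (p i - a i) ^ 2 ≤ r₃ ^ 2) :
    bar a A B η (r₃ ^ 2) p ≤ u p := by
  have hu : Continuous u := h.smooth.continuous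
  have hr3 : 0 < r₃ := h1.trans h3
  have hsq1 : 0 < r₁ ^ 2 := by positivity
  have hcS : Continuous (fun q : Fin n → ℝ => ∑ i, (q i - a i) ^ 2) := by fun_prop
  set K : Set (Fin n → ℝ) := {q | r₁ ^ 2 ≤ ∑ i, (q i - a i) ^ 2} ∩ ecball a r₃ with hK
  have hKc : IsCompact K :=
    (CP.isCompact_ecball' a r₃).inter_left (isClosed_le continuous_const hcS)
  have hpK : p ∈ K := ⟨hp1, hp3⟩
  have hcont : ContinuousOn (fun q => u q - bar a A B η (r₃ ^ 2) q) K := by
    intro q hq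
    have hq0 : 0 < ∑ i, (q i - a i) ^ 2 := lt_of_lt_of_le hsq1 hq.1
    exact (hu.continuousAt.sub (bar_smooth a A B η (r₃ ^ 2) hq0).continuousAt).continuousWithinAt
  obtain ⟨x, hxK, hx⟩ := hKc.exists_isMinOn ⟨p, hpK⟩ hcont
  have hxp : u x - bar a A B η (r₃ ^ 2) x ≤ u p - bar a A B η (r₃ ^ 2) p := hx hpK
  suffices hs : 0 ≤ u x - bar a A B η (r₃ ^ 2) x by linarith
  by_contra hneg
  push Not at hneg
  have hx1 : r₁ ^ 2 ≤ ∑ i, (x i - a i) ^ 2 := hxK.1
  have hx3 : ∑ i, (x i - a i) ^ 2 ≤ r₃ ^ 2 := hxK.2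
  rcases hx1.eq_or_lt with e1 | l1
  · have hm : mn u a r₁ ≤ u x := mn_le hu (show x ∈ ecball a r₁ from e1.ge)
    have hb : bar a A B η (r₃ ^ 2) x = A - B * Real.log r₁ - η * (r₃ ^ 2 - r₁ ^ 2) := by
      unfold bar
      rw [← e1, Real.log_pow]
      push_cast
      ring
    have hη2 : 0 ≤ η * (r₃ ^ 2 - r₁ ^ 2) := by
      refine mul_nonneg hη.le ?_
      have : r₁ ^ 2 ≤ r₃ ^ 2 := pow_le_pow_left₀ h1.le h3.le 2
      linarith
    linarith
  rcases hx3.eq_or_lt with e3 | l3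
  · have hm : mn u a r₃ ≤ u x := mn_le hu hxK.2
    have hb : bar a A B η (r₃ ^ 2) x = A - B * Real.log r₃ := by
      unfold bar
      rw [e3, Real.log_pow]
      push_cast
      ring
    linarith
  -- an interior minimum
  have hx0 : 0 < ∑ i, (x i - a i) ^ 2 := hsq1.trans l1
  refine no_min h (bar_smooth a A B η (r₃ ^ 2) hx0) ?_ ?_
  · refine bar_pos (by have := h.hn; omega) a A (r₃ ^ 2) hx0 hη ?_
    have := mul_le_mul_of_nonneg_left l3.le (show 0 ≤ 2 * η by linarith)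
    linarith
  · have ho1 : ∀ᶠ q in 𝓝 x, r₁ ^ 2 < ∑ i, (q i - a i) ^ 2 :=
      (isOpen_lt continuous_const hcS).mem_nhds l1
    have ho3 : ∀ᶠ q in 𝓝 x, ∑ i, (q i - a i) ^ 2 < r₃ ^ 2 :=
      (isOpen_lt hcS continuous_const).mem_nhds l3
    filter_upwards [ho1, ho3] with q hq1 hq3
    exact hx (show q ∈ K from ⟨hq1.le, hq3.le⟩)

theorem three_circles (h : Flat n u) (a : Fin n → ℝ) {r₁ r₂ r₃ : ℝ} (h1 : 0 < r₁)
    (h2 : r₁ < r₂) (h3 : r₂ < r₃) :
    mn u a r₁ * Real.log (r₃ / r₂) + mn u a r₃ * Real.log (r₂ / r₁) ≤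
      mn u a r₂ * Real.log (r₃ / r₁) := by
  have hu : Continuous u := h.smooth.continuous
  have hr2 : 0 < r₂ := h1.trans h2
  have hr3 : 0 < r₃ := hr2.trans h3
  have hL12 : Real.log r₁ < Real.log r₂ := Real.log_lt_log h1 h2
  have hL23 : Real.log r₂ < Real.log r₃ := Real.log_lt_log hr2 h3
  rw [Real.log_div hr3.ne' hr2.ne', Real.log_div hr2.ne' h1.ne', Real.log_div hr3.ne' h1.ne']
  set l₁ := Real.log r₁ with hl1
  set l₂ := Real.log r₂ with hl2
  set l₃ := Real.log r₃ with hl3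
  set M₁ := mn u a r₁ with hM1
  set M₃ := mn u a r₃ with hM3
  have hM13 : M₃ ≤ M₁ := mn_anti hu a h1.le (h2.trans h3).le
  have hM23 : M₃ ≤ mn u a r₂ := mn_anti hu a hr2.le h3.le
  rcases hM13.eq_or_lt with e | l
  · rw [← e]
    have : M₃ * (l₃ - l₂) + M₃ * (l₂ - l₁) = M₃ * (l₃ - l₁) := by ring
    rw [this]
    exact mul_le_mul_of_nonneg_right hM23 (by linarith)
  have hL : 0 < l₃ - l₁ := by linarith
  set B := (M₁ - M₃) / (l₃ - l₁) with hBdef
  have hB : 0 < B := div_pos (by linarith) hL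
  have hBL : B * (l₃ - l₁) = M₁ - M₃ := div_mul_cancel₀ _ hL.ne'
  set A := M₁ + B * l₁ with hAdef
  have hA1 : A - B * l₁ = M₁ := by rw [hAdef]; ring
  have hA3 : A - B * l₃ = M₃ := by rw [hAdef]; linarith [hBL]
  -- comparison on the annulus
  have hcmp : ∀ p : Fin n → ℝ, r₁ ^ 2 ≤ ∑ i, (p i - a i) ^ 2 → ∑ i, (p i - a i) ^ 2 ≤ r₃ ^ 2 →
      A - B / 2 * Real.log (∑ i, (p i - a i) ^ 2) ≤ u p := by
    intro p hp1 hp3
    set s := ∑ i, (p i - a i) ^ 2 with hs
    refine le_of_forall_pos_le_add fun ε hε => ?_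
    -- choose `η` small
    set η := min (B / (4 * r₃ ^ 2)) (ε / (r₃ ^ 2)) with hηdef
    have hη : 0 < η := lt_min (by positivity) (by positivity)
    have hη1 : 2 * η * r₃ ^ 2 < B := by
      have h4 : η ≤ B / (4 * r₃ ^ 2) := min_le_left _ _
      have h5 : η * (4 * r₃ ^ 2) ≤ B := (le_div_iff₀ (by positivity)).mp h4
      nlinarith [mul_pos hη (show 0 < r₃ ^ 2 by positivity)]
    have hη2 : η * r₃ ^ 2 ≤ ε := by
      have h4 : η ≤ ε / r₃ ^ 2 := min_le_right _ _
      exact (le_div_iff₀ (by positivity)).mp h4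
    have h6 := annulus h a (A := A) (B := B) h1 (h2.trans h3) hη hη1 hA1.le hA3.le hp1 hp3
    unfold bar at h6
    rw [← hs] at h6
    have h7 : 0 ≤ η * s := mul_nonneg hη.le (le_trans (sq_nonneg r₁) hp1)
    nlinarith [h6, h7, hη2]
  have hc : A - B * l₂ ≤ mn u a r₂ := by
    refine le_mn hu fun p hp => ?_
    have hp2 : ∑ i, (p i - a i) ^ 2 ≤ r₂ ^ 2 := hp
    rcases le_total (r₁ ^ 2) (∑ i, (p i - a i) ^ 2) with hc1 | hc1
    · have h4 := hcmp p hc1 (hp2.trans (pow_le_pow_left₀ hr2.le h3.le 2))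
      have hs0 : 0 < ∑ i, (p i - a i) ^ 2 := lt_of_lt_of_le (by positivity) hc1
      have h5 : Real.log (∑ i, (p i - a i) ^ 2) ≤ 2 * l₂ := by
        have h6 := Real.log_le_log hs0 hp2
        rw [Real.log_pow] at h6
        push_cast at h6
        exact h6
      have h6 := mul_le_mul_of_nonneg_left h5 (show 0 ≤ B / 2 by linarith)
      linarith
    · have h4 : M₁ ≤ u p := mn_le hu (show p ∈ ecball a r₁ from hc1)
      have h5 : B * l₁ ≤ B * l₂ := mul_le_mul_of_nonneg_left hL12.le hB.le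
      linarith
  have h8 := mul_le_mul_of_nonneg_right hc hL.le
  have h9 : (A - B * l₂) * (l₃ - l₁) = M₁ * (l₃ - l₂) + M₃ * (l₂ - l₁) := by
    have : (A - B * l₂) * (l₃ - l₁) = M₁ * (l₃ - l₁) - (B * (l₃ - l₁)) * (l₂ - l₁) := by
      rw [hAdef]; ring
    rw [this, hBL]
    ring
  linarith

end

end Pool.Agent.Helper50.YF
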