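import Pool.Agent.Helper50.YF.SobE
import Pool.Agent.Helper50.YF.ExpU

/-!
# YF-18: `∫_{B n 1} e^u ≤ C` if `u ≤ 0` somewhere in `Bc n 1`

PROOF. `s = (n-2)/n`, `η` the cutoff of `cph_spec n 1 2`.  `CE.testE` with (its) `s = 0` and
`ψ = η² e^{s u}`: `((n-2)/2) ∫ ψ gs ≤ ∫ (2 η e^{su} ∇η·∇u + s ψ gs)`, and
`(n-2)/2 - s = (n-2)²/(2n) =: 2θ > 0`, so `2θ ∫ ψ gs ≤ 2 ∫ η e^{su} gr η gr u ≤ θ ∫ ψ gs +
θ⁻¹ ∫ e^{su} gs η`: `∫ η² e^{su} gs u ≤ θ⁻² cph² ∫_{B n 2} e^{su}`.  For `w = η e^{su/2}`: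
`gs w ≤ 2 e^{su} gs η + (s²/2) η² e^{su} gs u`, `exists_sobE`, and
`w^{2n/(n-2)} = η^{2n/(n-2)} e^u` (`s/2 · 2n/(n-2) = 1`).  Finally `e^{su} ≤ 1 + e^{(n-2)u/2}`
(`0 < s ≤ (n-2)/2`) and `mv_B` (`r = 1`, `R = 2`): `∫_{B n 2} e^{su} ≤ 4^n + 6^n`.
-/

namespace Pool.Agent.Helper50.YF

open scoped ContDiff Topology NNReal
open Pool.Agent.Helper49.Ric Pool.Agent.Helper73.HB Pool.Agent.Helper50.CF
  Pool.Agent.Helper50.CE MeasureTheory Filter

noncomputable section

variable {n : ℕ} {u : (Fin n → ℝ) → ℝ}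

private theorem pd_exW (hu : ContDiff ℝ ∞ u) (c : ℝ) (i : Fin n) (p : Fin n → ℝ) :
    pd i (fun q => Real.exp (c * u q)) p = c * Real.exp (c * u p) * pd i u p := by
  have hd : DifferentiableAt ℝ u p := diff_of_smooth hu.contDiffAt
  have hg : HasDerivAt (fun t : ℝ => Real.exp (c * t)) (c * Real.exp (c * u p)) (u p) := by
    have h1 : HasDerivAt (fun t : ℝ => c * t) c (u p) := by
      simpa using (hasDerivAt_id (u p)).const_mul c
    have h2 := h1.exp
    rwa [mul_comm (Real.exp (c * u p)) c] at h2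
  have h1 : HasFDerivAt (fun q => Real.exp (c * u q))
      ((c * Real.exp (c * u p)) • fderiv ℝ u p) p := hg.comp_hasFDerivAt p hd.hasFDerivAt
  rw [pd_eq h1.differentiableAt, pd_eq hd, h1.fderiv]
  simp only [smul_apply, smul_eq_mul]

private theorem pd_psiW {η : (Fin n → ℝ) → ℝ} (hu : ContDiff ℝ ∞ u) (hη : ContDiff ℝ ∞ η)
    (s : ℝ) (i : Fin n) (p : Fin n → ℝ) :
    pd i (fun q => η q ^ 2 * Real.exp (s * u q)) p =
      2 * η p * Real.exp (s * u p) * pd i η p + s * (η p ^ 2 * Real.exp (s * u p)) * pd i u p := by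
  have dη : DifferentiableAt ℝ η p := diff_of_smooth hη.contDiffAt
  have de : DifferentiableAt ℝ (fun q => Real.exp (s * u q)) p :=
    diff_of_smooth (ContDiff.contDiffAt (contDiff_const.mul hu).exp)
  have e1 : (fun q => η q ^ 2 * Real.exp (s * u q)) =
      fun q => η q * (η q * Real.exp (s * u q)) := by
    funext q
    ring
  rw [e1, pd_mul dη (dη.fun_mul de), pd_mul dη de, pd_exW hu]
  ring

private theorem pd_wW {η : (Fin n → ℝ) → ℝ} (hu : ContDiff ℝ ∞ u) (hη : ContDiff ℝ ∞ η)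
    (c : ℝ) (i : Fin n) (p : Fin n → ℝ) :
    pd i (fun q => η q * Real.exp (c * u q)) p =
      Real.exp (c * u p) * (pd i η p + c * η p * pd i u p) := by
  have dη : DifferentiableAt ℝ η p := diff_of_smooth hη.contDiffAt
  have de : DifferentiableAt ℝ (fun q => Real.exp (c * u q)) p :=
    diff_of_smooth (ContDiff.contDiffAt (contDiff_const.mul hu).exp)
  rw [pd_mul dη de, pd_exW hu]
  ring

/-- the energy estimate -/
private theorem energyW (h : Flat n u) {s θ : ℝ} (hθ : 0 < θ)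
    (hsθ : ((n : ℝ) - 2) / 2 - s = 2 * θ) {η : (Fin n → ℝ) → ℝ} (hη : ContDiff ℝ ∞ η)
    (hc : HasCompactSupport η) (h0 : ∀ p, 0 ≤ η p) :
    θ ^ 2 * ∫ p, η p ^ 2 * Real.exp (s * u p) * gs u p ≤
      ∫ p, Real.exp (s * u p) * gs η p := by
  have hu := h.smooth
  have hex : ContDiff ℝ ∞ (fun q => Real.exp (s * u q)) := (contDiff_const.mul hu).exp
  have hψ : ContDiff ℝ ∞ (fun q => η q ^ 2 * Real.exp (s * u q)) := (hη.pow 2).mul hex
  have hψc : HasCompactSupport (fun q => η q ^ 2 * Real.exp (s * u q)) := by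
    refine hc.mono fun p hp hp0 => hp ?_
    show η p ^ 2 * Real.exp (s * u p) = 0
    rw [hp0]
    ring
  have key := testE h (s := 0) (by have := h.hn; omega) hψ hψc
    (fun p => mul_nonneg (sq_nonneg _) (Real.exp_pos _).le)
  simp only [pow_zero, one_mul, zero_add, gr_sq, Nat.cast_zero, sub_zero] at key
  have cη : Continuous η := hη.continuous
  have cgu : Continuous (gs u) := cont_gs hu
  have cgη : Continuous (gs η) := cont_gs hη
  have cpu : ∀ i, Continuous (pd i u) := fun i => cont_pd hu i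
  have cpη : ∀ i, Continuous (pd i η) := fun i => cont_pd hη i
  have ce : Continuous (fun q => Real.exp (s * u q)) := hex.continuous
  have hgc : HasCompactSupport (gs η) := by
    refine HasCompactSupport.intro hc fun p hp => ?_
    unfold gs
    exact Finset.sum_eq_zero fun i _ => by rw [pd_zero_off hp i]; norm_num
  have i1 : Integrable (fun p => η p ^ 2 * Real.exp (s * u p) * gs u p) :=
    (hψ.continuous.mul cgu).integrable_of_hasCompactSupport hψc.mul_right
  have i2 : Integrable (fun p => Real.exp (s * u p) * gs η p) :=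
    (ce.mul cgη).integrable_of_hasCompactSupport hgc.mul_left
  have i3 : Integrable (fun p => η p * (2 * Real.exp (s * u p) * ∑ i, pd i η p * pd i u p)) :=
    integrable_mul_of cη hc fun p _ => by
      have : Continuous (fun p => 2 * Real.exp (s * u p) * ∑ i, pd i η p * pd i u p) :=
        (continuous_const.mul ce).mul
          (continuous_finsetSum _ fun i _ => (cpη i).mul (cpu i))
      exact this.continuousAt
  have e1 : ∀ p, ∑ i, pd i (fun q => η q ^ 2 * Real.exp (s * u q)) p * pd i u p =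
      η p * (2 * Real.exp (s * u p) * ∑ i, pd i η p * pd i u p) +
        s * (η p ^ 2 * Real.exp (s * u p) * gs u p) := by
    intro p
    unfold gs
    simp only [Finset.mul_sum]
    rw [← Finset.sum_add_distrib]
    refine Finset.sum_congr rfl fun i _ => ?_
    rw [pd_psiW hu hη]
    ring
  simp only [e1] at key
  rw [integral_add i3 (i1.const_mul s), integral_const_mul] at key
  have e2 : ∀ p, η p * (2 * Real.exp (s * u p) * ∑ i, pd i η p * pd i u p) ≤
      θ * (η p ^ 2 * Real.exp (s * u p) * gs u p) + θ⁻¹ * (Real.exp (s * u p) * gs η p) := by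
    intro p
    have a1 : ∑ i, pd i η p * pd i u p ≤ gr η p * gr u p :=
      (le_abs_self _).trans (abs_inner_le η u p)
    have a2 : 0 ≤ η p * (2 * Real.exp (s * u p)) := by
      have := h0 p
      positivity
    have a3 := mul_le_mul_of_nonneg_left a1 a2
    have a4 : 2 * (η p * gr u p) * gr η p ≤ θ * (η p * gr u p) ^ 2 + θ⁻¹ * gr η p ^ 2 := by
      have b1 : 0 ≤ θ⁻¹ * (θ * (η p * gr u p) - gr η p) ^ 2 := by positivity
      have b2 : θ⁻¹ * (θ * (η p * gr u p) - gr η p) ^ 2 =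
          θ * (η p * gr u p) ^ 2 + θ⁻¹ * gr η p ^ 2 - 2 * (η p * gr u p) * gr η p := by
        field_simp
        ring
      linarith
    have a5 := mul_le_mul_of_nonneg_left a4 (Real.exp_pos (s * u p)).le
    rw [← gr_sq u p, ← gr_sq η p]
    calc η p * (2 * Real.exp (s * u p) * ∑ i, pd i η p * pd i u p)
        = η p * (2 * Real.exp (s * u p)) * ∑ i, pd i η p * pd i u p := by ring
      _ ≤ η p * (2 * Real.exp (s * u p)) * (gr η p * gr u p) := a3
      _ = Real.exp (s * u p) * (2 * (η p * gr u p) * gr η p) := by ring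
      _ ≤ Real.exp (s * u p) * (θ * (η p * gr u p) ^ 2 + θ⁻¹ * gr η p ^ 2) := a5
      _ = _ := by ring
  have e3 : ∫ p, η p * (2 * Real.exp (s * u p) * ∑ i, pd i η p * pd i u p) ≤
      θ * (∫ p, η p ^ 2 * Real.exp (s * u p) * gs u p) +
        θ⁻¹ * ∫ p, Real.exp (s * u p) * gs η p := by
    rw [← integral_const_mul, ← integral_const_mul, ← integral_add (i1.const_mul _)
      (i2.const_mul _)]
    exact integral_mono i3 ((i1.const_mul _).add (i2.const_mul _)) e2
  set I := ∫ p, η p ^ 2 * Real.exp (s * u p) * gs u p with hI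
  set J := ∫ p, Real.exp (s * u p) * gs η p with hJ
  have k1 : 2 * θ * I ≤ θ * I + θ⁻¹ * J := by
    have : 2 * θ * I = ((n : ℝ) - 2) / 2 * I - s * I := by rw [← hsθ]; ring
    rw [this]
    linarith
  have k2 : θ * I ≤ θ⁻¹ * J := by linarith
  have k3 := mul_le_mul_of_nonneg_left k2 hθ.le
  calc θ ^ 2 * I = θ * (θ * I) := by ring
    _ ≤ θ * (θ⁻¹ * J) := k3
    _ = J := by field_simp

/-- the gradient of `η e^{cu}` -/
private theorem gs_wW {η : (Fin n → ℝ) → ℝ} (hu : ContDiff ℝ ∞ u) (hη : ContDiff ℝ ∞ η)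
    (c s : ℝ) (hcs : 2 * c = s) (p : Fin n → ℝ) :
    gs (fun q => η q * Real.exp (c * u q)) p ≤
      2 * (Real.exp (s * u p) * gs η p) +
        s ^ 2 / 2 * (η p ^ 2 * Real.exp (s * u p) * gs u p) := by
  unfold gs
  simp only [Finset.mul_sum]
  rw [← Finset.sum_add_distrib]
  refine Finset.sum_le_sum fun i _ => ?_
  rw [pd_wW hu hη]
  have e1 : Real.exp (s * u p) = Real.exp (c * u p) ^ 2 := by
    rw [← Real.exp_nat_mul]
    congr 1
    rw [← hcs]
    push_cast
    ring
  rw [e1, ← hcs]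
  have h1 : 0 ≤ Real.exp (c * u p) ^ 2 * (pd i η p - c * η p * pd i u p) ^ 2 := by positivity
  nlinarith [h1]

/-- the volume of the ball is at most that of the cube -/
private theorem volW (n : ℕ) {R : ℝ} (hR : 0 ≤ R) : volume.real (B n R) ≤ (2 * R) ^ n := by
  have h1 : B n R ⊆ Set.Icc (fun _ => -R) (fun _ => R) := by
    intro p hp
    have h2 : ∀ i, |p i| ≤ R := by
      intro i
      have h3 : p i ^ 2 ≤ ∑ j, p j ^ 2 :=
        Finset.single_le_sum (f := fun j => p j ^ 2) (fun j _ => sq_nonneg _) (Finset.mem_univ i)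
      have h4 : ∑ j, p j ^ 2 < R ^ 2 := hp
      exact abs_le_of_sq_le_sq (h3.trans h4.le) hR
    exact ⟨fun i => (abs_le.mp (h2 i)).1, fun i => (abs_le.mp (h2 i)).2⟩
  have h2 : (volume (Set.Icc (fun _ : Fin n => -R) (fun _ => R))).toReal = (2 * R) ^ n := by
    rw [Real.volume_Icc_pi_toReal (fun i => by show -R ≤ R; linarith)]
    rw [Finset.prod_const, Finset.card_univ, Fintype.card_fin]
    congr 1
    ring
  rw [← h2]
  exact ENNReal.toReal_mono isCompact_Icc.measure_lt_top.ne (measure_mono h1)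

theorem exists_whu (n : ℕ) (hn : 3 ≤ n) : ∃ C : ℝ, 1 ≤ C ∧ ∀ {u : (Fin n → ℝ) → ℝ},
    Flat n u → (∃ p ∈ Bc n 1, u p ≤ 0) → ∫ p in B n 1, Real.exp (u p) ≤ C := by
  obtain ⟨C0, hC0, hsob⟩ := exists_sobE n hn
  have hn3 : (3 : ℝ) ≤ n := by exact_mod_cast hn
  have hn2 : (0 : ℝ) < n - 2 := by linarith
  have hn0 : (0 : ℝ) < n := by linarith
  obtain ⟨s, hs⟩ : ∃ s : ℝ, s = ((n : ℝ) - 2) / n := ⟨_, rfl⟩
  obtain ⟨θ, hθ⟩ : ∃ θ : ℝ, θ = ((n : ℝ) - 2) ^ 2 / (4 * n) := ⟨_, rfl⟩
  have hs0 : 0 < s := by rw [hs]; positivity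
  have hθ0 : 0 < θ := by rw [hθ]; positivity
  have hsθ : ((n : ℝ) - 2) / 2 - s = 2 * θ := by
    rw [hs, hθ]
    field_simp
    ring
  have hs1 : s ≤ ((n : ℝ) - 2) / 2 := by linarith
  obtain ⟨D, hD⟩ : ∃ D : ℝ, D = 2 + s ^ 2 / 2 * (θ ^ 2)⁻¹ := ⟨_, rfl⟩
  have hD0 : 0 ≤ D := by rw [hD]; positivity
  obtain ⟨Q, hQ⟩ : ∃ Q : ℝ, Q = C0 * (D * (cph ^ 2 * (4 ^ n + 6 ^ n))) := ⟨_, rfl⟩
  have hQ0 : 0 ≤ Q := by rw [hQ]; positivity
  obtain ⟨η, hη, hηc, hηs, hη0, hη1, hηe, hηg⟩ := cph_spec n 1 2 (by norm_num) (by norm_num)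
  refine ⟨1 + Q ^ ((n : ℝ) / (n - 2)), ?_, ?_⟩
  · have : 0 ≤ Q ^ ((n : ℝ) / (n - 2)) := Real.rpow_nonneg hQ0 _
    linarith
  intro u h hex
  obtain ⟨p0, hp0, hp0u⟩ := hex
  have hu := h.smooth
  have cu : Continuous u := hu.continuous
  have hE : ContDiff ℝ ∞ (fun q => Real.exp (s * u q)) := (contDiff_const.mul hu).exp
  have cE : Continuous (fun q => Real.exp (s * u q)) := hE.continuous
  have cE2 : Continuous (fun q => Real.exp (((n : ℝ) - 2) / 2 * u q)) :=
    ((contDiff_const.mul hu).exp : ContDiff ℝ ∞ _).continuous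
  have hK := isCompact_Bc (n := n) 2
  have hsub : B n 2 ⊆ Bc n 2 := B_subset_Bc _
  -- the integral of `e^{su}`
  have t1 : ∫ p in B n 2, Real.exp (s * u p) ≤ 4 ^ n + 6 ^ n := by
    have m1 : ∀ p, Real.exp (s * u p) ≤ 1 + Real.exp (((n : ℝ) - 2) / 2 * u p) := by
      intro p
      rcases le_total (u p) 0 with h1 | h1
      · have h2 : Real.exp (s * u p) ≤ 1 := by
          rw [← Real.exp_zero]
          exact Real.exp_le_exp.2 (mul_nonpos_of_nonneg_of_nonpos hs0.le h1)
        have h3 := Real.exp_pos (((n : ℝ) - 2) / 2 * u p)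
        linarith
      · have h2 : Real.exp (s * u p) ≤ Real.exp (((n : ℝ) - 2) / 2 * u p) :=
          Real.exp_le_exp.2 (mul_le_mul_of_nonneg_right hs1 h1)
        linarith
    have j1 : IntegrableOn (fun p => Real.exp (s * u p)) (B n 2) := int_on cE hK hsub
    have j2 : IntegrableOn (fun p => Real.exp (((n : ℝ) - 2) / 2 * u p)) (B n 2) :=
      int_on cE2 hK hsub
    have j3 : IntegrableOn (fun _ : Fin n → ℝ => (1 : ℝ)) (B n 2) :=
      integrableOn_const (volume_B_lt_top _).ne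
    have m2 := setIntegral_mono_on j1 (j3.add j2) (measurableSet_B _) fun p _ => m1 p
    have m3 : ∫ p in B n 2, (1 + Real.exp (((n : ℝ) - 2) / 2 * u p)) =
        volume.real (B n 2) + ∫ p in B n 2, Real.exp (((n : ℝ) - 2) / 2 * u p) := by
      rw [integral_add j3 j2, setIntegral_const, smul_eq_mul, mul_one]
    have m4 := volW n (R := 2) (by norm_num)
    have m5 := mv_B h (r := 1) (R := 2) (by norm_num) (by norm_num) hp0 hp0u
    norm_num at m4 m5
    have m6 : ∫ p in B n 2, Real.exp (s * u p) ≤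
        ∫ p in B n 2, (1 + Real.exp (((n : ℝ) - 2) / 2 * u p)) := m2
    rw [m3] at m6
    linarith
  -- the integral of `e^{su} gs η`
  have cgη : Continuous (gs η) := cont_gs hη
  have t2 : ∫ p, Real.exp (s * u p) * gs η p ≤ cph ^ 2 * (4 ^ n + 6 ^ n) := by
    have e0 : ∀ p ∉ B n 2, Real.exp (s * u p) * gs η p = 0 := by
      intro p hp
      have : gs η p = 0 := by
        unfold gs
        exact Finset.sum_eq_zero fun i _ => by
          rw [pd_zero_off (fun h' => hp (hηs h')) i]; norm_num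
      rw [this, mul_zero]
    rw [← setIntegral_eq_integral_of_forall_compl_eq_zero (s := B n 2) e0]
    have j1 : IntegrableOn (fun p => Real.exp (s * u p) * gs η p) (B n 2) :=
      int_on (cE.mul cgη) hK hsub
    have j2 : IntegrableOn (fun p => cph ^ 2 * Real.exp (s * u p)) (B n 2) :=
      int_on (continuous_const.mul cE) hK hsub
    have m2 := setIntegral_mono_on j1 j2 (measurableSet_B _) fun p _ => by
      have h1 := hηg p
      norm_num at h1
      have h2 : gs η p ≤ cph ^ 2 := by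
        rw [← gr_sq]
        exact pow_le_pow_left₀ (gr_nonneg η p) h1 2
      show Real.exp (s * u p) * gs η p ≤ cph ^ 2 * Real.exp (s * u p)
      rw [mul_comm (cph ^ 2)]
      exact mul_le_mul_of_nonneg_left h2 (Real.exp_pos _).le
    rw [integral_const_mul] at m2
    exact m2.trans (mul_le_mul_of_nonneg_left t1 (sq_nonneg _))
  have t3 := energyW h hθ0 hsθ hη hηc hη0
  -- the function `w`
  obtain ⟨w, hw⟩ : ∃ w : (Fin n → ℝ) → ℝ, w = fun q => η q * Real.exp (s / 2 * u q) :=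
    ⟨_, rfl⟩
  have hws : ContDiff ℝ ∞ w := by
    rw [hw]
    exact hη.mul (contDiff_const.mul hu).exp
  have hwc : HasCompactSupport w := by
    refine hηc.mono fun p hp hp0 => hp ?_
    show w p = 0
    rw [hw]
    show η p * _ = 0
    rw [hp0, zero_mul]
  have hgc : HasCompactSupport (gs η) := by
    refine HasCompactSupport.intro hηc fun p hp => ?_
    unfold gs
    exact Finset.sum_eq_zero fun i _ => by rw [pd_zero_off hp i]; norm_num
  have hgw : HasCompactSupport (gs w) := by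
    refine HasCompactSupport.intro hwc fun p hp => ?_
    unfold gs
    exact Finset.sum_eq_zero fun i _ => by rw [pd_zero_off hp i]; norm_num
  have hψc : HasCompactSupport (fun q => η q ^ 2 * Real.exp (s * u q)) := by
    refine hηc.mono fun p hp hp0 => hp ?_
    show η p ^ 2 * Real.exp (s * u p) = 0
    rw [hp0]
    ring
  have i1 : Integrable (fun p => η p ^ 2 * Real.exp (s * u p) * gs u p) :=
    (((hη.continuous.pow 2).mul cE).mul (cont_gs hu)).integrable_of_hasCompactSupport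
      hψc.mul_right
  have i2 : Integrable (fun p => Real.exp (s * u p) * gs η p) :=
    (cE.mul cgη).integrable_of_hasCompactSupport hgc.mul_left
  have i3 : Integrable (gs w) := (cont_gs hws).integrable_of_hasCompactSupport hgw
  have t4 : ∫ p, gs w p ≤ D * ∫ p, Real.exp (s * u p) * gs η p := by
    have m1 : ∫ p, gs w p ≤ ∫ p, (2 * (Real.exp (s * u p) * gs η p) +
        s ^ 2 / 2 * (η p ^ 2 * Real.exp (s * u p) * gs u p)) := by
      refine integral_mono i3 ((i2.const_mul _).add (i1.const_mul _)) fun p => ?_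
      rw [hw]
      exact gs_wW hu hη (s / 2) s (by ring) p
    rw [integral_add (i2.const_mul _) (i1.const_mul _), integral_const_mul,
      integral_const_mul] at m1
    have m2 : ∫ p, η p ^ 2 * Real.exp (s * u p) * gs u p ≤
        (θ ^ 2)⁻¹ * ∫ p, Real.exp (s * u p) * gs η p := by
      rw [le_inv_mul_iff₀ (by positivity)]
      exact t3
    have m3 := mul_le_mul_of_nonneg_left m2 (by positivity : 0 ≤ s ^ 2 / 2)
    rw [hD]
    linarith [m1, m3, show (2 + s ^ 2 / 2 * (θ ^ 2)⁻¹) * ∫ p, Real.exp (s * u p) * gs η p =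
      2 * (∫ p, Real.exp (s * u p) * gs η p) +
        s ^ 2 / 2 * ((θ ^ 2)⁻¹ * ∫ p, Real.exp (s * u p) * gs η p) by ring]
  have t5 : C0 * ∫ p, gs w p ≤ Q := by
    rw [hQ]
    refine mul_le_mul_of_nonneg_left (t4.trans ?_) (by linarith)
    exact mul_le_mul_of_nonneg_left t2 hD0
  have t6 := (hsob w hws hwc).trans t5
  set A := ∫ p, |w p| ^ (2 * n / (n - 2) : ℝ) with hA
  have hA0 : 0 ≤ A := integral_nonneg fun p => Real.rpow_nonneg (abs_nonneg _) _
  have t7 : A ≤ Q ^ ((n : ℝ) / (n - 2)) := by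
    have h1 : (A ^ (((n : ℝ) - 2) / n)) ^ ((n : ℝ) / (n - 2)) ≤ Q ^ ((n : ℝ) / (n - 2)) :=
      Real.rpow_le_rpow (Real.rpow_nonneg hA0 _) t6 (by positivity)
    rw [← Real.rpow_mul hA0] at h1
    have h2 : ((n : ℝ) - 2) / n * (n / (n - 2)) = 1 := by field_simp
    rwa [h2, Real.rpow_one] at h1
  have hq0 : (0 : ℝ) < 2 * n / (n - 2) := by positivity
  have cA : Continuous (fun p => |w p| ^ (2 * n / (n - 2) : ℝ)) :=
    (hws.continuous.abs).rpow_const fun p => Or.inr hq0.le
  have iA : Integrable (fun p => |w p| ^ (2 * n / (n - 2) : ℝ)) := by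
    refine cA.integrable_of_hasCompactSupport ?_
    refine HasCompactSupport.intro hwc fun p hp => ?_
    rw [image_eq_zero_of_notMem_tsupport hp, abs_zero, Real.zero_rpow hq0.ne']
  have t8 : ∫ p in B n 1, Real.exp (u p) ≤ A := by
    have h1 : ∫ p in B n 1, Real.exp (u p) = ∫ p in B n 1, |w p| ^ (2 * n / (n - 2) : ℝ) := by
      refine setIntegral_congr_fun (measurableSet_B _) fun p hp => ?_
      show Real.exp (u p) = |w p| ^ (2 * n / (n - 2) : ℝ)
      rw [hw]
      show Real.exp (u p) = |η p * Real.exp (s / 2 * u p)| ^ (2 * n / (n - 2) : ℝ)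
      rw [hηe p (B_subset_Bc _ hp), one_mul, abs_of_pos (Real.exp_pos _), ← Real.exp_mul]
      congr 1
      rw [hs]
      field_simp
    rw [h1]
    exact setIntegral_le_integral iA
      (Eventually.of_forall fun p => Real.rpow_nonneg (abs_nonneg _) _)
  linarith

end

end Pool.Agent.Helper50.YF
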